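import Pool.Agent.H80.BE.Ph
import Pool.Agent.H80.KF.KNum

/-!
# BE Blk1: one block, one frequency, one power of two

`N = d 2^i`, `n = d q ∈ (N, 2N]`, `m = 2^k q' ∈ (N, 2N]`.  If `2N² < x |l| 2^k`, every term is zero
(`d q q' = mn/2^k ≤ 4N²/2^k < 2x|l|`).  Otherwise apply `KF.lemmaK` with `η = -(l (a'-a)) 2^k` (`η ≠ 0`,
`|η| ≤ |l| 2x 2^k ≤ 4N²`), the coefficients `m ↦ β (m/2^k)` for `2^k ∣ m`, `n ↦ α (n/d)` for `d ∣ n`, and
`F(y) = (N²/y) max 0 (1 - A/y) ee(B/y)` for `y ≥ N²`, `0` otherwise, `A = 2x|l|2^k ≤ 4N²`,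
`B = l a' 2^k`, `|B| ≤ 2N²`: this is `Wt N F` by `KF.ckb_wt` (private in `KF/CKb.lean`: copy the proof, needs `N ≥ 10`).
`y = mn = 2^k d q q'`, so `term = (2^k/N²) α β F(mn) kf n η m` with `kf_scale` (`n = d q` odd).
`(m,n) = 1` iff `q ≠ q'` (`d` odd, `2 < q`, `2 < q'`, `(d,q') = (d,q) = 1`).
The sum over `q' ∈ Icc 1 (2N)`, `q' ≠ q` is the sum over `m ∈ II N` coprime to `n` (support of `β`), the sum over
`q ∈ (2^i, 2^{i+1}]` is the sum over `n ∈ II N` (support).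
-/

set_option autoImplicit false

namespace Pool.Agent.H80.BE

open Finset
open Pool.Agent.H80.KF (ee kf ww RW fej)

private theorem Blk1_ee_norm (t : ℝ) : ‖ee t‖ = 1 := by
  have h : (2 * Real.pi * t * Complex.I : ℂ) = ((2 * Real.pi * t : ℝ) : ℂ) * Complex.I := by
    push_cast; ring
  rw [ee, h, Complex.norm_exp_ofReal_mul_I]

private theorem Blk1_ee_lip (s t : ℝ) : ‖ee s - ee t‖ ≤ 2 * Real.pi * |s - t| := by
  have h : ee s - ee t =
      ee t * (Complex.exp (Complex.I * ((2 * Real.pi * (s - t) : ℝ) : ℂ)) - 1) := by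
    rw [ee, ee, mul_sub, mul_one, ← Complex.exp_add]
    congr 2
    push_cast
    ring
  rw [h, norm_mul, Blk1_ee_norm, one_mul]
  refine Real.norm_exp_I_mul_ofReal_sub_one_le.trans ?_
  rw [Real.norm_eq_abs, abs_mul, abs_of_nonneg (by positivity)]

private theorem Blk1_wt {N : ℕ} (hN : 10 ≤ N) {A B : ℝ} (hA0 : 0 ≤ A)
    (hA : A ≤ 4 * ((N : ℝ) + 1) ^ 2) (hB : |B| ≤ 2 * ((N : ℝ) + 1) ^ 2) :
    Pool.Agent.H80.KF.Wt N (fun y => if (N : ℝ) ^ 2 ≤ y then
      (((N : ℝ) ^ 2 / y * max 0 (1 - A / y) : ℝ) : ℂ) * ee (B / y) else 0) := by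
  have hNr : (10 : ℝ) ≤ N := by exact_mod_cast hN
  have hM : (0 : ℝ) < (N : ℝ) ^ 2 := by positivity
  have f1 : ∀ y : ℝ, (N : ℝ) ^ 2 ≤ y → 0 ≤ (N : ℝ) ^ 2 / y ∧ (N : ℝ) ^ 2 / y ≤ 1 := by
    intro y hy
    have hy0 : 0 < y := lt_of_lt_of_le hM hy
    exact ⟨by positivity, (div_le_one hy0).2 hy⟩
  have f2 : ∀ y : ℝ, (N : ℝ) ^ 2 ≤ y → 0 ≤ max 0 (1 - A / y) ∧ max 0 (1 - A / y) ≤ 1 := by
    intro y hy
    have hy0 : 0 < y := lt_of_lt_of_le hM hy
    have : 0 ≤ A / y := by positivity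
    exact ⟨le_max_left _ _, max_le (by norm_num) (by linarith)⟩
  refine ⟨?_, ?_⟩
  · intro y
    by_cases hy : (N : ℝ) ^ 2 ≤ y
    · simp only [if_pos hy]
      rw [norm_mul, Blk1_ee_norm, mul_one, Complex.norm_real, Real.norm_eq_abs,
        abs_of_nonneg (mul_nonneg (f1 y hy).1 (f2 y hy).1)]
      exact mul_le_one₀ (f1 y hy).2 (f2 y hy).1 (f2 y hy).2
    · simp only [if_neg hy, norm_zero]
      norm_num
  · intro y z hy _ hz _
    simp only [if_pos hy, if_pos hz]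
    have hy0 : 0 < y := lt_of_lt_of_le hM hy
    have hz0 : 0 < z := lt_of_lt_of_le hM hz
    obtain ⟨D, hD⟩ : ∃ D : ℝ, D = |1 / y - 1 / z| := ⟨_, rfl⟩
    have hD0 : 0 ≤ D := by rw [hD]; exact abs_nonneg _
    have hDle : D ≤ |y - z| / ((N : ℝ) ^ 2) ^ 2 := by
      have h1 : 1 / y - 1 / z = (z - y) / (y * z) := by field_simp
      rw [hD, h1, abs_div, abs_sub_comm z y, abs_of_pos (mul_pos hy0 hz0), sq ((N : ℝ) ^ 2)]
      exact div_le_div_of_nonneg_left (abs_nonneg _) (by positivity)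
        (mul_le_mul hy hz hM.le hy0.le)
    have e1 : |(N : ℝ) ^ 2 / y - (N : ℝ) ^ 2 / z| = (N : ℝ) ^ 2 * D := by
      rw [hD, ← abs_of_pos hM, ← abs_mul, abs_of_pos hM]
      congr 1
      ring
    have e2 : |max 0 (1 - A / y) - max 0 (1 - A / z)| ≤ A * D := by
      have h1 := abs_max_sub_max_le_abs (1 - A / y) (1 - A / z) 0
      rw [max_comm (1 - A / y) 0, max_comm (1 - A / z) 0] at h1
      refine h1.trans (le_of_eq ?_)
      have h2 : 1 - A / y - (1 - A / z) = A * -(1 / y - 1 / z) := by ring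
      rw [h2, abs_mul, abs_of_nonneg hA0, abs_neg, hD]
    have e3 : ‖ee (B / y) - ee (B / z)‖ ≤ 2 * Real.pi * (|B| * D) := by
      refine (Blk1_ee_lip _ _).trans (le_of_eq ?_)
      have h2 : B / y - B / z = B * (1 / y - 1 / z) := by ring
      rw [h2, abs_mul, hD]
    obtain ⟨p, hp⟩ : ∃ p : ℝ, p = (N : ℝ) ^ 2 / y := ⟨_, rfl⟩
    obtain ⟨p', hp'⟩ : ∃ p' : ℝ, p' = (N : ℝ) ^ 2 / z := ⟨_, rfl⟩
    obtain ⟨r, hr⟩ : ∃ r : ℝ, r = max 0 (1 - A / y) := ⟨_, rfl⟩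
    obtain ⟨r', hr'⟩ : ∃ r' : ℝ, r' = max 0 (1 - A / z) := ⟨_, rfl⟩
    have a1 := f1 z hz
    have a2 := f2 y hy
    have a3 := f2 z hz
    rw [← hp, ← hp'] at e1
    rw [← hr, ← hr'] at e2
    rw [← hp'] at a1
    rw [← hr] at a2
    rw [← hr'] at a3
    rw [← hp, ← hp', ← hr, ← hr']
    have key : ((p * r : ℝ) : ℂ) * ee (B / y) - ((p' * r' : ℝ) : ℂ) * ee (B / z) =
        (((p - p') * r : ℝ) : ℂ) * ee (B / y) + ((p' * (r - r') : ℝ) : ℂ) * ee (B / y) +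
          ((p' * r' : ℝ) : ℂ) * (ee (B / y) - ee (B / z)) := by
      push_cast
      ring
    rw [key]
    have n1 : ‖(((p - p') * r : ℝ) : ℂ) * ee (B / y)‖ ≤ (N : ℝ) ^ 2 * D := by
      rw [norm_mul, Blk1_ee_norm, mul_one, Complex.norm_real, Real.norm_eq_abs, abs_mul, e1,
        abs_of_nonneg a2.1]
      exact mul_le_of_le_one_right (by positivity) a2.2
    have n2 : ‖((p' * (r - r') : ℝ) : ℂ) * ee (B / y)‖ ≤ A * D := by
      rw [norm_mul, Blk1_ee_norm, mul_one, Complex.norm_real, Real.norm_eq_abs, abs_mul,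
        abs_of_nonneg a1.1]
      exact (mul_le_of_le_one_left (abs_nonneg _) a1.2).trans e2
    have n3 : ‖((p' * r' : ℝ) : ℂ) * (ee (B / y) - ee (B / z))‖ ≤ 2 * Real.pi * (|B| * D) := by
      rw [norm_mul, Complex.norm_real, Real.norm_eq_abs, abs_mul, abs_of_nonneg a1.1,
        abs_of_nonneg a3.1]
      refine (mul_le_of_le_one_left (norm_nonneg _) ?_).trans e3
      exact mul_le_one₀ a1.2 a3.1 a3.2
    refine (norm_add₃_le).trans ?_
    have hpi : Real.pi ≤ 4 := Real.pi_le_four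
    have hpi0 : 0 < Real.pi := Real.pi_pos
    have b1 : 2 * Real.pi * (|B| * D) ≤ 8 * (2 * ((N : ℝ) + 1) ^ 2 * D) := by
      have h1 : |B| * D ≤ 2 * ((N : ℝ) + 1) ^ 2 * D := mul_le_mul_of_nonneg_right hB hD0
      have h2 : 2 * Real.pi ≤ 8 := by linarith
      exact mul_le_mul h2 h1 (mul_nonneg (abs_nonneg _) hD0) (by norm_num)
    have b2 : A * D ≤ 4 * ((N : ℝ) + 1) ^ 2 * D := mul_le_mul_of_nonneg_right hA hD0
    have b3 : ((N : ℝ) + 1) ^ 2 ≤ 39 / 20 * (N : ℝ) ^ 2 := by nlinarith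
    have b4 : ((N : ℝ) + 1) ^ 2 * D ≤ 39 / 20 * (N : ℝ) ^ 2 * D :=
      mul_le_mul_of_nonneg_right b3 hD0
    have b5 : (N : ℝ) ^ 2 * D ≤ 1 / (N : ℝ) ^ 2 * |y - z| := by
      have h1 := mul_le_mul_of_nonneg_left hDle hM.le
      refine h1.trans (le_of_eq ?_)
      field_simp
    have b6 : 40 / (N : ℝ) ^ 2 * |y - z| = 40 * (1 / (N : ℝ) ^ 2 * |y - z|) := by ring
    rw [b6]
    nlinarith


/-- the sum over `n = d q` -/
private theorem Blk1_outer (d i N : ℕ) (hd : 1 ≤ d) (hN : N = d * 2 ^ i) (f : ℕ → ℂ)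
    (hf : ∀ n, ¬ (d ∣ n ∧ n / d ∈ Ioc (2 ^ i) (2 ^ (i + 1))) → f n = 0) :
    ∑ n ∈ Pool.Agent.H80.KF.II N, f n = ∑ q ∈ Ioc (2 ^ i) (2 ^ (i + 1)), f (d * q) := by
  classical
  have hinj : ∀ x ∈ Ioc (2 ^ i) (2 ^ (i + 1)), ∀ y ∈ Ioc (2 ^ i) (2 ^ (i + 1)),
      d * x = d * y → x = y := fun x _ y _ hxy => Nat.eq_of_mul_eq_mul_left (by omega) hxy
  rw [← Finset.sum_image hinj]
  symm
  apply Finset.sum_subset
  · intro n hn
    obtain ⟨q, hq, rfl⟩ := mem_image.1 hn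
    rw [mem_Ioc] at hq
    unfold Pool.Agent.H80.KF.II
    rw [mem_Ioc, hN]
    constructor
    · exact Nat.mul_lt_mul_of_pos_left hq.1 (by omega)
    · have h1 : d * q ≤ d * 2 ^ (i + 1) := Nat.mul_le_mul_left _ hq.2
      have h2 : d * 2 ^ (i + 1) = 2 * (d * 2 ^ i) := by rw [pow_succ]; ring
      omega
  · intro n _ hn
    apply hf
    rintro ⟨⟨q, rfl⟩, h2⟩
    apply hn
    rw [Nat.mul_div_cancel_left q (by omega)] at h2
    exact mem_image.2 ⟨q, h2, rfl⟩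

/-- the sum over `m = 2^k q'` -/
private theorem Blk1_inner (k N n : ℕ) (β : ℕ → ℝ) (f : ℕ → ℂ)
    (hβ : ∀ q, β q ≠ 0 → N < 2 ^ k * q ∧ 2 ^ k * q ≤ 2 * N)
    (hf : ∀ m, ¬ (2 ^ k ∣ m ∧ β (m / 2 ^ k) ≠ 0) → f m = 0) :
    ∑ m ∈ (Pool.Agent.H80.KF.II N).filter (fun m => Nat.Coprime m n), f m =
      ∑ q ∈ (Icc 1 (2 * N)).filter (fun q => β q ≠ 0 ∧ Nat.Coprime (2 ^ k * q) n),
        f (2 ^ k * q) := by
  classical
  have hk : 0 < 2 ^ k := by positivity
  have hinj : ∀ x ∈ (Icc 1 (2 * N)).filter (fun q => β q ≠ 0 ∧ Nat.Coprime (2 ^ k * q) n),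
      ∀ y ∈ (Icc 1 (2 * N)).filter (fun q => β q ≠ 0 ∧ Nat.Coprime (2 ^ k * q) n),
      2 ^ k * x = 2 ^ k * y → x = y := fun x _ y _ hxy => Nat.eq_of_mul_eq_mul_left hk hxy
  rw [← Finset.sum_image hinj]
  symm
  apply Finset.sum_subset
  · intro m hm
    obtain ⟨q, hq, rfl⟩ := mem_image.1 hm
    rw [mem_filter, mem_Icc] at hq
    obtain ⟨h1, h2⟩ := hβ q hq.2.1
    unfold Pool.Agent.H80.KF.II
    rw [mem_filter, mem_Ioc]
    exact ⟨⟨h1, by omega⟩, hq.2.2⟩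
  · intro m hm hn
    rw [mem_filter] at hm
    apply hf
    rintro ⟨⟨q, rfl⟩, h2⟩
    apply hn
    rw [Nat.mul_div_cancel_left q hk] at h2
    refine mem_image.2 ⟨q, ?_, rfl⟩
    rw [mem_filter, mem_Icc]
    obtain ⟨h3, h4⟩ := hβ q h2
    refine ⟨⟨?_, ?_⟩, h2, hm.2⟩
    · rcases Nat.eq_zero_or_pos q with h5 | h5
      · subst h5; simp at h3
      · exact h5
    · calc q = 1 * q := (one_mul q).symm
        _ ≤ 2 ^ k * q := Nat.mul_le_mul_right _ hk
        _ ≤ 2 * N := h4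

theorem blk_one : ∃ N0 : ℕ, ∀ x d i k N : ℕ, 1 ≤ x → 1 ≤ d → Odd d → N = d * 2 ^ i → N0 ≤ N →
    ∀ l a a' : ℤ, l ≠ 0 → a ≠ a' → |a| ≤ x → |a'| ≤ x → ∀ α β : ℕ → ℝ, (∀ q, |α q| ≤ 1) →
    (∀ q, |β q| ≤ 1) → (∀ q, α q ≠ 0 → q.Prime ∧ Nat.Coprime d q ∧ 2 < q) →
    (∀ q, β q ≠ 0 → q.Prime ∧ Nat.Coprime d q ∧ 2 < q ∧ N < 2 ^ k * q ∧ 2 ^ k * q ≤ 2 * N) →
    ‖∑ q ∈ Ioc (2 ^ i) (2 ^ (i + 1)), ∑ q' ∈ (Icc 1 (2 * N)).filter (fun q' => q' ≠ q),
        ((α q * β q' / ((d : ℝ) * q * q') *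
          max 0 (1 - 2 * x * |(l : ℝ)| / ((d : ℝ) * q * q')) : ℝ) : ℂ) *
          (ee ((l : ℝ) * a' / ((d : ℝ) * q * q')) * kf (d * q) (-(l * (a' - a))) q')‖ ≤
      if (x : ℤ) * |l| * 2 ^ k ≤ 2 * (N : ℤ) ^ 2 then
        (2 : ℝ) ^ k / (N : ℝ) ^ 2 * (N : ℝ) ^ ((2 : ℝ) - 1 / 50) else 0 := by
  obtain ⟨N0, hK⟩ := Pool.Agent.H80.KF.lemmaK
  refine ⟨max N0 10, ?_⟩
  intro x d i k N hx hd hodd hN hNN l a a' hl haa ha ha' α β hα hβ hαs hβs
  have hN0 : N0 ≤ N := (le_max_left _ _).trans hNN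
  have hN10 : 10 ≤ N := (le_max_right _ _).trans hNN
  have hNr : (10 : ℝ) ≤ N := by exact_mod_cast hN10
  have hNpos : (0 : ℝ) < N := by linarith
  have hdr : (1 : ℝ) ≤ d := by exact_mod_cast hd
  have hd0 : (0 : ℝ) < d := by linarith
  have hxr : (1 : ℝ) ≤ x := by exact_mod_cast hx
  have hx0 : (0 : ℝ) < x := by linarith
  have h2k : (1 : ℝ) ≤ 2 ^ k := one_le_pow₀ (by norm_num)
  have h2k0 : (0 : ℝ) < 2 ^ k := by positivity
  have hlr : (1 : ℝ) ≤ |(l : ℝ)| := by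
    have : 1 ≤ |l| := Int.one_le_abs hl
    exact_mod_cast this
  have hblk : ∀ q ∈ Ioc (2 ^ i) (2 ^ (i + 1)), N < d * q ∧ d * q ≤ 2 * N := by
    intro q hq
    rw [mem_Ioc] at hq
    rw [hN]
    constructor
    · exact Nat.mul_lt_mul_of_pos_left hq.1 (by omega)
    · have h1 : d * q ≤ d * 2 ^ (i + 1) := Nat.mul_le_mul_left _ hq.2
      have h2 : d * 2 ^ (i + 1) = 2 * (d * 2 ^ i) := by rw [pow_succ]; ring
      omega
  by_cases hcase : (x : ℤ) * |l| * 2 ^ k ≤ 2 * (N : ℤ) ^ 2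
  · rw [if_pos hcase]
    have hcr : (x : ℝ) * |(l : ℝ)| * 2 ^ k ≤ 2 * (N : ℝ) ^ 2 := by exact_mod_cast hcase
    have har : |(a : ℝ)| ≤ x := by exact_mod_cast ha
    have har' : |(a' : ℝ)| ≤ x := by exact_mod_cast ha'
    -- the frequency
    obtain ⟨η, hη⟩ : ∃ η : ℤ, η = -(l * (a' - a)) * ((2 ^ k : ℕ) : ℤ) := ⟨_, rfl⟩
    have hη0 : η ≠ 0 := by
      rw [hη]
      refine mul_ne_zero (neg_ne_zero.2 (mul_ne_zero hl (sub_ne_zero.2 haa.symm))) ?_
      exact_mod_cast (by positivity : (2 : ℕ) ^ k ≠ 0)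
    have hηle : |η| ≤ 4 * (N : ℤ) ^ 2 := by
      have h1 : |(η : ℝ)| ≤ 4 * (N : ℝ) ^ 2 := by
        rw [hη]
        push_cast
        rw [abs_mul, abs_neg, abs_mul, abs_of_pos h2k0]
        have h2 : |(a' : ℝ) - a| ≤ 2 * x := (abs_sub _ _).trans (by linarith)
        calc |(l : ℝ)| * |(a' : ℝ) - a| * 2 ^ k ≤ |(l : ℝ)| * (2 * x) * 2 ^ k :=
              mul_le_mul_of_nonneg_right (mul_le_mul_of_nonneg_left h2 (abs_nonneg _)) h2k0.le
          _ = 2 * (x * |(l : ℝ)| * 2 ^ k) := by ring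
          _ ≤ 2 * (2 * (N : ℝ) ^ 2) := by linarith
          _ = 4 * (N : ℝ) ^ 2 := by ring
      exact_mod_cast h1
    obtain ⟨A, hA⟩ : ∃ A : ℝ, A = 2 * x * |(l : ℝ)| * 2 ^ k := ⟨_, rfl⟩
    obtain ⟨B, hB⟩ : ∃ B : ℝ, B = (l : ℝ) * a' * 2 ^ k := ⟨_, rfl⟩
    have hNN1 : (N : ℝ) ^ 2 ≤ ((N : ℝ) + 1) ^ 2 := by nlinarith
    have hA0 : 0 ≤ A := by rw [hA]; positivity
    have hA1 : A ≤ 4 * ((N : ℝ) + 1) ^ 2 := by
      have h1 : A = 2 * (x * |(l : ℝ)| * 2 ^ k) := by rw [hA]; ring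
      rw [h1]; linarith
    have hB1 : |B| ≤ 2 * ((N : ℝ) + 1) ^ 2 := by
      rw [hB, abs_mul, abs_mul, abs_of_pos h2k0]
      have h1 : |(l : ℝ)| * |(a' : ℝ)| * 2 ^ k ≤ |(l : ℝ)| * x * 2 ^ k :=
        mul_le_mul_of_nonneg_right (mul_le_mul_of_nonneg_left har' (abs_nonneg _)) h2k0.le
      have h2 : |(l : ℝ)| * x * 2 ^ k = x * |(l : ℝ)| * 2 ^ k := by ring
      linarith
    have hW := Blk1_wt hN10 hA0 hA1 hB1
    obtain ⟨F, hF⟩ : ∃ F : ℝ → ℂ, F = (fun y : ℝ => if (N : ℝ) ^ 2 ≤ y then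
      (((N : ℝ) ^ 2 / y * max 0 (1 - A / y) : ℝ) : ℂ) * ee (B / y) else 0) := ⟨_, rfl⟩
    rw [← hF] at hW
    obtain ⟨A', hA'⟩ : ∃ A' : ℕ → ℂ, A' = (fun m => if 2 ^ k ∣ m then ((β (m / 2 ^ k) : ℝ) : ℂ)
      else 0) := ⟨_, rfl⟩
    obtain ⟨B', hB'⟩ : ∃ B' : ℕ → ℂ, B' = (fun n => if d ∣ n ∧ n / d ∈ Ioc (2 ^ i) (2 ^ (i + 1))
      then ((α (n / d) : ℝ) : ℂ) else 0) := ⟨_, rfl⟩
    have hmain := hK N hN0 η hη0 hηle A' B'
      (by
        intro m
        rw [hA']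
        dsimp only
        split_ifs
        · rw [Complex.norm_real]; exact hβ _
        · rw [norm_zero]; norm_num)
      (by
        intro m
        rw [hB']
        dsimp only
        split_ifs
        · rw [Complex.norm_real]; exact hα _
        · rw [norm_zero]; norm_num) F hW
    have hsum : (∑ q ∈ Ioc (2 ^ i) (2 ^ (i + 1)), ∑ q' ∈ (Icc 1 (2 * N)).filter (fun q' => q' ≠ q),
        ((α q * β q' / ((d : ℝ) * q * q') *
          max 0 (1 - 2 * x * |(l : ℝ)| / ((d : ℝ) * q * q')) : ℝ) : ℂ) *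
          (ee ((l : ℝ) * a' / ((d : ℝ) * q * q')) * kf (d * q) (-(l * (a' - a))) q')) =
        (((2 : ℝ) ^ k / (N : ℝ) ^ 2 : ℝ) : ℂ) *
        ∑ n ∈ Pool.Agent.H80.KF.II N, ∑ m ∈ (Pool.Agent.H80.KF.II N).filter
          (fun m => Nat.Coprime m n), A' m * B' n * F ((m : ℝ) * n) * kf n η m := by
      rw [Blk1_outer d i N hd hN (fun n => ∑ m ∈ (Pool.Agent.H80.KF.II N).filter
          (fun m => Nat.Coprime m n), A' m * B' n * F ((m : ℝ) * n) * kf n η m)
        (by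
          intro n hn
          refine sum_eq_zero fun m _ => ?_
          rw [hB']
          dsimp only
          rw [if_neg hn, mul_zero, zero_mul, zero_mul]), mul_sum]
      refine sum_congr rfl fun q hq => ?_
      obtain ⟨hq1, hq2⟩ := hblk q hq
      have hBq : B' (d * q) = ((α q : ℝ) : ℂ) := by
        rw [hB']
        dsimp only
        rw [Nat.mul_div_cancel_left q (by omega), if_pos ⟨dvd_mul_right d q, hq⟩]
      rw [hBq]
      by_cases hαq : α q = 0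
      · rw [hαq]
        simp
      · obtain ⟨hqp, hdq, hq3⟩ := hαs q hαq
        rw [Blk1_inner k N (d * q) β (fun m => A' m * ((α q : ℝ) : ℂ) *
            F ((m : ℝ) * ((d * q : ℕ) : ℝ)) * kf (d * q) η m)
          (fun q hq => ⟨(hβs q hq).2.2.2.1, (hβs q hq).2.2.2.2⟩)
          (by
            intro m hm
            have h0 : A' m = 0 := by
              rw [hA']
              dsimp only
              split_ifs with h1
              · have h2 : β (m / 2 ^ k) = 0 := by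
                  by_contra h3
                  exact hm ⟨h1, h3⟩
                rw [h2, Complex.ofReal_zero]
              · rfl
            rw [h0, zero_mul, zero_mul, zero_mul]), mul_sum]
        have hodq : Odd (d * q) := by
          refine hodd.mul ?_
          exact hqp.odd_of_ne_two (by omega)
        -- the index sets
        have hfil : (Icc 1 (2 * N)).filter (fun q' => β q' ≠ 0 ∧ Nat.Coprime (2 ^ k * q') (d * q)) =
            ((Icc 1 (2 * N)).filter (fun q' => q' ≠ q)).filter (fun q' => β q' ≠ 0) := by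
          ext q'
          rw [mem_filter, mem_filter, mem_filter]
          constructor
          · rintro ⟨h1, h2, h3⟩
            refine ⟨⟨h1, ?_⟩, h2⟩
            rintro rfl
            have h4 : q' ∣ Nat.gcd (2 ^ k * q') (d * q') :=
              Nat.dvd_gcd (dvd_mul_left _ _) (dvd_mul_left _ _)
            rw [h3] at h4
            have := Nat.le_of_dvd (by norm_num) h4
            omega
          · rintro ⟨⟨h1, h2⟩, h3⟩
            refine ⟨h1, h3, ?_⟩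
            obtain ⟨hp', hdq', hq3', -, -⟩ := hβs q' h3
            refine Nat.Coprime.mul_left ?_ ?_
            · exact Nat.Coprime.pow_left k (Nat.coprime_two_left.2 hodq)
            · refine Nat.Coprime.mul_right hdq'.symm ?_
              exact (Nat.coprime_primes hp' hqp).2 h2
        rw [hfil, Finset.sum_filter (s := (Icc 1 (2 * N)).filter (fun q' => q' ≠ q))]
        refine sum_congr rfl fun q' hq' => ?_
        rw [mem_filter] at hq'
        by_cases hβq : β q' = 0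
        · rw [if_neg (fun h => h hβq), hβq]
          simp
        · rw [if_pos hβq]
          obtain ⟨hp', hdq', hq3', hq4', hq5'⟩ := hβs q' hβq
          have hA'q : A' (2 ^ k * q') = ((β q' : ℝ) : ℂ) := by
            rw [hA']
            dsimp only
            rw [Nat.mul_div_cancel_left q' (by positivity), if_pos (dvd_mul_right _ q')]
          have hcop' : Nat.Coprime q' (d * q) :=
            Nat.Coprime.mul_right hdq'.symm ((Nat.coprime_primes hp' hqp).2 hq'.2)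
          have hdq1 : 1 ≤ d * q := by omega
          rw [hA'q, hη, kf_scale (d * q) k q' hdq1 hodq hcop']
          have hq0 : (0 : ℝ) < q := by
            have : 0 < q := by omega
            exact_mod_cast this
          have hq0' : (0 : ℝ) < q' := by
            have : 0 < q' := by omega
            exact_mod_cast this
          obtain ⟨y, hy⟩ : ∃ y : ℝ, y = ((2 ^ k * q' : ℕ) : ℝ) * ((d * q : ℕ) : ℝ) := ⟨_, rfl⟩
          have hyN : (N : ℝ) ^ 2 ≤ y := by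
            have g1 : (N : ℝ) ≤ ((2 ^ k * q' : ℕ) : ℝ) := by exact_mod_cast hq4'.le
            have g2 : (N : ℝ) ≤ ((d * q : ℕ) : ℝ) := by exact_mod_cast hq1.le
            rw [hy, sq]
            exact mul_le_mul g1 g2 hNpos.le (hNpos.le.trans g1)
          have hyv : y = 2 ^ k * ((d : ℝ) * q * q') := by
            rw [hy]; push_cast; ring
          rw [← hy, hF]
          dsimp only
          rw [if_pos hyN]
          have hmpos : (0 : ℝ) < (d : ℝ) * q * q' := by positivity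
          have e1 : A / y = 2 * x * |(l : ℝ)| / ((d : ℝ) * q * q') := by
            rw [hA, hyv]
            field_simp
          have e2 : B / y = (l : ℝ) * a' / ((d : ℝ) * q * q') := by
            rw [hB, hyv]
            field_simp
          rw [e1, e2]
          obtain ⟨M, hM⟩ : ∃ M : ℝ, M = max 0 (1 - 2 * x * |(l : ℝ)| / ((d : ℝ) * q * q')) := ⟨_, rfl⟩
          rw [← hM]
          have hreal : α q * β q' / ((d : ℝ) * q * q') * M =
              2 ^ k / (N : ℝ) ^ 2 * (β q' * α q * ((N : ℝ) ^ 2 / y * M)) := by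
            rw [hyv]
            field_simp
          rw [hreal]
          push_cast
          ring
    rw [hsum, norm_mul, Complex.norm_real, Real.norm_eq_abs, abs_of_pos (by positivity)]
    exact mul_le_mul_of_nonneg_left hmain (by positivity)
  · rw [if_neg hcase]
    have hcr : 2 * (N : ℝ) ^ 2 < (x : ℝ) * |(l : ℝ)| * 2 ^ k := by
      have := not_le.1 hcase
      exact_mod_cast this
    refine le_of_eq ?_
    rw [norm_eq_zero]
    refine sum_eq_zero fun q hq => sum_eq_zero fun q' _ => ?_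
    obtain ⟨hq1, hq2⟩ := hblk q hq
    by_cases hβq : β q' = 0
    · rw [hβq]
      simp
    · obtain ⟨hp', hdq', hq3', hq4', hq5'⟩ := hβs q' hβq
      have hqpos : 0 < q := by
        rcases Nat.eq_zero_or_pos q with h | h
        · subst h; omega
        · exact h
      have hq0 : (0 : ℝ) < q := by exact_mod_cast hqpos
      have hq0' : (0 : ℝ) < q' := by
        have : 0 < q' := by omega
        exact_mod_cast this
      have hmpos : (0 : ℝ) < (d : ℝ) * q * q' := by positivity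
      have g1 : ((2 ^ k * q' : ℕ) : ℝ) ≤ 2 * N := by exact_mod_cast hq5'
      have g2 : ((d * q : ℕ) : ℝ) ≤ 2 * N := by exact_mod_cast hq2
      have g3 : ((2 ^ k * q' : ℕ) : ℝ) * ((d * q : ℕ) : ℝ) ≤ (2 * N) * (2 * N) :=
        mul_le_mul g1 g2 (Nat.cast_nonneg _) (by positivity)
      have g4 : ((2 ^ k * q' : ℕ) : ℝ) * ((d * q : ℕ) : ℝ) = 2 ^ k * ((d : ℝ) * q * q') := by
        push_cast; ring
      have g5 : (d : ℝ) * q * q' ≤ 2 * x * |(l : ℝ)| := by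
        have : 2 ^ k * ((d : ℝ) * q * q') ≤ 2 ^ k * (2 * x * |(l : ℝ)|) := by
          calc 2 ^ k * ((d : ℝ) * q * q') ≤ (2 * N) * (2 * N) := by rw [← g4]; exact g3
            _ = 2 * (2 * (N : ℝ) ^ 2) := by ring
            _ ≤ 2 * ((x : ℝ) * |(l : ℝ)| * 2 ^ k) := by linarith
            _ = 2 ^ k * (2 * x * |(l : ℝ)|) := by ring
        exact le_of_mul_le_mul_left this h2k0
      have g6 : max 0 (1 - 2 * x * |(l : ℝ)| / ((d : ℝ) * q * q')) = 0 := by
        apply max_eq_left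
        have : 1 ≤ 2 * x * |(l : ℝ)| / ((d : ℝ) * q * q') := by
          rw [le_div_iff₀ hmpos, one_mul]; exact g5
        linarith
      rw [g6]
      simp

end Pool.Agent.H80.BE
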