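import Pool.Agent.H80.BE.Ex1

/-!
# BE Ex2: the sieved weight in two classes

* `nz_spec`: Chinese remainder theorem for the pairwise coprime moduli `d, q, q'`.
* `fej_congr`: `ee (l c/m)` depends only on `c mod m`.
* `fej_ext`: for `M ≥ m` the additional `l` have `|l| > m`, so `2x|l|/m ≥ 1` and the factor `max 0 _` is zero.
* `ex_two`: `lam_expand`, and `KF.ww_class` for the modulus `lcm(d,e) q q'` and the class of `nz`.
-/

set_option autoImplicit false

namespace Pool.Agent.H80.BE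

open Finset
open Pool.Agent.H80.KF (ee kf ww RW fej)

theorem nz_spec (d q q' : ℕ) (h1 : Nat.Coprime d q) (h2 : Nat.Coprime d q')
    (h3 : Nat.Coprime q q') (a a' : ℤ) :
    (d : ℤ) ∣ nz d q q' a a' ∧ (q : ℤ) ∣ nz d q q' a a' - a ∧ (q' : ℤ) ∣ nz d q q' a a' - a' := by
  have hex : ∃ n : ℤ, (d : ℤ) ∣ n ∧ (q : ℤ) ∣ n - a ∧ (q' : ℤ) ∣ n - a' := by
    obtain ⟨u, v, huv⟩ := Nat.isCoprime_iff_coprime.2 h1
    obtain ⟨s, t, hst⟩ := Nat.isCoprime_iff_coprime.2 (Nat.Coprime.mul_left h2 h3)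
    rw [Nat.cast_mul] at hst
    refine ⟨a * u * d + (a' - a * u * d) * (s * (d * q)), ?_, ?_, ?_⟩
    · exact ⟨a * u + (a' - a * u * d) * (s * q), by ring⟩
    · exact ⟨-(a * v) + (a' - a * u * d) * (s * d), by linear_combination a * huv⟩
    · exact ⟨-((a' - a * u * d) * t), by linear_combination (a' - a * u * d) * hst⟩
  unfold nz
  rw [dif_pos hex]
  exact hex.choose_spec

theorem fej_congr (x m : ℕ) {c c' : ℤ} (h : (m : ℤ) ∣ c - c') : fej x m c = fej x m c' := by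
  unfold fej
  refine Finset.sum_congr rfl fun l _ => ?_
  rcases Nat.eq_zero_or_pos m with hm | hm
  · subst hm
    have : c = c' := by
      have := Int.zero_dvd.1 (by simpa using h)
      omega
    rw [this]
  · obtain ⟨k, hk⟩ := h
    have hm0 : (m : ℝ) ≠ 0 := by exact_mod_cast hm.ne'
    have hk' : (c : ℝ) = c' + m * k := by
      have : c = c' + m * k := by linear_combination hk
      exact_mod_cast this
    rw [KF.ee_eq_of_int (l * k) (s := (l : ℝ) * c / m) (t := (l : ℝ) * c' / m)]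
    rw [hk']
    push_cast
    field_simp
    ring

theorem fej_ext (x m M : ℕ) (hx : 1 ≤ x) (hm : 1 ≤ m) (hM : m ≤ M) (c : ℤ) :
    fej x m c - 1 = ∑ l ∈ (Icc (-(M : ℤ)) M).filter (fun l => l ≠ 0),
      ((max 0 (1 - 2 * x * |(l : ℝ)| / m) : ℝ) : ℂ) * ee ((l : ℝ) * c / m) := by
  have hm0 : (0 : ℝ) < m := by exact_mod_cast hm
  have hx0 : (1 : ℝ) ≤ x := by exact_mod_cast hx
  have h1 : fej x m c = ∑ l ∈ Icc (-(M : ℤ)) M,
      ((max 0 (1 - 2 * x * |(l : ℝ)| / m) : ℝ) : ℂ) * ee ((l : ℝ) * c / m) := by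
    unfold fej
    refine Finset.sum_subset ?_ ?_
    · intro l hl
      rw [Finset.mem_Icc] at hl ⊢
      have : (m : ℤ) ≤ M := by exact_mod_cast hM
      omega
    · intro l _ hl
      rw [Finset.mem_Icc] at hl
      have h2 : (m : ℤ) ≤ |l| := by
        rcases le_total 0 l with h0 | h0
        · rw [abs_of_nonneg h0]; omega
        · rw [abs_of_nonpos h0]; omega
      have h3 : (m : ℝ) ≤ |(l : ℝ)| := by exact_mod_cast h2
      have h4 : max 0 (1 - 2 * x * |(l : ℝ)| / m) = 0 := by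
        refine max_eq_left ?_
        rw [sub_nonpos, le_div_iff₀ hm0]
        nlinarith
      rw [h4, Complex.ofReal_zero, zero_mul]
  have h2 : (0 : ℤ) ∈ Icc (-(M : ℤ)) M := by
    rw [Finset.mem_Icc]
    constructor <;> omega
  rw [h1, Finset.filter_ne', ← Finset.add_sum_erase _ _ h2]
  have h3 : ((max 0 (1 - 2 * x * |((0 : ℤ) : ℝ)| / m) : ℝ) : ℂ) * ee (((0 : ℤ) : ℝ) * c / m) = 1 := by
    rw [Int.cast_zero, abs_zero, mul_zero, zero_div, sub_zero, zero_mul, zero_div, KF.ee_zero]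
    rw [max_eq_right zero_le_one, Complex.ofReal_one, mul_one]
  rw [h3]
  ring

private theorem Ex2_iff {L q q' : ℕ} (h1 : Nat.Coprime L q) (h2 : Nat.Coprime L q')
    (h3 : Nat.Coprime q q') (a a' n : ℤ) :
    ((L : ℤ) ∣ n ∧ (q : ℤ) ∣ n - a ∧ (q' : ℤ) ∣ n - a') ↔
      ((L * q * q' : ℕ) : ℤ) ∣ n - nz L q q' a a' := by
  obtain ⟨k1, k2, k3⟩ := nz_spec L q q' h1 h2 h3 a a'
  constructor
  · rintro ⟨m1, m2, m3⟩
    have c1 : (L : ℤ) ∣ n - nz L q q' a a' := dvd_sub m1 k1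
    have c2 : (q : ℤ) ∣ n - nz L q q' a a' := by
      have := dvd_sub m2 k2
      rwa [sub_sub_sub_cancel_right] at this
    have c3 : (q' : ℤ) ∣ n - nz L q q' a a' := by
      have := dvd_sub m3 k3
      rwa [sub_sub_sub_cancel_right] at this
    rw [Nat.cast_mul, Nat.cast_mul]
    have d1 : IsCoprime (L : ℤ) (q : ℤ) := Nat.isCoprime_iff_coprime.2 h1
    have d2 : IsCoprime ((L : ℤ) * q) (q' : ℤ) :=
      IsCoprime.mul_left (Nat.isCoprime_iff_coprime.2 h2) (Nat.isCoprime_iff_coprime.2 h3)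
    exact d2.mul_dvd (d1.mul_dvd c1 c2) c3
  · intro hd
    rw [Nat.cast_mul, Nat.cast_mul] at hd
    have e1 : (L : ℤ) ∣ n - nz L q q' a a' := (Dvd.intro ((q : ℤ) * q') (by ring)).trans hd
    have e2 : (q : ℤ) ∣ n - nz L q q' a a' :=
      (Dvd.intro ((L : ℤ) * q') (by ring)).trans hd
    have e3 : (q' : ℤ) ∣ n - nz L q q' a a' := (Dvd.intro_left _ rfl).trans hd
    refine ⟨?_, ?_, ?_⟩
    · have := dvd_add e1 k1
      rwa [sub_add_cancel] at this
    · have := dvd_add e2 k2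
      rwa [sub_add_sub_cancel] at this
    · have := dvd_add e3 k3
      rwa [sub_add_sub_cancel] at this

private theorem Ex2_coprime {D q d e : ℕ} (hq : q.Prime) (hqD : D < q) (hd : 1 ≤ d) (hdD : d ≤ D)
    (he : 1 ≤ e) (heD : e ≤ D) : Nat.Coprime (Nat.lcm d e) q := by
  rw [Nat.coprime_comm, hq.coprime_iff_not_dvd]
  intro h
  have h1 : q ∣ d * e := h.trans (Nat.lcm_dvd_mul d e)
  rcases (hq.dvd_mul).1 h1 with h2 | h2
  · have := Nat.le_of_dvd (by omega) h2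
    omega
  · have := Nat.le_of_dvd (by omega) h2
    omega

theorem ex_two (x J D q q' : ℕ) (ρ : ℕ → ℝ) (hx : 1 ≤ x) (hJ : 1 ≤ J) (hD : 1 ≤ D)
    (hq : q.Prime) (hq' : q'.Prime) (hne : q ≠ q') (hqD : D < q) (hqD' : D < q')
    (hdiv : ∀ k : ℕ, 1 ≤ k → k ≤ q * q' * D ^ 2 → k ∣ 2 * x * J) (a a' : ℤ) :
    ((∑ n ∈ RW x J, ww x J n * lam D ρ n *
        ((if (q : ℤ) ∣ n - a then (1 : ℝ) else 0) * (if (q' : ℤ) ∣ n - a' then (1 : ℝ) else 0)) : ℝ) : ℂ) =
      ∑ d ∈ Icc 1 D, ∑ e ∈ Icc 1 D,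
        ((ρ d * ρ e * (Real.pi ^ 2 * x / (2 * (((Nat.lcm d e : ℕ) : ℝ) * q * q'))) : ℝ) : ℂ) *
          fej x (Nat.lcm d e * q * q') (nz (Nat.lcm d e) q q' a a') := by
  have hqq : Nat.Coprime q q' := (Nat.coprime_primes hq hq').2 hne
  have h1 : ∑ n ∈ RW x J, ww x J n * lam D ρ n *
        ((if (q : ℤ) ∣ n - a then (1 : ℝ) else 0) * (if (q' : ℤ) ∣ n - a' then (1 : ℝ) else 0)) =
      ∑ d ∈ Icc 1 D, ∑ e ∈ Icc 1 D, ρ d * ρ e *
        ∑ n ∈ (RW x J).filter (fun n => ((Nat.lcm d e * q * q' : ℕ) : ℤ) ∣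
          n - nz (Nat.lcm d e) q q' a a'), ww x J n := by
    have h2 : ∀ n ∈ RW x J, ww x J n * lam D ρ n *
        ((if (q : ℤ) ∣ n - a then (1 : ℝ) else 0) * (if (q' : ℤ) ∣ n - a' then (1 : ℝ) else 0)) =
        ∑ d ∈ Icc 1 D, ∑ e ∈ Icc 1 D, ρ d * ρ e *
          (if ((Nat.lcm d e * q * q' : ℕ) : ℤ) ∣ n - nz (Nat.lcm d e) q q' a a' then ww x J n
            else 0) := by
      intro n _
      rw [lam_expand, Finset.mul_sum, Finset.sum_mul]
      refine Finset.sum_congr rfl fun d hd => ?_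
      rw [Finset.mul_sum, Finset.sum_mul]
      refine Finset.sum_congr rfl fun e he => ?_
      rw [Finset.mem_Icc] at hd he
      have hi := Ex2_iff (Ex2_coprime hq hqD hd.1 hd.2 he.1 he.2)
        (Ex2_coprime hq' hqD' hd.1 hd.2 he.1 he.2) hqq a a' n
      by_cases g : ((Nat.lcm d e * q * q' : ℕ) : ℤ) ∣ n - nz (Nat.lcm d e) q q' a a'
      · obtain ⟨g1, g2, g3⟩ := hi.2 g
        rw [if_pos g1, if_pos g2, if_pos g3, if_pos g]
        ring
      · rw [if_neg g]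
        by_cases g1 : ((Nat.lcm d e : ℕ) : ℤ) ∣ n
        · by_cases g2 : (q : ℤ) ∣ n - a
          · by_cases g3 : (q' : ℤ) ∣ n - a'
            · exact absurd (hi.1 ⟨g1, g2, g3⟩) g
            · rw [if_neg g3]; ring
          · rw [if_neg g2]; ring
        · rw [if_neg g1]; ring
    rw [Finset.sum_congr rfl h2, Finset.sum_comm]
    refine Finset.sum_congr rfl fun d _ => ?_
    rw [Finset.sum_comm]
    refine Finset.sum_congr rfl fun e _ => ?_
    rw [Finset.sum_filter, Finset.mul_sum]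
  rw [h1]
  push_cast
  refine Finset.sum_congr rfl fun d hd => ?_
  refine Finset.sum_congr rfl fun e he => ?_
  rw [Finset.mem_Icc] at hd he
  have hL1 : 1 ≤ Nat.lcm d e := Nat.lcm_pos hd.1 he.1
  have hL2 : Nat.lcm d e ≤ D ^ 2 := by
    refine (Nat.le_of_dvd (Nat.mul_pos hd.1 he.1) (Nat.lcm_dvd_mul d e)).trans ?_
    rw [sq]
    exact Nat.mul_le_mul hd.2 he.2
  have hm1 : 1 ≤ Nat.lcm d e * q * q' := Nat.mul_pos (Nat.mul_pos hL1 hq.pos) hq'.pos
  have hm2 : Nat.lcm d e * q * q' ≤ q * q' * D ^ 2 := by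
    calc Nat.lcm d e * q * q' = q * q' * Nat.lcm d e := by ring
      _ ≤ q * q' * D ^ 2 := Nat.mul_le_mul_left _ hL2
  have h3 := KF.ww_class x J (Nat.lcm d e * q * q') hx hJ hm1 (hdiv _ hm1 hm2)
    (nz (Nat.lcm d e) q q' a a')
  push_cast at h3
  rw [h3]
  ring

end Pool.Agent.H80.BE
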