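import Pool.Agent.H80.BE.BlkC
import Pool.Agent.H80.BE.Ex2

/-!
# BE Blk2: one block, all frequencies

`N = d 2^i`.  `fej_ext` with `M = 4 N²` (`m = d q q' ≤ 4 N²`), exchange the sums, `blk_cls` for every `l ≠ 0`; for each
`k ≤ log₂(2N) ≤ log₂(2x)` (at most `2 log x` values for large `x`) the number of `l ≠ 0` with `x |l| 2^k ≤ 2N²` is at
most `4N²/(x 2^k)`.  Total `d² · 2 log x · 4 N^{2-1/50}/x`.
If `N < N0` then `4N² ≤ 2x` (for `x ≥ 2 N0²`) and `fej = 1` (`KF.fej_small`, `d q q' ≤ 4N²`).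
-/

set_option autoImplicit false

namespace Pool.Agent.H80.BE

open Finset
open Pool.Agent.H80.KF (ee kf ww RW fej)

private theorem Blk2_count (x k N M : ℕ) (hx : 1 ≤ x) :
    ((((Icc (-(M : ℤ)) M).filter (fun l => l ≠ 0)).filter
      (fun l => (x : ℤ) * |l| * 2 ^ k ≤ 2 * (N : ℤ) ^ 2)).card : ℝ) ≤ 4 * (N : ℝ) ^ 2 / (x * 2 ^ k) := by
  obtain ⟨Y, hY⟩ : ∃ Y : ℕ, Y = (2 * N ^ 2) / (x * 2 ^ k) := ⟨_, rfl⟩
  have hpos : 0 < x * 2 ^ k := Nat.mul_pos hx (by positivity)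
  have hsub : ((Icc (-(M : ℤ)) M).filter (fun l => l ≠ 0)).filter
      (fun l => (x : ℤ) * |l| * 2 ^ k ≤ 2 * (N : ℤ) ^ 2) ⊆ (Icc (-(Y : ℤ)) Y).erase 0 := by
    intro l hl
    rw [mem_filter, mem_filter] at hl
    rw [mem_erase, mem_Icc]
    refine ⟨hl.1.2, ?_⟩
    have h1 := hl.2
    rw [← Int.natCast_natAbs] at h1
    have h2 : x * l.natAbs * 2 ^ k ≤ 2 * N ^ 2 := by exact_mod_cast h1
    have h3 : l.natAbs ≤ Y := by
      rw [hY, Nat.le_div_iff_mul_le hpos]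
      calc l.natAbs * (x * 2 ^ k) = x * l.natAbs * 2 ^ k := by ring
        _ ≤ _ := h2
    omega
  have hcard : ((Icc (-(Y : ℤ)) Y).erase 0).card = 2 * Y := by
    rw [Finset.card_erase_of_mem (by rw [mem_Icc]; omega), Int.card_Icc]
    omega
  have h4 := Finset.card_le_card hsub
  rw [hcard] at h4
  have h5 : (Y : ℝ) ≤ (2 * (N : ℝ) ^ 2) / (x * 2 ^ k) := by
    rw [hY]
    have h6 := @Nat.cast_div_le ℝ _ _ _ (2 * N ^ 2) (x * 2 ^ k)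
    refine h6.trans (le_of_eq ?_)
    push_cast
    rfl
  calc ((((Icc (-(M : ℤ)) M).filter (fun l => l ≠ 0)).filter
      (fun l => (x : ℤ) * |l| * 2 ^ k ≤ 2 * (N : ℤ) ^ 2)).card : ℝ) ≤ ((2 * Y : ℕ) : ℝ) := by
        exact_mod_cast h4
    _ = 2 * (Y : ℝ) := by push_cast; ring
    _ ≤ 2 * ((2 * (N : ℝ) ^ 2) / (x * 2 ^ k)) := by linarith
    _ = _ := by ring

private theorem Blk2_log {x N : ℕ} (hN : 1 ≤ N) (hNx : N ≤ x) (hL : 4 ≤ Real.log x) :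
    ((Nat.log 2 (2 * N) + 1 : ℕ) : ℝ) ≤ 2 * Real.log x := by
  have h1 : 2 ^ Nat.log 2 (2 * N) ≤ 2 * N := Nat.pow_log_le_self 2 (by omega)
  have h2 : (2 : ℝ) ^ Nat.log 2 (2 * N) ≤ 2 * x := by
    have h3 : 2 ^ Nat.log 2 (2 * N) ≤ 2 * x := h1.trans (by omega)
    exact_mod_cast h3
  have hx0 : (0 : ℝ) < x := by
    have : 1 ≤ x := hN.trans hNx
    exact_mod_cast this
  have h4 := Real.log_le_log (by positivity) h2
  rw [Real.log_pow, Real.log_mul (by norm_num) hx0.ne'] at h4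
  have l1 := Real.log_two_gt_d9
  have l2 := Real.log_two_lt_d9
  have h5 : ((Nat.log 2 (2 * N) : ℕ) : ℝ) * 0.6931 ≤ ((Nat.log 2 (2 * N) : ℕ) : ℝ) * Real.log 2 :=
    mul_le_mul_of_nonneg_left (by linarith) (Nat.cast_nonneg _)
  push_cast
  linarith

theorem blk_sum : ∃ x0 : ℕ, ∀ x d i N : ℕ, x0 ≤ x → 1 ≤ d → Odd d → N = d * 2 ^ i → N ≤ x →
    ∀ a a' : ℤ, a ≠ a' → |a| ≤ x → |a'| ≤ x → ∀ α β : ℕ → ℝ, (∀ q, |α q| ≤ 1) →
    (∀ q, |β q| ≤ 1) → (∀ q, α q ≠ 0 → q.Prime ∧ Nat.Coprime d q ∧ 2 < q) →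
    (∀ q, β q ≠ 0 → q.Prime ∧ Nat.Coprime d q ∧ 2 < q) → ∀ n0 : ℕ → ℕ → ℤ,
    (∀ q q' : ℕ, q.Prime → q'.Prime → q ≠ q' → Nat.Coprime d q → Nat.Coprime d q' →
      (d : ℤ) ∣ n0 q q' ∧ (q : ℤ) ∣ n0 q q' - a ∧ (q' : ℤ) ∣ n0 q q' - a') →
    ‖∑ q ∈ Ioc (2 ^ i) (2 ^ (i + 1)), ∑ q' ∈ (Icc 1 (2 ^ (i + 1))).filter (fun q' => q' ≠ q),
        ((α q * β q' / ((d : ℝ) * q * q') : ℝ) : ℂ) * (fej x (d * q * q') (n0 q q') - 1)‖ ≤
      8 * (d : ℝ) ^ 2 * Real.log x * (N : ℝ) ^ ((2 : ℝ) - 1 / 50) / x := by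
  obtain ⟨N0, hN0⟩ := blk_cls
  have hlog : ∀ᶠ x : ℕ in Filter.atTop, (4 : ℝ) ≤ Real.log x :=
    (Real.tendsto_log_atTop.comp (tendsto_natCast_atTop_atTop (R := ℝ))).eventually
      (Filter.eventually_ge_atTop 4)
  obtain ⟨x1, hx1⟩ := Filter.eventually_atTop.mp hlog
  refine ⟨max x1 (2 * N0 ^ 2 + 1), ?_⟩
  intro x d i N hxx hd hodd hNd hNx a a' haa ha ha' α β hα hβ hαp hβp n0 hn0
  have hL := hx1 x ((le_max_left _ _).trans hxx)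
  have hxN : 2 * N0 ^ 2 + 1 ≤ x := (le_max_right _ _).trans hxx
  have hx : 1 ≤ x := by omega
  have hx0 : (0 : ℝ) < x := by exact_mod_cast hx
  have hN1 : 1 ≤ N := by
    rw [hNd]
    exact Nat.mul_pos hd (by positivity)
  have hNr : (0 : ℝ) < N := by exact_mod_cast hN1
  -- the moduli
  have hm : ∀ q ∈ Ioc (2 ^ i) (2 ^ (i + 1)), ∀ q' ∈ (Icc 1 (2 ^ (i + 1))).filter (fun q' => q' ≠ q),
      1 ≤ d * q * q' ∧ d * q * q' ≤ 4 * N ^ 2 := by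
    intro q hq q' hq'
    rw [mem_Ioc] at hq
    rw [mem_filter, mem_Icc] at hq'
    constructor
    · exact Nat.mul_pos (Nat.mul_pos hd (by omega)) hq'.1.1
    · calc d * q * q' ≤ d * 2 ^ (i + 1) * 2 ^ (i + 1) :=
            Nat.mul_le_mul (Nat.mul_le_mul_left _ hq.2) hq'.1.2
        _ ≤ d * d * 2 ^ (i + 1) * 2 ^ (i + 1) := by
            have h1 : d ≤ d * d := Nat.le_mul_of_pos_left d hd
            exact Nat.mul_le_mul_right _ (Nat.mul_le_mul_right _ h1)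
        _ = 4 * N ^ 2 := by
            rw [hNd, pow_succ]
            ring
  have hR : 0 ≤ 8 * (d : ℝ) ^ 2 * Real.log x * (N : ℝ) ^ ((2 : ℝ) - 1 / 50) / x := by
    have h1 : 0 ≤ Real.log x := by linarith
    have h2 : 0 ≤ (N : ℝ) ^ ((2 : ℝ) - 1 / 50) := Real.rpow_nonneg hNr.le _
    positivity
  rcases lt_or_ge N N0 with hlt | hge
  · -- the small case
    have h0 : ∑ q ∈ Ioc (2 ^ i) (2 ^ (i + 1)), ∑ q' ∈ (Icc 1 (2 ^ (i + 1))).filter (fun q' => q' ≠ q),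
        ((α q * β q' / ((d : ℝ) * q * q') : ℝ) : ℂ) * (fej x (d * q * q') (n0 q q') - 1) = 0 := by
      refine Finset.sum_eq_zero fun q hq => Finset.sum_eq_zero fun q' hq' => ?_
      obtain ⟨m1, m2⟩ := hm q hq q' hq'
      have h1 : N ^ 2 ≤ N0 ^ 2 := Nat.pow_le_pow_left hlt.le 2
      rw [Pool.Agent.H80.KF.fej_small x (d * q * q') m1 (by omega), sub_self, mul_zero]
    rw [h0, norm_zero]
    exact hR
  · -- the main case
    obtain ⟨M, hM⟩ : ∃ M : ℕ, M = 4 * N ^ 2 := ⟨_, rfl⟩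
    obtain ⟨Ls, hLs⟩ : ∃ Ls : Finset ℤ, Ls = (Icc (-(M : ℤ)) M).filter (fun l => l ≠ 0) := ⟨_, rfl⟩
    have h1 : ∑ q ∈ Ioc (2 ^ i) (2 ^ (i + 1)), ∑ q' ∈ (Icc 1 (2 ^ (i + 1))).filter (fun q' => q' ≠ q),
        ((α q * β q' / ((d : ℝ) * q * q') : ℝ) : ℂ) * (fej x (d * q * q') (n0 q q') - 1) =
        ∑ l ∈ Ls, ∑ q ∈ Ioc (2 ^ i) (2 ^ (i + 1)),
          ∑ q' ∈ (Icc 1 (2 ^ (i + 1))).filter (fun q' => q' ≠ q),
          ((α q * β q' / ((d : ℝ) * q * q') *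
            max 0 (1 - 2 * x * |(l : ℝ)| / ((d : ℝ) * q * q')) : ℝ) : ℂ) *
            ee ((l : ℝ) * n0 q q' / ((d : ℝ) * q * q')) := by
      have h2 : ∀ q ∈ Ioc (2 ^ i) (2 ^ (i + 1)),
          ∑ q' ∈ (Icc 1 (2 ^ (i + 1))).filter (fun q' => q' ≠ q),
            ((α q * β q' / ((d : ℝ) * q * q') : ℝ) : ℂ) * (fej x (d * q * q') (n0 q q') - 1) =
          ∑ l ∈ Ls, ∑ q' ∈ (Icc 1 (2 ^ (i + 1))).filter (fun q' => q' ≠ q),
            ((α q * β q' / ((d : ℝ) * q * q') *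
              max 0 (1 - 2 * x * |(l : ℝ)| / ((d : ℝ) * q * q')) : ℝ) : ℂ) *
              ee ((l : ℝ) * n0 q q' / ((d : ℝ) * q * q')) := by
        intro q hq
        rw [Finset.sum_comm]
        refine Finset.sum_congr rfl fun q' hq' => ?_
        obtain ⟨m1, m2⟩ := hm q hq q' hq'
        rw [fej_ext x (d * q * q') M hx m1 (by rw [hM]; exact m2) (n0 q q'), ← hLs, Finset.mul_sum]
        refine Finset.sum_congr rfl fun l _ => ?_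
        push_cast
        ring
      rw [Finset.sum_congr rfl h2, Finset.sum_comm]
    rw [h1]
    refine (norm_sum_le _ _).trans ?_
    have h3 : ∀ l ∈ Ls, ‖∑ q ∈ Ioc (2 ^ i) (2 ^ (i + 1)),
          ∑ q' ∈ (Icc 1 (2 ^ (i + 1))).filter (fun q' => q' ≠ q),
          ((α q * β q' / ((d : ℝ) * q * q') *
            max 0 (1 - 2 * x * |(l : ℝ)| / ((d : ℝ) * q * q')) : ℝ) : ℂ) *
            ee ((l : ℝ) * n0 q q' / ((d : ℝ) * q * q'))‖ ≤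
        (d : ℝ) ^ 2 * ∑ k ∈ range (Nat.log 2 (2 * N) + 1),
          (if (x : ℤ) * |l| * 2 ^ k ≤ 2 * (N : ℤ) ^ 2 then
            (2 : ℝ) ^ k / (N : ℝ) ^ 2 * (N : ℝ) ^ ((2 : ℝ) - 1 / 50) else 0) := by
      intro l hl
      rw [hLs, mem_filter] at hl
      exact hN0 x d i N hx hd hodd hNd hge l a a' hl.2 haa ha ha' α β hα hβ hαp hβp n0 hn0
    refine (Finset.sum_le_sum h3).trans ?_
    rw [← Finset.mul_sum, Finset.sum_comm]
    have h4 : ∀ k ∈ range (Nat.log 2 (2 * N) + 1), ∑ l ∈ Ls,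
        (if (x : ℤ) * |l| * 2 ^ k ≤ 2 * (N : ℤ) ^ 2 then
            (2 : ℝ) ^ k / (N : ℝ) ^ 2 * (N : ℝ) ^ ((2 : ℝ) - 1 / 50) else 0) ≤
        4 * (N : ℝ) ^ ((2 : ℝ) - 1 / 50) / x := by
      intro k _
      rw [← Finset.sum_filter, Finset.sum_const, nsmul_eq_mul, hLs]
      have h5 := Blk2_count x k N M hx
      have h6 : 0 ≤ (2 : ℝ) ^ k / (N : ℝ) ^ 2 * (N : ℝ) ^ ((2 : ℝ) - 1 / 50) := by
        have := Real.rpow_nonneg hNr.le ((2 : ℝ) - 1 / 50)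
        positivity
      refine (mul_le_mul_of_nonneg_right h5 h6).trans (le_of_eq ?_)
      have hk0 : (2 : ℝ) ^ k ≠ 0 := by positivity
      field_simp
    have h7 := Finset.sum_le_sum h4
    rw [Finset.sum_const, card_range, nsmul_eq_mul] at h7
    have h8 := Blk2_log hN1 hNx hL
    have h9 : 0 ≤ 4 * (N : ℝ) ^ ((2 : ℝ) - 1 / 50) / x := by
      have := Real.rpow_nonneg hNr.le ((2 : ℝ) - 1 / 50)
      positivity
    have h10 := h7.trans (mul_le_mul_of_nonneg_right h8 h9)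
    refine (mul_le_mul_of_nonneg_left h10 (sq_nonneg (d : ℝ))).trans (le_of_eq ?_)
    ring

end Pool.Agent.H80.BE
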