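import Pool.Agent.H80.BE.Blk1

/-!
# BE BlkC: one block, one frequency, classes modulo `d`, powers of two

`N = d 2^i`.  `phase` (for `α q, β q' ≠ 0`, `q ≠ q'`).  Split `q, q'` into classes `u, v` modulo `d`
(`kf d (-(l a)) (q q')` depends only on them, `KF.kf_congr`, norm one) and split `q'` according to the unique `k` with
`N < 2^k q' ≤ 2N` (exists because `1 ≤ q' ≤ 2^{i+1} ≤ 2N`; `2^k ≤ 2N`, so `k ≤ Nat.log 2 (2N)`).  Then `blk_one`
with `α` restricted to `q ≡ u`, `β` to `q' ≡ v`, `q' ≤ 2^{i+1}`, `N < 2^k q' ≤ 2N`, for each `u, v < d` and `k`.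
-/

set_option autoImplicit false

namespace Pool.Agent.H80.BE

open Finset
open Pool.Agent.H80.KF (ee kf ww RW fej)

/-- one term without the phase modulo `d` -/
private noncomputable def BlkC_G (x d : ℕ) (l a a' : ℤ) (s t : ℝ) (q q' : ℕ) : ℂ :=
  ((s * t / ((d : ℝ) * q * q') *
          max 0 (1 - 2 * x * |(l : ℝ)| / ((d : ℝ) * q * q')) : ℝ) : ℂ) *
          (ee ((l : ℝ) * a' / ((d : ℝ) * q * q')) * kf (d * q) (-(l * (a' - a))) q')

private theorem BlkC_G_zero_left (x d : ℕ) (l a a' : ℤ) (t : ℝ) (q q' : ℕ) :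
    BlkC_G x d l a a' 0 t q q' = 0 := by
  unfold BlkC_G
  simp

private theorem BlkC_G_zero_right (x d : ℕ) (l a a' : ℤ) (s : ℝ) (q q' : ℕ) :
    BlkC_G x d l a a' s 0 q q' = 0 := by
  unfold BlkC_G
  simp

private theorem BlkC_exists_k (N q : ℕ) (h1 : 1 ≤ q) (h2 : q ≤ 2 * N) :
    ∃ k ∈ range (Nat.log 2 (2 * N) + 1), N < 2 ^ k * q ∧ 2 ^ k * q ≤ 2 * N := by
  have h3 : 2 * N / q ≠ 0 := by
    have : 0 < 2 * N / q := Nat.div_pos h2 h1
    omega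
  refine ⟨Nat.log 2 (2 * N / q), ?_, ?_, ?_⟩
  · rw [Finset.mem_range]
    have : Nat.log 2 (2 * N / q) ≤ Nat.log 2 (2 * N) := Nat.log_mono_right (Nat.div_le_self _ _)
    omega
  · have h4 : 2 * N / q < 2 ^ (Nat.log 2 (2 * N / q) + 1) :=
      Nat.lt_pow_succ_log_self (by norm_num) _
    rw [Nat.div_lt_iff_lt_mul (by omega)] at h4
    have h5 : 2 ^ (Nat.log 2 (2 * N / q) + 1) * q = 2 * (2 ^ (Nat.log 2 (2 * N / q)) * q) := by
      rw [pow_succ]; ring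
    omega
  · have h4 : 2 ^ (Nat.log 2 (2 * N / q)) ≤ 2 * N / q := Nat.pow_log_le_self 2 h3
    exact le_trans (Nat.mul_le_mul_right q h4) (Nat.div_mul_le_self _ _)

private theorem BlkC_unique_k (N q k k' : ℕ) (h1 : N < 2 ^ k * q) (h2 : 2 ^ k' * q ≤ 2 * N) :
    k' ≤ k := by
  by_contra hcon
  push Not at hcon
  have h3 : 2 ^ (k + 1) ≤ 2 ^ k' := Nat.pow_le_pow_right (by norm_num) hcon
  have h4 : 2 ^ (k + 1) * q ≤ 2 ^ k' * q := Nat.mul_le_mul_right q h3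
  have h5 : 2 ^ (k + 1) * q = 2 * (2 ^ k * q) := by rw [pow_succ]; ring
  omega

private theorem BlkC_phase (x d : ℕ) (hd : 1 ≤ d) (l a a' : ℤ) (α β : ℕ → ℝ)
    (hα : ∀ q, α q ≠ 0 → q.Prime ∧ Nat.Coprime d q ∧ 2 < q)
    (hβ : ∀ q, β q ≠ 0 → q.Prime ∧ Nat.Coprime d q ∧ 2 < q) (n0 : ℕ → ℕ → ℤ)
    (hn : ∀ q q' : ℕ, q.Prime → q'.Prime → q ≠ q' → Nat.Coprime d q → Nat.Coprime d q' →
      (d : ℤ) ∣ n0 q q' ∧ (q : ℤ) ∣ n0 q q' - a ∧ (q' : ℤ) ∣ n0 q q' - a') (q q' : ℕ)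
    (hne : q' ≠ q) :
    ((α q * β q' / ((d : ℝ) * q * q') *
          max 0 (1 - 2 * x * |(l : ℝ)| / ((d : ℝ) * q * q')) : ℝ) : ℂ) *
          ee ((l : ℝ) * n0 q q' / ((d : ℝ) * q * q')) =
      kf d (-(l * a)) ((q % d) * (q' % d)) * BlkC_G x d l a a' (α q) (β q') q q' := by
  by_cases h1 : α q = 0
  · rw [h1, BlkC_G_zero_left]
    simp
  by_cases h2 : β q' = 0
  · rw [h2, BlkC_G_zero_right]
    simp
  obtain ⟨p1, c1, g1⟩ := hα q h1
  obtain ⟨p2, c2, g2⟩ := hβ q' h2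
  obtain ⟨e0, e1, e2⟩ := hn q q' p1 p2 (Ne.symm hne) c1 c2
  have hc : Nat.Coprime q q' := (Nat.coprime_primes p1 p2).2 (Ne.symm hne)
  have hph := phase d q q' hd (by omega) (by omega) c1 c2 hc a a' (n0 q q') l e0 e1 e2
  have hk : kf d (-(l * a)) (q * q') = kf d (-(l * a)) ((q % d) * (q' % d)) := by
    apply Pool.Agent.H80.KF.kf_congr hd
    · simp
    · exact Nat.ModEq.mul (Nat.mod_modEq q d).symm (Nat.mod_modEq q' d).symm
  rw [hph, hk]
  unfold BlkC_G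
  ring

theorem blk_cls : ∃ N0 : ℕ, ∀ x d i N : ℕ, 1 ≤ x → 1 ≤ d → Odd d → N = d * 2 ^ i → N0 ≤ N →
    ∀ l a a' : ℤ, l ≠ 0 → a ≠ a' → |a| ≤ x → |a'| ≤ x → ∀ α β : ℕ → ℝ, (∀ q, |α q| ≤ 1) →
    (∀ q, |β q| ≤ 1) → (∀ q, α q ≠ 0 → q.Prime ∧ Nat.Coprime d q ∧ 2 < q) →
    (∀ q, β q ≠ 0 → q.Prime ∧ Nat.Coprime d q ∧ 2 < q) → ∀ n0 : ℕ → ℕ → ℤ,
    (∀ q q' : ℕ, q.Prime → q'.Prime → q ≠ q' → Nat.Coprime d q → Nat.Coprime d q' →
      (d : ℤ) ∣ n0 q q' ∧ (q : ℤ) ∣ n0 q q' - a ∧ (q' : ℤ) ∣ n0 q q' - a') →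
    ‖∑ q ∈ Ioc (2 ^ i) (2 ^ (i + 1)), ∑ q' ∈ (Icc 1 (2 ^ (i + 1))).filter (fun q' => q' ≠ q),
        ((α q * β q' / ((d : ℝ) * q * q') *
          max 0 (1 - 2 * x * |(l : ℝ)| / ((d : ℝ) * q * q')) : ℝ) : ℂ) *
          ee ((l : ℝ) * n0 q q' / ((d : ℝ) * q * q'))‖ ≤
      (d : ℝ) ^ 2 * ∑ k ∈ range (Nat.log 2 (2 * N) + 1),
        (if (x : ℤ) * |l| * 2 ^ k ≤ 2 * (N : ℤ) ^ 2 then
          (2 : ℝ) ^ k / (N : ℝ) ^ 2 * (N : ℝ) ^ ((2 : ℝ) - 1 / 50) else 0) := by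
  classical
  obtain ⟨N0, hN0⟩ := blk_one
  refine ⟨N0, ?_⟩
  intro x d i N hx hd hodd hN hNN l a a' hl haa ha ha' α β hα1 hβ1 hα hβ n0 hn
  have h2N : 2 ^ (i + 1) ≤ 2 * N := by
    rw [hN, pow_succ]
    have : 2 ^ i ≤ d * 2 ^ i := Nat.le_mul_of_pos_left _ (by omega)
    omega
  let T : Finset (ℕ × ℕ × ℕ) := range d ×ˢ (range d ×ˢ range (Nat.log 2 (2 * N) + 1))
  let A : ℕ → ℕ → ℝ := fun u q => if q % d = u then α q else 0
  let B : ℕ → ℕ → ℕ → ℝ := fun v k q' =>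
    if q' % d = v ∧ q' ≤ 2 ^ (i + 1) ∧ N < 2 ^ k * q' ∧ 2 ^ k * q' ≤ 2 * N then β q' else 0
  let S : ℕ × ℕ × ℕ → ℂ := fun t => ∑ q ∈ Ioc (2 ^ i) (2 ^ (i + 1)),
    ∑ q' ∈ (Icc 1 (2 * N)).filter (fun q' => q' ≠ q),
      BlkC_G x d l a a' (A t.1 q) (B t.2.1 t.2.2 q') q q'
  -- the identity
  have hid : (∑ q ∈ Ioc (2 ^ i) (2 ^ (i + 1)),
      ∑ q' ∈ (Icc 1 (2 ^ (i + 1))).filter (fun q' => q' ≠ q),
        ((α q * β q' / ((d : ℝ) * q * q') *
          max 0 (1 - 2 * x * |(l : ℝ)| / ((d : ℝ) * q * q')) : ℝ) : ℂ) *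
          ee ((l : ℝ) * n0 q q' / ((d : ℝ) * q * q'))) =
      ∑ t ∈ T, kf d (-(l * a)) (t.1 * t.2.1) * S t := by
    have e1 : ∑ t ∈ T, kf d (-(l * a)) (t.1 * t.2.1) * S t =
        ∑ q ∈ Ioc (2 ^ i) (2 ^ (i + 1)), ∑ q' ∈ (Icc 1 (2 * N)).filter (fun q' => q' ≠ q),
          ∑ t ∈ T, kf d (-(l * a)) (t.1 * t.2.1) *
            BlkC_G x d l a a' (A t.1 q) (B t.2.1 t.2.2 q') q q' := by
      simp only [S, Finset.mul_sum]
      rw [Finset.sum_comm]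
      refine Finset.sum_congr rfl fun q _ => ?_
      rw [Finset.sum_comm]
    rw [e1]
    refine Finset.sum_congr rfl fun q hq => ?_
    have hsub : (Icc 1 (2 ^ (i + 1))).filter (fun q' => q' ≠ q) ⊆
        (Icc 1 (2 * N)).filter (fun q' => q' ≠ q) := by
      intro q' hq'
      rw [Finset.mem_filter, Finset.mem_Icc] at hq' ⊢
      exact ⟨⟨hq'.1.1, le_trans hq'.1.2 h2N⟩, hq'.2⟩
    rw [← Finset.sum_subset hsub]
    · refine Finset.sum_congr rfl fun q' hq' => ?_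
      rw [Finset.mem_filter, Finset.mem_Icc] at hq'
      obtain ⟨⟨h1, h2⟩, h3⟩ := hq'
      obtain ⟨k0, hk0, hk1, hk2⟩ := BlkC_exists_k N q' h1 (le_trans h2 h2N)
      rw [BlkC_phase x d hd l a a' α β hα hβ n0 hn q q' h3]
      rw [Finset.sum_eq_single (q % d, q' % d, k0)]
      · simp only [A, B, if_true]
        rw [if_pos ⟨trivial, h2, hk1, hk2⟩]
      · rintro ⟨u, v, k⟩ _ hne
        by_cases hu : q % d = u
        · have hB : B v k q' = 0 := by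
            simp only [B]
            rw [if_neg]
            rintro ⟨hv, -, g1, g2⟩
            apply hne
            have g3 := BlkC_unique_k N q' k0 k hk1 g2
            have g4 := BlkC_unique_k N q' k k0 g1 hk2
            rw [hu, hv, le_antisymm g3 g4]
          simp only [hB]
          rw [BlkC_G_zero_right, mul_zero]
        · have hA : A u q = 0 := by
            simp only [A]
            rw [if_neg hu]
          simp only [hA]
          rw [BlkC_G_zero_left, mul_zero]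
      · intro hnot
        exfalso
        apply hnot
        simp only [T, Finset.mem_product]
        exact ⟨Finset.mem_range.2 (Nat.mod_lt _ (by omega)),
          Finset.mem_range.2 (Nat.mod_lt _ (by omega)), hk0⟩
    · intro q' hq' hnot
      rw [Finset.mem_filter, Finset.mem_Icc] at hq' hnot
      have hbig : ¬ q' ≤ 2 ^ (i + 1) := fun h => hnot ⟨⟨hq'.1.1, h⟩, hq'.2⟩
      refine Finset.sum_eq_zero fun t _ => ?_
      have hB : B t.2.1 t.2.2 q' = 0 := by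
        simp only [B]
        rw [if_neg]
        rintro ⟨-, g, -⟩
        exact hbig g
      rw [hB, BlkC_G_zero_right, mul_zero]
  have hS : ∀ t : ℕ × ℕ × ℕ, ‖S t‖ ≤ (if (x : ℤ) * |l| * 2 ^ t.2.2 ≤ 2 * (N : ℤ) ^ 2 then
      (2 : ℝ) ^ t.2.2 / (N : ℝ) ^ 2 * (N : ℝ) ^ ((2 : ℝ) - 1 / 50) else 0) := by
    rintro ⟨u, v, k⟩
    have := hN0 x d i k N hx hd hodd hN hNN l a a' hl haa ha ha' (A u) (B v k)
      (fun q => by
        simp only [A]
        split_ifs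
        · exact hα1 q
        · simp)
      (fun q => by
        simp only [B]
        split_ifs
        · exact hβ1 q
        · simp)
      (fun q hq => by
        apply hα
        intro h0
        apply hq
        simp only [A]
        rw [h0]
        simp)
      (fun q hq => by
        by_cases hc : q % d = v ∧ q ≤ 2 ^ (i + 1) ∧ N < 2 ^ k * q ∧ 2 ^ k * q ≤ 2 * N
        · have h1 : β q ≠ 0 := by
            intro h0
            apply hq
            simp only [B]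
            rw [h0]
            simp
          exact ⟨(hβ q h1).1, (hβ q h1).2.1, (hβ q h1).2.2, hc.2.2.1, hc.2.2.2⟩
        · exfalso
          apply hq
          simp only [B]
          rw [if_neg hc])
    exact this
  rw [hid]
  calc ‖∑ t ∈ T, kf d (-(l * a)) (t.1 * t.2.1) * S t‖
      ≤ ∑ t ∈ T, ‖kf d (-(l * a)) (t.1 * t.2.1) * S t‖ := norm_sum_le _ _
    _ ≤ ∑ t ∈ T, (if (x : ℤ) * |l| * 2 ^ t.2.2 ≤ 2 * (N : ℤ) ^ 2 then
      (2 : ℝ) ^ t.2.2 / (N : ℝ) ^ 2 * (N : ℝ) ^ ((2 : ℝ) - 1 / 50) else 0) := by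
        refine Finset.sum_le_sum fun t _ => ?_
        rw [norm_mul, Pool.Agent.H80.KF.norm_kf, one_mul]
        exact hS t
    _ = (d : ℝ) ^ 2 * ∑ k ∈ range (Nat.log 2 (2 * N) + 1),
        (if (x : ℤ) * |l| * 2 ^ k ≤ 2 * (N : ℤ) ^ 2 then
          (2 : ℝ) ^ k / (N : ℝ) ^ 2 * (N : ℝ) ^ ((2 : ℝ) - 1 / 50) else 0) := by
        simp only [T]
        rw [Finset.sum_product]
        simp only [Finset.sum_product, Finset.sum_const, Finset.card_range, nsmul_eq_mul]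
        ring

end Pool.Agent.H80.BE
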