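import Pool.Agent.H80.KF.Defs

/-!
# Project BE: a Bessel inequality beyond `x^{1/2}` for prime moduli

See `h80_BE_README.txt`.
-/

set_option autoImplicit false

namespace Pool.Agent.H80.BE

open Finset
open Pool.Agent.H80.KF (ee kf ww RW fej)

/-- sieve weights `ρ` of level `D`, supported on odd numbers -/
def SW (D : ℕ) (ρ : ℕ → ℝ) : Prop :=
  ρ 1 = 1 ∧ (∀ d, |ρ d| ≤ 1) ∧ ∀ d, ρ d ≠ 0 → 1 ≤ d ∧ d ≤ D ∧ Odd d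

/-- the sieve majorant `(∑_{d ∣ n} ρ_d)²` -/
noncomputable def lam (D : ℕ) (ρ : ℕ → ℝ) (n : ℤ) : ℝ :=
  (∑ d ∈ (Icc 1 D).filter (fun d : ℕ => (d : ℤ) ∣ n), ρ d) ^ 2

/-- `∑ ρ_d ρ_e / lcm(d,e)` -/
noncomputable def GG (D : ℕ) (ρ : ℕ → ℝ) : ℝ :=
  ∑ d ∈ Icc 1 D, ∑ e ∈ Icc 1 D, ρ d * ρ e / ((Nat.lcm d e : ℕ) : ℝ)

/-- the linear form of one residue `a` -/
noncomputable def TT (P : Finset ℕ) (c : ℕ → ℝ) (a n : ℤ) : ℝ :=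
  ∑ q ∈ P, c q * ((if (q : ℤ) ∣ n - a then (1 : ℝ) else 0) - 1 / ((q : ℝ) - 1))

/-- `#{p ≤ x prime : p ≡ a mod q} - π(x)/(q-1)` -/
noncomputable def EE (x q : ℕ) (a : ℤ) : ℝ :=
  (((Icc 1 x).filter (fun p : ℕ => p.Prime ∧ (q : ℤ) ∣ (p : ℤ) - a)).card : ℝ) -
    (Nat.primeCounting x : ℝ) / ((q : ℝ) - 1)

/-- a set of primes in `(Y, Z]` -/
def PS (Y Z : ℕ) (P : Finset ℕ) : Prop := ∀ q ∈ P, q.Prime ∧ Y < q ∧ q ≤ Z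

open Classical in
/-- a solution of `n ≡ 0 (d)`, `n ≡ a (q)`, `n ≡ a' (q')` -/
noncomputable def nz (d q q' : ℕ) (a a' : ℤ) : ℤ :=
  if h : ∃ n : ℤ, (d : ℤ) ∣ n ∧ (q : ℤ) ∣ n - a ∧ (q' : ℤ) ∣ n - a' then h.choose else 0

end Pool.Agent.H80.BE
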