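import Pool.Agent.H80.BE.DgA

/-!
# BE Dg: one residue

`S = ∑_{q ∈ P} |c q|/q`, `μ = ∑_{q ∈ P} 1/(q-1) ≤ 2`.
`TT² ≤ 2 (∑_{q ∣ n-a} |c q|)² + 2 (∑ |c q|/(q-1))²`.
* second part: `(∑ |c q|/(q-1))² ≤ 2 ∑ |c q|/(q-1) ≤ 4 S` (`1/(q-1) ≤ 2/q`), `ex_zero`, `π²/2 ≤ 5`: total `≤ 40 x GG S`.
* first part: for `n ≠ a`, `|n| ≤ 2^{j+1} x` the number of `q ∈ P` dividing `n - a`, `|n - a| ≤ 2^{j+2} x ≤ 2^{j+2} (Y+1)³`, is
  at most `j + 5` (`omega_le`; the product of `w` of them divides `n - a` and is `≥ (Y+1)^w`, `Y + 1 ≥ 2`), so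
  `(∑_{q ∣ n-a} |c q|)² ≤ (j+5) ∑_{q ∣ n-a} |c q|`.  Shells: `|n| ≤ 2x`: `ww ≤ 3` (`KF.ww_le`);
  `2^j x < |n| ≤ 2^{j+1} x`: `ww ≤ 3x²/n² ≤ 3 · 4^{-j}` (`KF.ww_decay`).  `shell`: with `X = 2^{j+1} x`,
  `∑_{|n| ≤ X} lam 1_{q ∣ n-a} ≤ ∑_{n ∈ RW X (2J)} ww X (2J) n lam 1_{q ∣ n-a} = (π² X/(2q)) GG` (`KF.ww_ge_one`,
  `KF.ww_nonneg`, `ex_one`).  Sum over `j`: `2 ∑_j 3 · 4^{-j} (j+5) π² 2^j x GG S ≤ 72 π² x GG S ≤ 720 x GG S`
  (`∑_j (j+5) 2^{-j} ≤ 12`, finitely many `j`: `2^j x ≤ x J`).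
-/

set_option autoImplicit false

namespace Pool.Agent.H80.BE

open Finset
open Pool.Agent.H80.KF (ee kf ww RW fej)

private lemma Dg_level (x J : ℕ) (hx : 1 ≤ x) (hJ : 1 ≤ J) (n : ℤ) (hn : |n| ≤ (x : ℤ) * J) :
    ∃ j ∈ range J, |n| ≤ 2 ^ (j + 1) * (x : ℤ) ∧ ww x J n ≤ 3 / 4 ^ j := by
  classical
  have hx0 : (0 : ℤ) < x := by exact_mod_cast hx
  have h1 : |n| ≤ 2 ^ ((J - 1) + 1) * (x : ℤ) := by
    have h2 : (J : ℤ) ≤ 2 ^ ((J - 1) + 1) := by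
      have h3 : J < 2 ^ J := Nat.lt_two_pow_self
      have h4 : (J - 1) + 1 = J := by omega
      rw [h4]
      exact_mod_cast h3.le
    calc |n| ≤ (x : ℤ) * J := hn
      _ ≤ (x : ℤ) * 2 ^ ((J - 1) + 1) := mul_le_mul_of_nonneg_left h2 hx0.le
      _ = 2 ^ ((J - 1) + 1) * (x : ℤ) := mul_comm _ _
  have hex : ∃ j : ℕ, |n| ≤ 2 ^ (j + 1) * (x : ℤ) := ⟨_, h1⟩
  have hlt : Nat.find hex < J := by
    have := Nat.find_min' hex h1
    omega
  refine ⟨Nat.find hex, mem_range.2 hlt, Nat.find_spec hex, ?_⟩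
  rcases hk : Nat.find hex with _ | k
  · simpa using Pool.Agent.H80.KF.ww_le x J hx hJ n
  · have h2 : ¬ |n| ≤ 2 ^ (k + 1) * (x : ℤ) := Nat.find_min hex (by omega)
    have h3 : (2 : ℝ) ^ (k + 1) * (x : ℝ) < |(n : ℝ)| := by
      have : (2 : ℤ) ^ (k + 1) * (x : ℤ) < |n| := not_le.1 h2
      exact_mod_cast this
    have hxR : (0 : ℝ) < x := by exact_mod_cast hx
    have h4 : (4 : ℝ) ^ (k + 1) * (x : ℝ) ^ 2 ≤ (n : ℝ) ^ 2 := by
      have h5 := pow_le_pow_left₀ (by positivity) h3.le 2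
      rw [sq_abs, mul_pow, ← pow_mul, mul_comm (k + 1) 2, pow_mul] at h5
      norm_num at h5 ⊢
      exact h5
    have h5 := Pool.Agent.H80.KF.ww_decay x J hx hJ n hn
    have h6 := mul_le_mul_of_nonneg_left h4 (Pool.Agent.H80.KF.ww_nonneg x J n)
    rw [le_div_iff₀ (by positivity)]
    have h7 : ww x J n * 4 ^ (k + 1) * (x : ℝ) ^ 2 ≤ 3 * (x : ℝ) ^ 2 := by linarith
    exact le_of_mul_le_mul_right h7 (by positivity)

private lemma Dg_series (J : ℕ) : ∑ j ∈ range J, ((j : ℝ) + 5) / 2 ^ j ≤ 12 := by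
  have h : ∑ j ∈ range J, ((j : ℝ) + 5) / 2 ^ j = 12 - (2 * (J : ℝ) + 12) / 2 ^ J := by
    induction J with
    | zero => simp
    | succ J ih =>
      rw [sum_range_succ, ih, pow_succ]
      push_cast
      field_simp
      ring
  rw [h]
  have : 0 ≤ (2 * (J : ℝ) + 12) / 2 ^ J := by positivity
  linarith

private lemma Dg_pi : Real.pi ^ 2 ≤ 10 := by
  have h := Real.pi_lt_d2
  have h0 := Real.pi_pos
  nlinarith

private lemma Dg_tt (Y Z : ℕ) (hY : 2 ≤ Y) (P : Finset ℕ) (hP : PS Y Z P) (c : ℕ → ℝ) (a n : ℤ) :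
    TT P c a n ^ 2 ≤ 2 * (∑ q ∈ P, |c q| * (if (q : ℤ) ∣ n - a then (1 : ℝ) else 0)) ^ 2 +
      2 * (∑ q ∈ P, |c q| * (1 / ((q : ℝ) - 1))) ^ 2 := by
  have h1 : |TT P c a n| ≤ (∑ q ∈ P, |c q| * (if (q : ℤ) ∣ n - a then (1 : ℝ) else 0)) +
      ∑ q ∈ P, |c q| * (1 / ((q : ℝ) - 1)) := by
    rw [← sum_add_distrib]
    unfold TT
    refine (abs_sum_le_sum_abs _ _).trans (sum_le_sum fun q hq => ?_)
    have hq1 := (hP q hq).2.1
    have hq2 : (1 : ℝ) < q := by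
      have : 1 < q := by omega
      exact_mod_cast this
    rw [abs_mul, ← mul_add]
    apply mul_le_mul_of_nonneg_left _ (abs_nonneg _)
    have h2 : (0 : ℝ) ≤ 1 / ((q : ℝ) - 1) := by
      apply div_nonneg zero_le_one
      linarith
    refine (abs_sub _ _).trans ?_
    rw [abs_of_nonneg h2]
    apply add_le_add _ le_rfl
    split_ifs
    · rw [abs_one]
    · rw [abs_zero]
  have h2 := pow_le_pow_left₀ (abs_nonneg _) h1 2
  rw [sq_abs] at h2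
  have h3 := sq_nonneg ((∑ q ∈ P, |c q| * (if (q : ℤ) ∣ n - a then (1 : ℝ) else 0)) -
      ∑ q ∈ P, |c q| * (1 / ((q : ℝ) - 1)))
  nlinarith

private lemma Dg_A (Y Z x j : ℕ) (hY : 2 ≤ Y) (hxY : x ≤ (Y + 1) ^ 3) (P : Finset ℕ) (hP : PS Y Z P)
    (c : ℕ → ℝ) (hc : ∀ q, |c q| ≤ 1) (a n : ℤ) (ha : |a| ≤ x) (hna : n ≠ a)
    (hn : |n| ≤ 2 ^ (j + 1) * (x : ℤ)) :
    (∑ q ∈ P, |c q| * (if (q : ℤ) ∣ n - a then (1 : ℝ) else 0)) ^ 2 ≤
      ((j : ℝ) + 5) * ∑ q ∈ P, |c q| * (if (q : ℤ) ∣ n - a then (1 : ℝ) else 0) := by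
  have h0 : n - a ≠ 0 := sub_ne_zero.2 hna
  have hx0 : (0 : ℤ) ≤ x := Int.natCast_nonneg x
  have h1 : |n - a| ≤ 2 ^ (j + 2) * (x : ℤ) := by
    have h2 : |n - a| ≤ |n| + |a| := abs_sub n a
    have h3 : (x : ℤ) ≤ 2 ^ (j + 1) * x := by
      have : (1 : ℤ) ≤ 2 ^ (j + 1) := one_le_pow₀ (by norm_num)
      nlinarith
    have h4 : (2 : ℤ) ^ (j + 2) * x = 2 ^ (j + 1) * x + 2 ^ (j + 1) * x := by ring
    rw [h4]
    linarith
  have h2 := omega_le x Y Z j hY hxY P hP (n - a) h0 h1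
  have h3 : (∑ q ∈ P, |c q| * (if (q : ℤ) ∣ n - a then (1 : ℝ) else 0)) ≤ (j : ℝ) + 5 := by
    calc (∑ q ∈ P, |c q| * (if (q : ℤ) ∣ n - a then (1 : ℝ) else 0))
        ≤ ∑ q ∈ P, (if (q : ℤ) ∣ n - a then (1 : ℝ) else 0) := by
          apply sum_le_sum
          intro q _
          split_ifs
          · rw [mul_one]
            exact hc q
          · rw [mul_zero]
      _ = ((P.filter (fun q : ℕ => (q : ℤ) ∣ n - a)).card : ℝ) := by
          rw [← sum_filter, sum_const, nsmul_eq_mul, mul_one]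
      _ ≤ ((j + 5 : ℕ) : ℝ) := by exact_mod_cast h2
      _ = (j : ℝ) + 5 := by push_cast; ring
  have h4 : 0 ≤ ∑ q ∈ P, |c q| * (if (q : ℤ) ∣ n - a then (1 : ℝ) else 0) := by
    apply sum_nonneg
    intro q _
    apply mul_nonneg (abs_nonneg _)
    split_ifs
    · exact zero_le_one
    · exact le_rfl
  rw [sq]
  exact mul_le_mul_of_nonneg_right h3 h4

theorem diag (x J D Y Z : ℕ) (ρ : ℕ → ℝ) (hx : 2 ≤ x) (hJ : 1 ≤ J) (hD : 1 ≤ D) (hDY : D ≤ Y)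
    (hY : 2 ≤ Y) (hxY : x ≤ (Y + 1) ^ 3) (hYZ : Y ≤ Z) (hZ : Z * D ^ 2 ≤ 2 * x)
    (hdiv : ∀ k : ℕ, 1 ≤ k → k ≤ Z * D ^ 2 → k ∣ 2 * x * J) (hρ : SW D ρ) (hG : 0 ≤ GG D ρ)
    (P : Finset ℕ) (hP : PS Y Z P) (hμ : ∑ q ∈ P, 1 / ((q : ℝ) - 1) ≤ 2) (a : ℤ) (ha : |a| ≤ x)
    (c : ℕ → ℝ) (hc : ∀ q, |c q| ≤ 1) :
    ∑ n ∈ (RW x J).filter (fun n => n ≠ a), ww x J n * lam D ρ n * TT P c a n ^ 2 ≤
      1000 * x * GG D ρ * ∑ q ∈ P, |c q| / q := by
  classical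
  have hx1 : 1 ≤ x := by omega
  have hxR : (0 : ℝ) < x := by exact_mod_cast hx1
  have hpi := Dg_pi
  set S : ℝ := ∑ q ∈ P, |c q| / q with hS
  have hS0 : 0 ≤ S := sum_nonneg fun q _ => div_nonneg (abs_nonneg _) (Nat.cast_nonneg _)
  set A : ℤ → ℝ := fun n => ∑ q ∈ P, |c q| * (if (q : ℤ) ∣ n - a then (1 : ℝ) else 0) with hA
  set B : ℝ := ∑ q ∈ P, |c q| * (1 / ((q : ℝ) - 1)) with hB
  have hw : ∀ n, 0 ≤ ww x J n := fun n => Pool.Agent.H80.KF.ww_nonneg x J n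
  have hl : ∀ n, 0 ≤ lam D ρ n := fun n => lam_nonneg D ρ n
  have hA0 : ∀ n, 0 ≤ A n := by
    intro n
    apply sum_nonneg
    intro q _
    apply mul_nonneg (abs_nonneg _)
    split_ifs
    · exact zero_le_one
    · exact le_rfl
  have hq2 : ∀ q ∈ P, (2 : ℝ) < q := by
    intro q hq
    have := (hP q hq).2.1
    have h2 : 2 < q := by omega
    exact_mod_cast h2
  have hB0 : 0 ≤ B := by
    apply sum_nonneg
    intro q hq
    have := hq2 q hq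
    exact mul_nonneg (abs_nonneg _) (div_nonneg zero_le_one (by linarith))
  -- the second part
  have hBS : B ≤ 2 * S := by
    rw [hB, hS, mul_sum]
    apply sum_le_sum
    intro q hq
    have h1 := hq2 q hq
    have h2 : 1 / ((q : ℝ) - 1) ≤ 2 / q := by
      rw [div_le_div_iff₀ (by linarith) (by linarith)]
      linarith
    calc |c q| * (1 / ((q : ℝ) - 1)) ≤ |c q| * (2 / q) := mul_le_mul_of_nonneg_left h2 (abs_nonneg _)
      _ = 2 * (|c q| / q) := by ring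
  have hB2 : B ≤ 2 := by
    refine le_trans ?_ hμ
    apply sum_le_sum
    intro q hq
    have h1 := hq2 q hq
    have h2 : (0 : ℝ) ≤ 1 / ((q : ℝ) - 1) := div_nonneg zero_le_one (by linarith)
    calc |c q| * (1 / ((q : ℝ) - 1)) ≤ 1 * (1 / ((q : ℝ) - 1)) := mul_le_mul_of_nonneg_right (hc q) h2
      _ = 1 / ((q : ℝ) - 1) := one_mul _
  have hBsq : B ^ 2 ≤ 4 * S := by nlinarith
  have hD2 : D ^ 2 ≤ Z * D ^ 2 := Nat.le_mul_of_pos_left _ (by omega)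
  have hz := ex_zero x J D ρ hx1 hJ hD (fun k h1 h2 => hdiv k h1 (h2.trans hD2)) (hD2.trans hZ)
  have hpart2 : ∑ n ∈ (RW x J).filter (fun n => n ≠ a), ww x J n * lam D ρ n * (2 * B ^ 2) ≤
      40 * x * GG D ρ * S := by
    rw [← sum_mul]
    have h1 : ∑ n ∈ (RW x J).filter (fun n => n ≠ a), ww x J n * lam D ρ n ≤
        ∑ n ∈ RW x J, ww x J n * lam D ρ n :=
      sum_le_sum_of_subset_of_nonneg (filter_subset _ _) fun n _ _ => mul_nonneg (hw n) (hl n)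
    rw [hz] at h1
    have h2 : Real.pi ^ 2 * x / 2 * GG D ρ ≤ 5 * x * GG D ρ := by
      apply mul_le_mul_of_nonneg_right _ hG
      nlinarith
    calc (∑ n ∈ (RW x J).filter (fun n => n ≠ a), ww x J n * lam D ρ n) * (2 * B ^ 2)
        ≤ (5 * x * GG D ρ) * (2 * (4 * S)) := by
          apply mul_le_mul (h1.trans h2) (by linarith) (by positivity) (by positivity)
      _ = 40 * x * GG D ρ * S := by ring
  -- the first part
  have hpt : ∀ n ∈ (RW x J).filter (fun n => n ≠ a), ww x J n * lam D ρ n * A n ^ 2 ≤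
      ∑ j ∈ range J, (if |n| ≤ 2 ^ (j + 1) * (x : ℤ) then
        3 / 4 ^ j * ((j : ℝ) + 5) * (lam D ρ n * A n) else 0) := by
    intro n hn
    rw [mem_filter] at hn
    obtain ⟨hn1, hna⟩ := hn
    have hn2 : |n| ≤ (x : ℤ) * J := by
      rw [RW, mem_Ico] at hn1
      rw [abs_le]
      exact ⟨hn1.1, hn1.2.le⟩
    obtain ⟨j, hj, h1, h2⟩ := Dg_level x J hx1 hJ n hn2
    have h3 := Dg_A Y Z x j hY hxY P hP c hc a n ha hna h1
    have h4 : ww x J n * lam D ρ n * A n ^ 2 ≤ 3 / 4 ^ j * ((j : ℝ) + 5) * (lam D ρ n * A n) := by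
      calc ww x J n * lam D ρ n * A n ^ 2 ≤ ww x J n * lam D ρ n * (((j : ℝ) + 5) * A n) :=
            mul_le_mul_of_nonneg_left h3 (mul_nonneg (hw n) (hl n))
        _ = ww x J n * (((j : ℝ) + 5) * (lam D ρ n * A n)) := by ring
        _ ≤ 3 / 4 ^ j * (((j : ℝ) + 5) * (lam D ρ n * A n)) := by
            apply mul_le_mul_of_nonneg_right h2
            exact mul_nonneg (by positivity) (mul_nonneg (hl n) (hA0 n))
        _ = 3 / 4 ^ j * ((j : ℝ) + 5) * (lam D ρ n * A n) := by ring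
    refine h4.trans ?_
    have h5 := single_le_sum (f := fun j : ℕ => if |n| ≤ 2 ^ (j + 1) * (x : ℤ) then
        3 / 4 ^ j * ((j : ℝ) + 5) * (lam D ρ n * A n) else 0) (s := range J) (fun i _ => by
          split_ifs
          · exact mul_nonneg (by positivity) (mul_nonneg (hl n) (hA0 n))
          · exact le_rfl) hj
    rwa [if_pos h1] at h5
  have hsh : ∀ j : ℕ, ∑ n ∈ (RW x J).filter (fun n => n ≠ a), (if |n| ≤ 2 ^ (j + 1) * (x : ℤ) then
        3 / 4 ^ j * ((j : ℝ) + 5) * (lam D ρ n * A n) else 0) ≤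
      30 * x * GG D ρ * S * (((j : ℝ) + 5) / 2 ^ j) := by
    intro j
    have h1 : ∑ n ∈ (RW x J).filter (fun n => n ≠ a), (if |n| ≤ 2 ^ (j + 1) * (x : ℤ) then
        3 / 4 ^ j * ((j : ℝ) + 5) * (lam D ρ n * A n) else 0) ≤
        ∑ n ∈ Icc (-((2 ^ (j + 1) * x : ℕ) : ℤ)) ((2 ^ (j + 1) * x : ℕ) : ℤ),
          3 / 4 ^ j * ((j : ℝ) + 5) * (lam D ρ n * A n) := by
      rw [← sum_filter]
      apply sum_le_sum_of_subset_of_nonneg
      · intro n hn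
        rw [mem_filter] at hn
        rw [mem_Icc]
        have h2 := abs_le.1 hn.2
        push_cast
        exact h2
      · intro n _ _
        exact mul_nonneg (by positivity) (mul_nonneg (hl n) (hA0 n))
    refine h1.trans ?_
    rw [← mul_sum]
    have h2 : ∑ n ∈ Icc (-((2 ^ (j + 1) * x : ℕ) : ℤ)) ((2 ^ (j + 1) * x : ℕ) : ℤ), lam D ρ n * A n =
        ∑ q ∈ P, |c q| * ∑ n ∈ Icc (-((2 ^ (j + 1) * x : ℕ) : ℤ)) ((2 ^ (j + 1) * x : ℕ) : ℤ),
          lam D ρ n * (if (q : ℤ) ∣ n - a then (1 : ℝ) else 0) := by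
      simp only [hA, mul_sum]
      rw [sum_comm]
      apply sum_congr rfl
      intro q _
      apply sum_congr rfl
      intro n _
      ring
    have h3 : ∑ n ∈ Icc (-((2 ^ (j + 1) * x : ℕ) : ℤ)) ((2 ^ (j + 1) * x : ℕ) : ℤ), lam D ρ n * A n ≤
        10 * 2 ^ j * x * GG D ρ * S := by
      rw [h2, hS, mul_sum]
      apply sum_le_sum
      intro q hq
      obtain ⟨hqp, hqY, hqZ⟩ := hP q hq
      have hqD2 : q * D ^ 2 ≤ Z * D ^ 2 := Nat.mul_le_mul_right _ hqZ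
      have h4 := shell x J D q j ρ hx1 hJ hD hqp (by omega) (fun k h5 h6 => hdiv k h5 (h6.trans hqD2))
        (hqD2.trans hZ) a
      have hq0 : (0 : ℝ) < q := by
        have := hq2 q hq
        linarith
      have h5 : Real.pi ^ 2 * (2 ^ (j + 1) * x) / (2 * q) * GG D ρ ≤ 10 * 2 ^ j * x / q * GG D ρ := by
        apply mul_le_mul_of_nonneg_right _ hG
        rw [div_le_div_iff₀ (by positivity) hq0]
        have h6 : Real.pi ^ 2 * (2 ^ (j + 1) * x) * q ≤ 10 * (2 ^ (j + 1) * x) * q := by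
          apply mul_le_mul_of_nonneg_right _ hq0.le
          exact mul_le_mul_of_nonneg_right hpi (by positivity)
        refine h6.trans (le_of_eq ?_)
        ring
      calc |c q| * ∑ n ∈ Icc (-((2 ^ (j + 1) * x : ℕ) : ℤ)) ((2 ^ (j + 1) * x : ℕ) : ℤ),
            lam D ρ n * (if (q : ℤ) ∣ n - a then (1 : ℝ) else 0)
          ≤ |c q| * (10 * 2 ^ j * x / q * GG D ρ) :=
            mul_le_mul_of_nonneg_left (h4.trans h5) (abs_nonneg _)
        _ = 10 * 2 ^ j * x * GG D ρ * (|c q| / q) := by ring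
    calc 3 / 4 ^ j * ((j : ℝ) + 5) *
          ∑ n ∈ Icc (-((2 ^ (j + 1) * x : ℕ) : ℤ)) ((2 ^ (j + 1) * x : ℕ) : ℤ), lam D ρ n * A n
        ≤ 3 / 4 ^ j * ((j : ℝ) + 5) * (10 * 2 ^ j * x * GG D ρ * S) :=
          mul_le_mul_of_nonneg_left h3 (by positivity)
      _ = 30 * x * GG D ρ * S * (((j : ℝ) + 5) / 2 ^ j) := by
          have h4 : (4 : ℝ) ^ j = 2 ^ j * 2 ^ j := by
            rw [← mul_pow]
            norm_num
          rw [h4]
          field_simp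
          ring
  have hpart1 : ∑ n ∈ (RW x J).filter (fun n => n ≠ a), ww x J n * lam D ρ n * (2 * A n ^ 2) ≤
      720 * x * GG D ρ * S := by
    have h1 : ∑ n ∈ (RW x J).filter (fun n => n ≠ a), ww x J n * lam D ρ n * A n ^ 2 ≤
        360 * x * GG D ρ * S := by
      refine (sum_le_sum hpt).trans ?_
      rw [sum_comm]
      refine (sum_le_sum fun j _ => hsh j).trans ?_
      rw [← mul_sum]
      have h2 := mul_le_mul_of_nonneg_left (Dg_series J)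
        (by positivity : (0 : ℝ) ≤ 30 * x * GG D ρ * S)
      refine h2.trans (le_of_eq ?_)
      ring
    have h2 : ∑ n ∈ (RW x J).filter (fun n => n ≠ a), ww x J n * lam D ρ n * (2 * A n ^ 2) =
        2 * ∑ n ∈ (RW x J).filter (fun n => n ≠ a), ww x J n * lam D ρ n * A n ^ 2 := by
      rw [mul_sum]
      apply sum_congr rfl
      intro n _
      ring
    rw [h2]
    linarith
  calc ∑ n ∈ (RW x J).filter (fun n => n ≠ a), ww x J n * lam D ρ n * TT P c a n ^ 2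
      ≤ ∑ n ∈ (RW x J).filter (fun n => n ≠ a), (ww x J n * lam D ρ n * (2 * A n ^ 2) +
          ww x J n * lam D ρ n * (2 * B ^ 2)) := by
        apply sum_le_sum
        intro n _
        rw [← mul_add]
        exact mul_le_mul_of_nonneg_left (Dg_tt Y Z hY P hP c a n) (mul_nonneg (hw n) (hl n))
    _ ≤ 720 * x * GG D ρ * S + 40 * x * GG D ρ * S := by
        rw [sum_add_distrib]
        exact add_le_add hpart1 hpart2
    _ ≤ 1000 * x * GG D ρ * S := by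
        have : 0 ≤ (x : ℝ) * GG D ρ * S := by positivity
        nlinarith

end Pool.Agent.H80.BE
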