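import Pool.Agent.H80.BE.Ex1
import Pool.Agent.H80.KF.FejA

/-!
# BE DgA: number of large prime divisors; one shell

* `omega_le`: the product of the `w` primes of `P` dividing `h ≠ 0` divides `h` and is `≥ (Y+1)^w`;
  `(Y+1)^w ≤ |h| ≤ 2^{j+2} (Y+1)³` and `Y + 1 ≥ 2` give `w ≤ j + 5`.
* `shell`: `X = 2^{j+1} x`; `∑_{|n| ≤ X} lam 1_{q ∣ n-a} ≤ ∑_{n ∈ RW X (2J)} ww X (2J) n lam 1_{q ∣ n-a} = (π² X/(2q)) GG`
  (`KF.ww_ge_one`, `KF.ww_nonneg`, `lam_nonneg`, `ex_one` for `X`, `2J`, `m = q`; `X < X · 2J`).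
-/

set_option autoImplicit false

namespace Pool.Agent.H80.BE

open Finset
open Pool.Agent.H80.KF (ee kf ww RW fej)

/-- few large primes divide a number -/
theorem omega_le (x Y Z j : ℕ) (hY : 2 ≤ Y) (hxY : x ≤ (Y + 1) ^ 3) (P : Finset ℕ) (hP : PS Y Z P)
    (h : ℤ) (h0 : h ≠ 0) (hh : |h| ≤ 2 ^ (j + 2) * (x : ℤ)) :
    (P.filter (fun q : ℕ => (q : ℤ) ∣ h)).card ≤ j + 5 := by
  classical
  set T := P.filter (fun q : ℕ => (q : ℤ) ∣ h) with hT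
  by_contra hcon
  have hw : j + 6 ≤ T.card := by omega
  have hprod : ∏ q ∈ T, q ∣ h.natAbs := by
    apply Finset.prod_primes_dvd
    · intro q hq
      exact (hP q (mem_filter.1 hq).1).1.prime
    · intro q hq
      exact Int.natCast_dvd.1 (mem_filter.1 hq).2
  have hlow : (Y + 1) ^ T.card ≤ ∏ q ∈ T, q := by
    rw [← Finset.prod_const]
    exact Finset.prod_le_prod (fun _ _ => Nat.zero_le _)
      (fun q hq => (hP q (mem_filter.1 hq).1).2.1)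
  have hpos : 0 < h.natAbs := Int.natAbs_pos.2 h0
  have h1 : (Y + 1) ^ T.card ≤ h.natAbs := hlow.trans (Nat.le_of_dvd hpos hprod)
  have h2 : h.natAbs ≤ 2 ^ (j + 2) * x := by
    have : ((h.natAbs : ℕ) : ℤ) ≤ 2 ^ (j + 2) * (x : ℤ) := by
      rw [Int.natCast_natAbs]; exact hh
    exact_mod_cast this
  have h3 : 2 ^ (j + 2) * x ≤ 2 ^ (j + 2) * (Y + 1) ^ 3 := Nat.mul_le_mul_left _ hxY
  have h4 : (Y + 1) ^ (j + 6) ≤ (Y + 1) ^ T.card := Nat.pow_le_pow_right (by omega) hw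
  have h5 : 2 ^ (j + 3) * (Y + 1) ^ 3 ≤ (Y + 1) ^ (j + 6) := by
    have : (Y + 1) ^ (j + 6) = (Y + 1) ^ (j + 3) * (Y + 1) ^ 3 := by rw [← pow_add]
    rw [this]
    exact Nat.mul_le_mul_right _ (Nat.pow_le_pow_left (by omega) _)
  have h6 : 2 ^ (j + 3) * (Y + 1) ^ 3 = 2 * (2 ^ (j + 2) * (Y + 1) ^ 3) := by
    rw [show j + 3 = (j + 2) + 1 by omega, pow_succ]; ring
  have h7 : 0 < 2 ^ (j + 2) * (Y + 1) ^ 3 := by positivity
  omega

theorem shell (x J D q j : ℕ) (ρ : ℕ → ℝ) (hx : 1 ≤ x) (hJ : 1 ≤ J) (hD : 1 ≤ D) (hq : q.Prime)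
    (hqD : D < q) (hdiv : ∀ k : ℕ, 1 ≤ k → k ≤ q * D ^ 2 → k ∣ 2 * x * J) (h : q * D ^ 2 ≤ 2 * x)
    (a : ℤ) :
    ∑ n ∈ Icc (-((2 ^ (j + 1) * x : ℕ) : ℤ)) ((2 ^ (j + 1) * x : ℕ) : ℤ),
        lam D ρ n * (if (q : ℤ) ∣ n - a then (1 : ℝ) else 0) ≤
      Real.pi ^ 2 * (2 ^ (j + 1) * x) / (2 * q) * GG D ρ := by
  have hX : 1 ≤ 2 ^ (j + 1) * x := Nat.one_le_iff_ne_zero.2 (by positivity)
  set X : ℕ := 2 ^ (j + 1) * x with hXdef
  have hxX : x ≤ X := by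
    rw [hXdef]
    calc x = 1 * x := (one_mul x).symm
      _ ≤ 2 ^ (j + 1) * x := Nat.mul_le_mul_right _ Nat.one_le_two_pow
  have hJ2 : 1 ≤ 2 * J := by omega
  have hdiv' : ∀ k : ℕ, 1 ≤ k → k ≤ q * D ^ 2 → k ∣ 2 * X * (2 * J) := by
    intro k hk1 hk2
    obtain ⟨w, hw⟩ := hdiv k hk1 hk2
    refine ⟨w * (2 ^ (j + 1) * 2), ?_⟩
    have : 2 * X * (2 * J) = (2 * x * J) * (2 ^ (j + 1) * 2) := by rw [hXdef]; ring
    rw [this, hw]; ring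
  have h' : q * D ^ 2 ≤ 2 * X := h.trans (by omega)
  have hcop : ∀ d : ℕ, 1 ≤ d → d ≤ D → Nat.Coprime d q := by
    intro d hd1 hd2
    refine Nat.Coprime.symm ((Nat.Prime.coprime_iff_not_dvd hq).2 (fun hdvd => ?_))
    have := Nat.le_of_dvd hd1 hdvd
    omega
  have hex := ex_one X (2 * J) D q ρ hX hJ2 hq.one_lt.le hD hdiv' h' hcop a
  have hval : Real.pi ^ 2 * (2 ^ (j + 1) * x) / (2 * q) * GG D ρ =
      Real.pi ^ 2 * (X : ℝ) / (2 * q) * GG D ρ := by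
    rw [hXdef]; push_cast; ring
  rw [hval, ← hex]
  have hsub : Icc (-(X : ℤ)) (X : ℤ) ⊆ RW X (2 * J) := by
    intro n hn
    rw [mem_Icc] at hn
    unfold RW
    rw [mem_Ico]
    have h1 : (X : ℤ) < (X : ℤ) * ((2 * J : ℕ) : ℤ) := by
      have h2 : X < X * (2 * J) := by nlinarith
      exact_mod_cast h2
    constructor <;> linarith [hn.1, hn.2]
  have hnn : ∀ n : ℤ, 0 ≤ lam D ρ n * (if (q : ℤ) ∣ n - a then (1 : ℝ) else 0) := by
    intro n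
    refine mul_nonneg (lam_nonneg D ρ n) ?_
    split_ifs <;> norm_num
  calc ∑ n ∈ Icc (-(X : ℤ)) (X : ℤ), lam D ρ n * (if (q : ℤ) ∣ n - a then (1 : ℝ) else 0)
      ≤ ∑ n ∈ Icc (-(X : ℤ)) (X : ℤ),
          ww X (2 * J) n * lam D ρ n * (if (q : ℤ) ∣ n - a then (1 : ℝ) else 0) := by
        refine sum_le_sum fun n hn => ?_
        rw [mem_Icc] at hn
        have h1 := Pool.Agent.H80.KF.ww_ge_one X (2 * J) hX hJ2 n (abs_le.2 hn)
        rw [mul_assoc]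
        exact le_mul_of_one_le_left (hnn n) h1
    _ ≤ ∑ n ∈ RW X (2 * J),
          ww X (2 * J) n * lam D ρ n * (if (q : ℤ) ∣ n - a then (1 : ℝ) else 0) := by
        refine sum_le_sum_of_subset_of_nonneg hsub fun n _ _ => ?_
        rw [mul_assoc]
        exact mul_nonneg (Pool.Agent.H80.KF.ww_nonneg _ _ _) (hnn n)

end Pool.Agent.H80.BE
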