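import Pool.Agent.H80.BE.Defs
import Pool.Agent.H91.GoldMertens3

/-!
# BE Mu: Mertens and Chebyshev

* `mu_le`: `Pool.Agent.H91.Gold.mertens_wz` with `w = ⌊x^{1/3}⌋₊`, `z = x`: `log x ≤ 3 log(w+1)`, so
  `log z/log w → 3`, `log 3 < 1.1`; `1/(q-1) ≤ (1/q)(1 + 1/Y)` for `q > Y`.
* `pi_le`: `Chebyshev.pi_le_log4_mul_div` (Mathlib): `π(x) ≤ log 4 x/log √x + √x`, `log √x = (log x)/2`,
  `log 4 ≤ 1.4`, `√x log x ≤ 2x`.  `pi_ge`: `Chebyshev.pi_ge` (Mathlib), `log 2 > 0.69`.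
-/

set_option autoImplicit false

namespace Pool.Agent.H80.BE

open Finset

/-- the lower bound for `⌊x^{1/3}⌋` -/
private theorem Mu_w {x : ℕ} (hx : 2 ^ 64 ≤ x) :
    (x : ℝ) ^ ((1 : ℝ) / 4) ≤ ⌊(x : ℝ) ^ ((1 : ℝ) / 3)⌋₊ ∧ (65536 : ℝ) ≤ (x : ℝ) ^ ((1 : ℝ) / 4) := by
  have hx1 : ((2 : ℝ) ^ 64) ≤ x := by exact_mod_cast hx
  have hx0 : (0 : ℝ) < x := by
    have : (0 : ℝ) < 2 ^ 64 := by positivity
    linarith
  have h4 : (65536 : ℝ) ≤ (x : ℝ) ^ ((1 : ℝ) / 4) := by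
    have e : (65536 : ℝ) = ((2 : ℝ) ^ 64) ^ ((1 : ℝ) / 4) := by
      rw [← Real.rpow_natCast 2 64, ← Real.rpow_mul (by norm_num)]
      norm_num
    rw [e]
    exact Real.rpow_le_rpow (by positivity) hx1 (by norm_num)
  refine ⟨?_, h4⟩
  have h12 : (2 : ℝ) ≤ (x : ℝ) ^ ((1 : ℝ) / 12) := by
    have e : (2 : ℝ) = ((2 : ℝ) ^ 12) ^ ((1 : ℝ) / 12) := by
      rw [← Real.rpow_natCast 2 12, ← Real.rpow_mul (by norm_num)]
      norm_num
    conv_lhs => rw [e]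
    exact Real.rpow_le_rpow (by positivity) (le_trans (by norm_num) hx1) (by norm_num)
  have h3 : (x : ℝ) ^ ((1 : ℝ) / 3) = (x : ℝ) ^ ((1 : ℝ) / 4) * (x : ℝ) ^ ((1 : ℝ) / 12) := by
    rw [← Real.rpow_add hx0]
    norm_num
  have h5 : 2 * (x : ℝ) ^ ((1 : ℝ) / 4) ≤ (x : ℝ) ^ ((1 : ℝ) / 3) := by
    rw [h3]
    nlinarith
  have h6 := Nat.lt_floor_add_one ((x : ℝ) ^ ((1 : ℝ) / 3))
  linarith

theorem mu_le : ∃ x0 : ℕ, ∀ x : ℕ, x0 ≤ x → ∀ P : Finset ℕ, PS ⌊(x : ℝ) ^ ((1 : ℝ) / 3)⌋₊ x P →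
    ∑ q ∈ P, 1 / ((q : ℝ) - 1) ≤ 2 := by
  refine ⟨2 ^ 64, fun x hx P hP => ?_⟩
  obtain ⟨hw, h4⟩ := Mu_w hx
  set w := ⌊(x : ℝ) ^ ((1 : ℝ) / 3)⌋₊ with hwdef
  have hw1 : (65536 : ℝ) ≤ w := h4.trans hw
  have hw2 : 65536 ≤ w := by exact_mod_cast hw1
  have hx1 : ((2 : ℝ) ^ 64) ≤ x := by exact_mod_cast hx
  have hx0 : (0 : ℝ) < x := by
    have : (0 : ℝ) < 2 ^ 64 := by positivity
    linarith
  have hx1' : (1 : ℝ) ≤ x := le_trans (by norm_num) hx1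
  have hwx : w ≤ x := by
    have h1 : (x : ℝ) ^ ((1 : ℝ) / 3) ≤ x := by
      conv_rhs => rw [← Real.rpow_one (x : ℝ)]
      exact Real.rpow_le_rpow_of_exponent_le hx1' (by norm_num)
    exact Nat.floor_le_of_le h1
  have hlogw : Real.log x ≤ 4 * Real.log w := by
    have h1 : Real.log ((x : ℝ) ^ ((1 : ℝ) / 4)) ≤ Real.log w :=
      Real.log_le_log (by positivity) hw
    rw [Real.log_rpow hx0] at h1
    linarith
  have hlogw11 : 11 ≤ Real.log w := by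
    have h1 : Real.log (65536 : ℝ) ≤ Real.log w := Real.log_le_log (by norm_num) hw1
    have h2 : Real.log (65536 : ℝ) = 16 * Real.log 2 := by
      rw [show (65536 : ℝ) = 2 ^ 16 by norm_num, Real.log_pow]
      norm_num
    have h3 := Real.log_two_gt_d9
    linarith
  have hM := Pool.Agent.H91.Gold.mertens_wz hw2 hwx
  have hlogx : 0 < Real.log x := Real.log_pos (by
    have : (1 : ℝ) < 2 ^ 64 := by norm_num
    linarith)
  have h5 : Real.log (Real.log x / Real.log w) ≤ 1.4 := by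
    have h6 : Real.log x / Real.log w ≤ 4 := by
      rw [div_le_iff₀ (by linarith)]
      linarith
    have h7 : Real.log (Real.log x / Real.log w) ≤ Real.log 4 :=
      Real.log_le_log (by positivity) h6
    have h8 : Real.log 4 = 2 * Real.log 2 := by
      rw [show (4 : ℝ) = 2 ^ 2 by norm_num, Real.log_pow]
      norm_num
    have h9 := Real.log_two_lt_d9
    linarith
  have h6 : 0.2295 / Real.log w ≤ 0.03 := by
    rw [div_le_iff₀ (by linarith)]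
    linarith
  have hsub : P ⊆ Pool.Agent.H91.Gold.Pr w x := by
    intro q hq
    obtain ⟨h7, h8, h9⟩ := hP q hq
    exact Finset.mem_filter.2 ⟨Finset.mem_Ioc.2 ⟨h8, h9⟩, h7⟩
  have h7 : ∀ q ∈ P, 1 / ((q : ℝ) - 1) ≤ 1.1 * (1 / (q : ℝ)) := by
    intro q hq
    obtain ⟨-, h8, -⟩ := hP q hq
    have h9 : (w : ℝ) < q := by exact_mod_cast h8
    have h10 : (0 : ℝ) < (q : ℝ) - 1 := by linarith
    have h11 : (0 : ℝ) < q := by linarith
    rw [mul_one_div, div_le_div_iff₀ h10 h11]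
    nlinarith
  calc ∑ q ∈ P, 1 / ((q : ℝ) - 1) ≤ ∑ q ∈ P, 1.1 * (1 / (q : ℝ)) := Finset.sum_le_sum h7
    _ = 1.1 * ∑ q ∈ P, 1 / (q : ℝ) := by rw [Finset.mul_sum]
    _ ≤ 1.1 * ∑ q ∈ Pool.Agent.H91.Gold.Pr w x, 1 / (q : ℝ) := by
        refine mul_le_mul_of_nonneg_left ?_ (by norm_num)
        exact Finset.sum_le_sum_of_subset_of_nonneg hsub fun q _ _ => by positivity
    _ ≤ 2 := by linarith

theorem pi_le : ∃ x0 : ℕ, ∀ x : ℕ, x0 ≤ x → (Nat.primeCounting x : ℝ) ≤ 5 * x / Real.log x := by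
  refine ⟨2, fun x hx => ?_⟩
  have hx1 : (1 : ℝ) < x := by exact_mod_cast hx
  have hx0 : (0 : ℝ) < x := by linarith
  have hlog : 0 < Real.log x := Real.log_pos hx1
  have h := Chebyshev.pi_le_log4_mul_div hx1
  rw [Nat.floor_natCast, Real.log_sqrt hx0.le] at h
  have hs : 0 < Real.sqrt x := Real.sqrt_pos.2 hx0
  have h1 : Real.log x ≤ 2 * Real.sqrt x := by
    have h2 := Real.log_le_sub_one_of_pos hs
    rw [Real.log_sqrt hx0.le] at h2
    linarith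
  have h2 : Real.sqrt x ≤ 2 * x / Real.log x := by
    rw [le_div_iff₀ hlog]
    calc Real.sqrt x * Real.log x ≤ Real.sqrt x * (2 * Real.sqrt x) :=
          mul_le_mul_of_nonneg_left h1 hs.le
      _ = 2 * (Real.sqrt x * Real.sqrt x) := by ring
      _ = 2 * x := by rw [Real.mul_self_sqrt hx0.le]
  have h3 : Real.log 4 ≤ 1.4 := by
    have h8 : Real.log 4 = 2 * Real.log 2 := by
      rw [show (4 : ℝ) = 2 ^ 2 by norm_num, Real.log_pow]
      norm_num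
    have h9 := Real.log_two_lt_d9
    linarith
  have h4 : Real.log 4 * x / (Real.log x / 2) ≤ 3 * x / Real.log x := by
    rw [div_le_div_iff₀ (by positivity) hlog]
    nlinarith [mul_pos hx0 hlog, mul_le_mul_of_nonneg_right h3 (mul_pos hx0 hlog).le]
  calc (Nat.primeCounting x : ℝ) ≤ Real.log 4 * x / (Real.log x / 2) + Real.sqrt x := h
    _ ≤ 3 * x / Real.log x + 2 * x / Real.log x := add_le_add h4 h2
    _ = 5 * x / Real.log x := by ring

theorem pi_ge : ∃ x0 : ℕ, ∀ x : ℕ, x0 ≤ x → x / (2 * Real.log x) ≤ (Nat.primeCounting x : ℝ) := by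
  refine ⟨100, fun x hx => ?_⟩
  have hx1 : (100 : ℝ) ≤ x := by exact_mod_cast hx
  have hlog : 0 < Real.log x := Real.log_pos (by linarith)
  refine le_trans ?_ (Chebyshev.pi_ge x)
  have h1 : Real.log ((x : ℝ) + 1) ≤ ((x : ℝ) + 1) / 16 - 1 + 4 * Real.log 2 := by
    have h2 : Real.log (((x : ℝ) + 1) / 16) ≤ ((x : ℝ) + 1) / 16 - 1 :=
      Real.log_le_sub_one_of_pos (by positivity)
    rw [Real.log_div (by positivity) (by norm_num)] at h2
    have h3 : Real.log (16 : ℝ) = 4 * Real.log 2 := by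
      rw [show (16 : ℝ) = 2 ^ 4 by norm_num, Real.log_pow]
      norm_num
    linarith
  have h2 := Real.log_two_gt_d9
  have h3 := Real.log_two_lt_d9
  have h4 : (x : ℝ) / 2 ≤ x * Real.log 2 - Real.log ((x : ℝ) + 1) := by nlinarith
  have h5 : (x : ℝ) / (2 * Real.log x) = ((x : ℝ) / 2) / Real.log x := by
    field_simp
  rw [h5]
  exact div_le_div_of_nonneg_right h4 hlog.le

end Pool.Agent.H80.BE
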