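import Mathlib

/-!
# BE Num: the parameters

`ν = (50 - 99 θ - 100 κ)/1000` (so `0 < ν ≤ 1/2000`), `D = ⌊x^ν⌋`, `Y = ⌊x^{1/3}⌋`, `Z = ⌊x^θ⌋`, `s ≤ x^κ`.  Exponents:
`2κ + 10ν + θ(2 - 1/50) = (100κ + 99θ + 500ν)/50 < 1`; `2κ + 1 + 2ν - 1/3 < 1` (`κ < 1/200`);
`3κ + 2ν + θ < 1`; `2ν + θ < 1`.  (`θ < 50/99`.)  Powers of `log x` are `≤ x^ε` eventually.
-/

set_option autoImplicit false

namespace Pool.Agent.H80.BE

private theorem Num_ev (ν : ℝ) (hν : 0 < ν) : ∃ x0 : ℕ, ∀ x : ℕ, x0 ≤ x →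
    2 ≤ (x : ℝ) ^ (ν / 2) ∧ 4 ≤ (x : ℝ) ^ ((1 : ℝ) / 3) ∧ 1 ≤ Real.log x ∧ 1 ≤ (x : ℝ) ∧
      420 * Real.log x ^ 3 ≤ (x : ℝ) ^ (10 * ν) := by
  have e1 : ∀ᶠ x : ℝ in Filter.atTop, 2 ≤ x ^ (ν / 2) :=
    (tendsto_rpow_atTop (half_pos hν)).eventually_ge_atTop 2
  have e2 : ∀ᶠ x : ℝ in Filter.atTop, 4 ≤ x ^ ((1 : ℝ) / 3) :=
    (tendsto_rpow_atTop (by norm_num)).eventually_ge_atTop 4
  have e3 : ∀ᶠ x : ℝ in Filter.atTop, 1 ≤ Real.log x :=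
    Real.tendsto_log_atTop.eventually_ge_atTop 1
  have e4 : ∀ᶠ x : ℝ in Filter.atTop, 1 ≤ x := Filter.eventually_ge_atTop 1
  have e5 : ∀ᶠ x : ℝ in Filter.atTop, 420 * Real.log x ^ 3 ≤ x ^ (10 * ν) := by
    have h := isLittleO_log_rpow_rpow_atTop (3 : ℝ) (show (0 : ℝ) < 10 * ν by linarith)
    have h2 := h.bound (show (0 : ℝ) < 1 / 420 by norm_num)
    filter_upwards [h2, e3, e4] with x hx h3 h4
    rw [Real.norm_of_nonneg (Real.rpow_nonneg (by linarith) _),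
      Real.norm_of_nonneg (Real.rpow_nonneg (by linarith) _)] at hx
    have h5 : Real.log x ^ (3 : ℝ) = Real.log x ^ 3 := by
      rw [← Real.rpow_natCast]
      norm_num
    rw [h5] at hx
    linarith
  have h := tendsto_natCast_atTop_atTop (R := ℝ) |>.eventually
    (e1.and (e2.and (e3.and (e4.and e5))))
  obtain ⟨x0, hx0⟩ := Filter.eventually_atTop.1 h
  exact ⟨x0, fun x hx => hx0 x hx⟩

theorem num (θ κ : ℝ) (hθ : 1 / 2 ≤ θ) (hκ : 0 ≤ κ) (h : 99 * θ + 100 * κ < 50) :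
    ∃ ν : ℝ, 0 < ν ∧ ∃ x0 : ℕ, ∀ x : ℕ, x0 ≤ x → ∀ D Y Z : ℕ, D = ⌊(x : ℝ) ^ ν⌋₊ →
      Y = ⌊(x : ℝ) ^ ((1 : ℝ) / 3)⌋₊ → Z = ⌊(x : ℝ) ^ θ⌋₊ →
      2 ≤ D ∧ D ≤ Y ∧ 2 ≤ Y ∧ Y ≤ Z ∧ 4 ≤ Z ∧ Z ≤ x ∧ x ≤ (Y + 1) ^ 3 ∧ D ^ 2 * Z ≤ x ∧
      ν / 2 * Real.log x ≤ Real.log D ∧ 1 ≤ Real.log x ∧
      ∀ s : ℝ, 0 ≤ s → s ≤ (x : ℝ) ^ κ →
        s ^ 2 * (200 * (D : ℝ) ^ 10 * Real.log x ^ 2 * (Z : ℝ) ^ ((2 : ℝ) - 1 / 50) +
          60 * x * (D : ℝ) ^ 2 * Real.log x / Y) + 100 * s ^ 3 * (D : ℝ) ^ 2 * Z ≤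
            x / Real.log x ∧
        (s + D) * s * (2 * Z) ≤ x / Real.log x := by
  obtain ⟨ν, hν⟩ : ∃ ν : ℝ, 1000 * ν = 50 - 99 * θ - 100 * κ :=
    ⟨(50 - 99 * θ - 100 * κ) / 1000, by ring⟩
  have hν0 : 0 < ν := by linarith
  refine ⟨ν, hν0, ?_⟩
  obtain ⟨x0, hx0⟩ := Num_ev ν hν0
  refine ⟨x0, fun x hx D Y Z hD hY hZ => ?_⟩
  obtain ⟨g1, g2, g3, g4, g5⟩ := hx0 x hx
  have hxp : (0 : ℝ) < x := by linarith
  have hx0' : (0 : ℝ) ≤ x := hxp.le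
  have mono : ∀ a b : ℝ, a ≤ b → (x : ℝ) ^ a ≤ (x : ℝ) ^ b := fun a b hab =>
    Real.rpow_le_rpow_of_exponent_le g4 hab
  have hpow : ∀ (a : ℝ) (n : ℕ), ((x : ℝ) ^ a) ^ n = (x : ℝ) ^ (a * n) := fun a n => by
    rw [Real.rpow_mul hx0', Real.rpow_natCast]
  have hadd : ∀ a b : ℝ, (x : ℝ) ^ a * (x : ℝ) ^ b = (x : ℝ) ^ (a + b) := fun a b =>
    (Real.rpow_add hxp a b).symm
  have hpos : ∀ a : ℝ, (0 : ℝ) < (x : ℝ) ^ a := fun a => Real.rpow_pos_of_pos hxp a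
  -- floors
  have hD1 : (D : ℝ) ≤ (x : ℝ) ^ ν := by
    rw [hD]
    exact Nat.floor_le (hpos ν).le
  have hY1 : (Y : ℝ) ≤ (x : ℝ) ^ ((1 : ℝ) / 3) := by
    rw [hY]
    exact Nat.floor_le (hpos _).le
  have hZ1 : (Z : ℝ) ≤ (x : ℝ) ^ θ := by
    rw [hZ]
    exact Nat.floor_le (hpos _).le
  have hD2 : (x : ℝ) ^ ν < D + 1 := by
    rw [hD]
    exact Nat.lt_floor_add_one _
  have hY2 : (x : ℝ) ^ ((1 : ℝ) / 3) < Y + 1 := by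
    rw [hY]
    exact Nat.lt_floor_add_one _
  have hνν : (x : ℝ) ^ ν = (x : ℝ) ^ (ν / 2) * (x : ℝ) ^ (ν / 2) := by
    rw [hadd]
    congr 1
    ring
  have hx4 : 4 ≤ (x : ℝ) ^ ν := by
    rw [hνν]
    nlinarith [g1]
  have c1 : 2 ≤ D := by
    rw [hD]
    exact Nat.le_floor (by push_cast; linarith)
  have c2 : D ≤ Y := by
    rw [hD, hY]
    exact Nat.floor_le_floor (mono _ _ (by linarith))
  have c3 : 2 ≤ Y := c1.trans c2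
  have c4 : Y ≤ Z := by
    rw [hY, hZ]
    exact Nat.floor_le_floor (mono _ _ (by linarith))
  have c5 : 4 ≤ Z := by
    rw [hZ]
    refine Nat.le_floor ?_
    push_cast
    exact g2.trans (mono _ _ (by linarith))
  have c6 : Z ≤ x := by
    have : (Z : ℝ) ≤ x := by
      calc (Z : ℝ) ≤ (x : ℝ) ^ θ := hZ1
        _ ≤ (x : ℝ) ^ (1 : ℝ) := mono _ _ (by linarith)
        _ = x := Real.rpow_one _
    exact_mod_cast this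
  have c7 : x ≤ (Y + 1) ^ 3 := by
    have : (x : ℝ) ≤ ((Y : ℝ) + 1) ^ 3 := by
      calc (x : ℝ) = ((x : ℝ) ^ ((1 : ℝ) / 3)) ^ 3 := by
            rw [hpow]
            norm_num
        _ ≤ ((Y : ℝ) + 1) ^ 3 := pow_le_pow_left₀ (hpos _).le hY2.le 3
    exact_mod_cast this
  have hDsq : (D : ℝ) ^ 2 ≤ (x : ℝ) ^ (ν * 2) := by
    calc (D : ℝ) ^ 2 ≤ ((x : ℝ) ^ ν) ^ 2 := pow_le_pow_left₀ (Nat.cast_nonneg D) hD1 2
      _ = (x : ℝ) ^ (ν * 2) := by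
        rw [hpow]
        norm_num
  have hD10 : (D : ℝ) ^ 10 ≤ (x : ℝ) ^ (ν * 10) := by
    calc (D : ℝ) ^ 10 ≤ ((x : ℝ) ^ ν) ^ 10 := pow_le_pow_left₀ (Nat.cast_nonneg D) hD1 10
      _ = (x : ℝ) ^ (ν * 10) := by
        rw [hpow]
        norm_num
  have hZr : (Z : ℝ) ^ ((2 : ℝ) - 1 / 50) ≤ (x : ℝ) ^ (θ * ((2 : ℝ) - 1 / 50)) := by
    rw [Real.rpow_mul hx0']
    exact Real.rpow_le_rpow (Nat.cast_nonneg Z) hZ1 (by norm_num)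
  have c8 : D ^ 2 * Z ≤ x := by
    have : (D : ℝ) ^ 2 * Z ≤ x := by
      calc (D : ℝ) ^ 2 * Z ≤ (x : ℝ) ^ (ν * 2) * (x : ℝ) ^ θ :=
            mul_le_mul hDsq hZ1 (Nat.cast_nonneg Z) (hpos _).le
        _ = (x : ℝ) ^ (ν * 2 + θ) := hadd _ _
        _ ≤ (x : ℝ) ^ (1 : ℝ) := mono _ _ (by linarith)
        _ = x := Real.rpow_one _
    exact_mod_cast this
  have c9 : ν / 2 * Real.log x ≤ Real.log D := by
    have h1 : (x : ℝ) ^ (ν / 2) ≤ D := by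
      have h2 : (x : ℝ) ^ (ν / 2) + 1 ≤ (x : ℝ) ^ ν := by
        rw [hνν]
        nlinarith [g1]
      linarith
    have h3 := Real.log_le_log (hpos _) h1
    rwa [Real.log_rpow hxp] at h3
  refine ⟨c1, c2, c3, c4, c5, c6, c7, c8, c9, g3, fun s hs0 hs => ?_⟩
  have hL : 0 < Real.log x := by linarith
  -- the final comparison
  have hfin : 420 * Real.log x ^ 2 * (x : ℝ) ^ (1 - 10 * ν) ≤ x / Real.log x := by
    rw [le_div_iff₀ hL]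
    have h1 : (x : ℝ) ^ (1 - 10 * ν) * (x : ℝ) ^ (10 * ν) = x := by
      rw [hadd]
      have : 1 - 10 * ν + 10 * ν = 1 := by ring
      rw [this, Real.rpow_one]
    calc 420 * Real.log x ^ 2 * (x : ℝ) ^ (1 - 10 * ν) * Real.log x
        = (x : ℝ) ^ (1 - 10 * ν) * (420 * Real.log x ^ 3) := by ring
      _ ≤ (x : ℝ) ^ (1 - 10 * ν) * (x : ℝ) ^ (10 * ν) :=
        mul_le_mul_of_nonneg_left g5 (hpos _).le
      _ = x := h1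
  have hs2 : s ^ 2 ≤ (x : ℝ) ^ (κ * 2) := by
    calc s ^ 2 ≤ ((x : ℝ) ^ κ) ^ 2 := pow_le_pow_left₀ hs0 hs 2
      _ = (x : ℝ) ^ (κ * 2) := by
        rw [hpow]
        norm_num
  have hs3 : s ^ 3 ≤ (x : ℝ) ^ (κ * 3) := by
    calc s ^ 3 ≤ ((x : ℝ) ^ κ) ^ 3 := pow_le_pow_left₀ hs0 hs 3
      _ = (x : ℝ) ^ (κ * 3) := by
        rw [hpow]
        norm_num
  set L := Real.log x with hLdef
  set W := (x : ℝ) ^ (1 - 10 * ν) with hW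
  have hWp : 0 < W := hpos _
  have hZ0 : (0 : ℝ) ≤ (Z : ℝ) ^ ((2 : ℝ) - 1 / 50) := Real.rpow_nonneg (Nat.cast_nonneg Z) _
  -- first term
  have t1 : s ^ 2 * ((D : ℝ) ^ 10 * (Z : ℝ) ^ ((2 : ℝ) - 1 / 50)) ≤ W := by
    calc s ^ 2 * ((D : ℝ) ^ 10 * (Z : ℝ) ^ ((2 : ℝ) - 1 / 50))
        ≤ (x : ℝ) ^ (κ * 2) * ((x : ℝ) ^ (ν * 10) * (x : ℝ) ^ (θ * ((2 : ℝ) - 1 / 50))) := by
          refine mul_le_mul hs2 (mul_le_mul hD10 hZr hZ0 (hpos _).le)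
            (mul_nonneg (by positivity) hZ0) (hpos _).le
      _ = (x : ℝ) ^ (κ * 2 + (ν * 10 + θ * ((2 : ℝ) - 1 / 50))) := by
          rw [hadd, hadd]
      _ ≤ W := mono _ _ (by linarith)
  -- second term
  have hY3 : (x : ℝ) ^ ((1 : ℝ) / 3) / 2 ≤ Y := by linarith
  have hYp : (0 : ℝ) < Y := by
    have : (0 : ℕ) < Y := by omega
    exact_mod_cast this
  have t2 : s ^ 2 * (x * (D : ℝ) ^ 2 / Y) ≤ 2 * W := by
    have h1 : (x : ℝ) * (D : ℝ) ^ 2 / Y ≤ 2 * ((x : ℝ) ^ ((2 : ℝ) / 3) * (x : ℝ) ^ (ν * 2)) := by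
      rw [div_le_iff₀ hYp]
      have h2 : (x : ℝ) ^ ((2 : ℝ) / 3) * (x : ℝ) ^ ((1 : ℝ) / 3) = x := by
        rw [hadd]
        norm_num
      calc (x : ℝ) * (D : ℝ) ^ 2 ≤ x * (x : ℝ) ^ (ν * 2) :=
            mul_le_mul_of_nonneg_left hDsq hx0'
        _ = 2 * ((x : ℝ) ^ ((2 : ℝ) / 3) * (x : ℝ) ^ (ν * 2)) *
            ((x : ℝ) ^ ((1 : ℝ) / 3) / 2) := by
          nth_rewrite 1 [← h2]
          ring
        _ ≤ 2 * ((x : ℝ) ^ ((2 : ℝ) / 3) * (x : ℝ) ^ (ν * 2)) * Y :=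
          mul_le_mul_of_nonneg_left hY3 (by positivity)
    calc s ^ 2 * (x * (D : ℝ) ^ 2 / Y)
        ≤ (x : ℝ) ^ (κ * 2) * (2 * ((x : ℝ) ^ ((2 : ℝ) / 3) * (x : ℝ) ^ (ν * 2))) :=
          mul_le_mul hs2 h1 (by positivity) (hpos _).le
      _ = 2 * (x : ℝ) ^ (κ * 2 + (2 / 3 + ν * 2)) := by
          rw [← hadd, ← hadd]
          ring
      _ ≤ 2 * W := by
          refine mul_le_mul_of_nonneg_left (mono _ _ (by linarith)) (by norm_num)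
  -- third term
  have t3 : s ^ 3 * (D : ℝ) ^ 2 * Z ≤ W := by
    calc s ^ 3 * (D : ℝ) ^ 2 * Z ≤ (x : ℝ) ^ (κ * 3) * (x : ℝ) ^ (ν * 2) * (x : ℝ) ^ θ := by
          refine mul_le_mul (mul_le_mul hs3 hDsq (by positivity) (hpos _).le) hZ1
            (Nat.cast_nonneg Z) (by positivity)
      _ = (x : ℝ) ^ (κ * 3 + ν * 2 + θ) := by
          rw [hadd, hadd]
      _ ≤ W := mono _ _ (by linarith)
  constructor
  · refine le_trans ?_ hfin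
    have hL2 : L ≤ L ^ 2 := by nlinarith [g3]
    have hL1 : 1 ≤ L ^ 2 := by nlinarith [g3]
    calc s ^ 2 * (200 * (D : ℝ) ^ 10 * L ^ 2 * (Z : ℝ) ^ ((2 : ℝ) - 1 / 50) +
          60 * x * (D : ℝ) ^ 2 * L / Y) + 100 * s ^ 3 * (D : ℝ) ^ 2 * Z
        = 200 * L ^ 2 * (s ^ 2 * ((D : ℝ) ^ 10 * (Z : ℝ) ^ ((2 : ℝ) - 1 / 50))) +
          60 * L * (s ^ 2 * (x * (D : ℝ) ^ 2 / Y)) + 100 * (s ^ 3 * (D : ℝ) ^ 2 * Z) := by
          ring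
      _ ≤ 200 * L ^ 2 * W + 60 * L * (2 * W) + 100 * W := by
          refine add_le_add (add_le_add (mul_le_mul_of_nonneg_left t1 (by positivity))
            (mul_le_mul_of_nonneg_left t2 (by positivity)))
            (mul_le_mul_of_nonneg_left t3 (by norm_num))
      _ ≤ 420 * L ^ 2 * W := by
          have a1 : L * W ≤ L ^ 2 * W := mul_le_mul_of_nonneg_right hL2 hWp.le
          have a2 : 1 * W ≤ L ^ 2 * W := mul_le_mul_of_nonneg_right hL1 hWp.le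
          nlinarith [a1, a2]
  · refine le_trans ?_ hfin
    have hsD : (s + D) * s ≤ 2 * (x : ℝ) ^ (κ * 2 + ν) := by
      have b1 : s * s ≤ (x : ℝ) ^ (κ * 2 + ν) := by
        calc s * s = s ^ 2 := by ring
          _ ≤ (x : ℝ) ^ (κ * 2) := hs2
          _ ≤ (x : ℝ) ^ (κ * 2 + ν) := mono _ _ (by linarith)
      have b2 : (D : ℝ) * s ≤ (x : ℝ) ^ (κ * 2 + ν) := by
        calc (D : ℝ) * s ≤ (x : ℝ) ^ ν * (x : ℝ) ^ κ := mul_le_mul hD1 hs hs0 (hpos _).le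
          _ = (x : ℝ) ^ (ν + κ) := hadd _ _
          _ ≤ (x : ℝ) ^ (κ * 2 + ν) := mono _ _ (by linarith)
      linarith [b1, b2, add_mul s (D : ℝ) s]
    calc (s + D) * s * (2 * Z) ≤ 2 * (x : ℝ) ^ (κ * 2 + ν) * (2 * (x : ℝ) ^ θ) :=
          mul_le_mul hsD (by linarith) (by positivity) (by positivity)
      _ = 4 * (x : ℝ) ^ (κ * 2 + ν + θ) := by
          rw [← hadd (κ * 2 + ν) θ]
          ring
      _ ≤ 4 * W := mul_le_mul_of_nonneg_left (mono _ _ (by linarith)) (by norm_num)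
      _ ≤ 420 * L ^ 2 * W := by
          have hL1 : 1 ≤ L ^ 2 := by nlinarith [g3]
          refine mul_le_mul_of_nonneg_right ?_ hWp.le
          linarith

end Pool.Agent.H80.BE
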