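import Pool.Agent.H80.BE.Tot
import Pool.Agent.H80.BE.Mu
import Pool.Agent.H80.BE.Num

/-!
# BE Dual: the primes `q > x^{1/3}`

`ν, D, Y, Z` of `num`, `J = 2 (Z² D²)!`, `ρ` of `sw_exists`, `P` = primes in `(Y, Z]`,
`c a q = sign (EE x q a)` if `a ∈ B q` and `q ∤ a`, `0` otherwise.  The left side is
`∑_{a ∈ S} ∑_{q ∈ P} c a q EE x q a = ∑_{p ≤ x prime} ∑_{a ∈ S} TT P (c a) a p` (`tt_sum`: sum of `TT` over the primes).
The primes `p ≤ D` or `p ∈ S`: at most `|S| + D`, each `≤ |S| (|P| + 2) ≤ |S| 2Z`; total `≤ x/log x` (`num`).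
The others: Cauchy, `≤ (π(x) V)^{1/2}`, `V = ∑_{n ∈ RW, n ∉ S} ww lam (∑_a TT)²` (`ww ≥ 1` on `[-x,x]`: `KF.ww_ge_one`,
`lam = 1`: `lam_prime`).  `tot` with `∑_a ∑_q |c a q|/q ≤ ∑_q K/q ≤ 2K` (`mu_le`), `GG ≤ 2/log D ≤ 4/(ν log x)`:
`V ≤ (8000/ν + 1) K x/log x`, `π(x) ≤ 5x/log x`.  For `K = 0` all `B q` are empty.
-/

set_option autoImplicit false

namespace Pool.Agent.H80.BE

open Finset
open Pool.Agent.H80.KF (ee kf ww RW fej)

private theorem Dual_pi (x : ℕ) : ((Icc 1 x).filter Nat.Prime).card = Nat.primeCounting x := by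
  rw [Nat.primeCounting, Nat.primeCounting', Nat.count_eq_card_filter_range]
  congr 1
  ext p
  simp only [mem_filter, mem_Icc, mem_range]
  constructor
  · rintro ⟨⟨_, h1⟩, h2⟩
    exact ⟨by omega, h2⟩
  · rintro ⟨h1, h2⟩
    exact ⟨⟨h2.pos, by omega⟩, h2⟩

theorem tt_sum (x : ℕ) (P : Finset ℕ) (c : ℕ → ℝ) (a : ℤ) :
    ∑ p ∈ (Icc 1 x).filter Nat.Prime, TT P c a (p : ℤ) = ∑ q ∈ P, c q * EE x q a := by
  unfold TT EE
  rw [Finset.sum_comm]
  refine Finset.sum_congr rfl fun q _ => ?_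
  rw [← Finset.mul_sum, Finset.sum_sub_distrib, Finset.sum_const, Dual_pi, nsmul_eq_mul]
  congr 2
  · rw [← Finset.sum_filter, Finset.sum_const, nsmul_eq_mul, mul_one, Finset.filter_filter]
  · rw [mul_one_div]

/-- the signs -/
private noncomputable def Dual_c (x : ℕ) (B : ℕ → Finset ℤ) (a : ℤ) (q : ℕ) : ℝ :=
  if a ∈ B q ∧ ¬ (q : ℤ) ∣ a then (if 0 ≤ EE x q a then 1 else -1) else 0

private theorem Dual_c_le (x : ℕ) (B : ℕ → Finset ℤ) (a : ℤ) (q : ℕ) : |Dual_c x B a q| ≤ 1 := by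
  unfold Dual_c
  split_ifs <;> norm_num

private theorem Dual_c_sum {x : ℕ} {S : Finset ℤ} {B : ℕ → Finset ℤ} {q : ℕ} (hB : B q ⊆ S) :
    ∑ a ∈ (B q).filter (fun a => ¬ (q : ℤ) ∣ a), |EE x q a| =
      ∑ a ∈ S, Dual_c x B a q * EE x q a := by
  have h1 : ∀ a ∈ S, Dual_c x B a q * EE x q a =
      if a ∈ B q ∧ ¬ (q : ℤ) ∣ a then |EE x q a| else 0 := by
    intro a _
    unfold Dual_c
    by_cases h : a ∈ B q ∧ ¬ (q : ℤ) ∣ a
    · rw [if_pos h, if_pos h]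
      by_cases h0 : 0 ≤ EE x q a
      · rw [if_pos h0, one_mul, abs_of_nonneg h0]
      · rw [if_neg h0, abs_of_neg (not_le.1 h0)]
        ring
    · rw [if_neg h, if_neg h, zero_mul]
  rw [Finset.sum_congr rfl h1, ← Finset.sum_filter]
  refine Finset.sum_congr ?_ fun _ _ => rfl
  ext a
  simp only [mem_filter]
  exact ⟨fun h => ⟨hB h.1, h⟩, fun h => h.2⟩

private theorem Dual_c_count {x K : ℕ} {S : Finset ℤ} {B : ℕ → Finset ℤ} {q : ℕ}
    (hK : (B q).card ≤ K) : ∑ a ∈ S, |Dual_c x B a q| ≤ K := by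
  have h1 : ∀ a ∈ S, |Dual_c x B a q| ≤ if a ∈ B q then (1 : ℝ) else 0 := by
    intro a _
    by_cases h : a ∈ B q
    · rw [if_pos h]
      exact Dual_c_le x B a q
    · rw [if_neg h]
      unfold Dual_c
      rw [if_neg (fun hc => h hc.1), abs_zero]
  refine (Finset.sum_le_sum h1).trans ?_
  rw [← Finset.sum_filter, Finset.sum_const, nsmul_eq_mul, mul_one]
  have h2 : (S.filter (fun a => a ∈ B q)).card ≤ (B q).card := by
    refine Finset.card_le_card fun a ha => ?_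
    exact (mem_filter.1 ha).2
  exact_mod_cast h2.trans hK

private theorem Dual_TT_le {Y Z : ℕ} {P : Finset ℕ} (hP : PS Y Z P) {c : ℕ → ℝ}
    (hc : ∀ q, |c q| ≤ 1) (hZ : P.card ≤ Z) (a n : ℤ) : |TT P c a n| ≤ Z := by
  unfold TT
  have h1 : ∀ q ∈ P, |c q * ((if (q : ℤ) ∣ n - a then (1 : ℝ) else 0) - 1 / ((q : ℝ) - 1))| ≤ 1 := by
    intro q hq
    have h2 : (2 : ℝ) ≤ q := by exact_mod_cast (hP q hq).1.two_le
    have h3 : 0 ≤ 1 / ((q : ℝ) - 1) := by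
      apply div_nonneg <;> linarith
    have h4 : 1 / ((q : ℝ) - 1) ≤ 1 := by
      rw [div_le_one (by linarith)]
      linarith
    rw [abs_mul]
    have h5 : |(if (q : ℤ) ∣ n - a then (1 : ℝ) else 0) - 1 / ((q : ℝ) - 1)| ≤ 1 := by
      rw [abs_le]
      split_ifs <;> constructor <;> linarith
    calc |c q| * |(if (q : ℤ) ∣ n - a then (1 : ℝ) else 0) - 1 / ((q : ℝ) - 1)| ≤ 1 * 1 :=
          mul_le_mul (hc q) h5 (abs_nonneg _) (by norm_num)
      _ = 1 := one_mul 1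
  calc _ ≤ ∑ q ∈ P, |c q * ((if (q : ℤ) ∣ n - a then (1 : ℝ) else 0) - 1 / ((q : ℝ) - 1))| :=
        Finset.abs_sum_le_sum_abs _ _
    _ ≤ ∑ _q ∈ P, (1 : ℝ) := Finset.sum_le_sum h1
    _ = P.card := by rw [Finset.sum_const, nsmul_eq_mul, mul_one]
    _ ≤ Z := by exact_mod_cast hZ

/-- the sum over the bad primes -/
private theorem Dual_bad {x D Z : ℕ} {S : Finset ℤ} {f : ℤ → ℝ}
    (hf : ∀ n, |f n| ≤ S.card * Z) :
    |∑ p ∈ ((Icc 1 x).filter Nat.Prime).filter (fun p : ℕ => p ≤ D ∨ (p : ℤ) ∈ S), f (p : ℤ)| ≤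
      ((S.card : ℝ) + D) * S.card * (2 * Z) := by
  have h1 : (((Icc 1 x).filter Nat.Prime).filter (fun p : ℕ => p ≤ D ∨ (p : ℤ) ∈ S)).card ≤
      S.card + D := by
    rw [Finset.filter_or]
    refine (Finset.card_union_le _ _).trans ?_
    rw [add_comm]
    refine Nat.add_le_add ?_ ?_
    · refine Finset.card_le_card_of_injOn (fun p : ℕ => (p : ℤ)) ?_ ?_
      · intro p hp
        exact (mem_filter.1 (Finset.mem_coe.1 hp)).2
      · intro p _ p' _ h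
        exact Int.ofNat_inj.1 h
    · calc _ ≤ (Icc 1 D).card := by
            refine Finset.card_le_card fun p hp => ?_
            simp only [mem_filter, mem_Icc] at hp ⊢
            exact ⟨hp.1.1.1, hp.2⟩
        _ = D := by rw [Nat.card_Icc, Nat.add_sub_cancel]
  have h2 : ((((Icc 1 x).filter Nat.Prime).filter
      (fun p : ℕ => p ≤ D ∨ (p : ℤ) ∈ S)).card : ℝ) ≤ (S.card : ℝ) + D := by exact_mod_cast h1
  have hZ0 : (0 : ℝ) ≤ Z := Nat.cast_nonneg Z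
  have hS0 : (0 : ℝ) ≤ S.card := Nat.cast_nonneg _
  have hD0 : (0 : ℝ) ≤ D := Nat.cast_nonneg D
  calc _ ≤ ∑ p ∈ ((Icc 1 x).filter Nat.Prime).filter (fun p : ℕ => p ≤ D ∨ (p : ℤ) ∈ S),
          |f (p : ℤ)| := Finset.abs_sum_le_sum_abs _ _
    _ ≤ ∑ _p ∈ ((Icc 1 x).filter Nat.Prime).filter (fun p : ℕ => p ≤ D ∨ (p : ℤ) ∈ S),
          ((S.card : ℝ) * Z) := Finset.sum_le_sum fun p _ => hf _
    _ ≤ ((S.card : ℝ) + D) * (S.card * Z) := by
        rw [Finset.sum_const, nsmul_eq_mul]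
        exact mul_le_mul_of_nonneg_right h2 (by positivity)
    _ ≤ ((S.card : ℝ) + D) * S.card * (2 * Z) := by
        have : 0 ≤ ((S.card : ℝ) + D) * S.card * Z := by positivity
        linarith

/-- the sum over the good primes -/
private theorem Dual_good {x J D : ℕ} {ρ : ℕ → ℝ} {S : Finset ℤ} {f : ℤ → ℝ} {V : ℝ}
    (hx : 1 ≤ x) (hJ : 2 ≤ J) (hρ : SW D ρ)
    (hV : ∑ n ∈ (RW x J).filter (fun n => n ∉ S), ww x J n * lam D ρ n * f n ^ 2 ≤ V) :
    |∑ p ∈ ((Icc 1 x).filter Nat.Prime).filter (fun p : ℕ => ¬ (p ≤ D ∨ (p : ℤ) ∈ S)), f (p : ℤ)| ≤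
      Real.sqrt (Nat.primeCounting x * V) := by
  set G := ((Icc 1 x).filter Nat.Prime).filter (fun p : ℕ => ¬ (p ≤ D ∨ (p : ℤ) ∈ S)) with hG
  have h1 : (∑ p ∈ G, f (p : ℤ)) ^ 2 ≤ G.card * ∑ p ∈ G, f (p : ℤ) ^ 2 :=
    sq_sum_le_card_mul_sum_sq
  have h2 : (G.card : ℝ) ≤ Nat.primeCounting x := by
    have : G.card ≤ ((Icc 1 x).filter Nat.Prime).card := Finset.card_filter_le _ _
    rw [Dual_pi] at this
    exact_mod_cast this
  have h3 : ∑ p ∈ G, f (p : ℤ) ^ 2 ≤ V := by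
    refine le_trans ?_ hV
    have h4 : ∑ p ∈ G, f (p : ℤ) ^ 2 ≤ ∑ p ∈ G, ww x J (p : ℤ) * lam D ρ (p : ℤ) * f (p : ℤ) ^ 2 := by
      refine Finset.sum_le_sum fun p hp => ?_
      rw [hG] at hp
      simp only [mem_filter, mem_Icc, not_or, not_le] at hp
      obtain ⟨⟨⟨p1, p2⟩, p3⟩, p4, p5⟩ := hp
      rw [lam_prime hρ p3 p4, mul_one]
      have hw := Pool.Agent.H80.KF.ww_ge_one x J hx (by omega) (p : ℤ) (by
        rw [abs_of_nonneg (Int.natCast_nonneg p)]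
        exact_mod_cast p2)
      have : 0 ≤ f (p : ℤ) ^ 2 := sq_nonneg _
      nlinarith
    refine h4.trans ?_
    rw [← Finset.sum_image (f := fun n : ℤ => ww x J n * lam D ρ n * f n ^ 2)
      (g := fun p : ℕ => (p : ℤ)) (s := G) (fun p _ p' _ h => Int.ofNat_inj.1 h)]
    refine Finset.sum_le_sum_of_subset_of_nonneg ?_ ?_
    · intro n hn
      obtain ⟨p, hp, rfl⟩ := mem_image.1 hn
      rw [hG] at hp
      simp only [mem_filter, mem_Icc, not_or, not_le] at hp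
      obtain ⟨⟨⟨p1, p2⟩, p3⟩, p4, p5⟩ := hp
      rw [mem_filter]
      refine ⟨?_, p5⟩
      unfold RW
      rw [Finset.mem_Ico]
      have h5 : p < x * J := by
        calc p ≤ x := p2
          _ < x * 2 := by omega
          _ ≤ x * J := Nat.mul_le_mul_left x hJ
      have h6 : (p : ℤ) < x * J := by exact_mod_cast h5
      refine ⟨?_, h6⟩
      have : (0 : ℤ) ≤ x * J := by positivity
      have : (0 : ℤ) ≤ p := Int.natCast_nonneg p
      linarith
    · intro n _ _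
      have h5 : 0 ≤ ww x J n := by
        unfold ww
        positivity
      have h6 := lam_nonneg D ρ n
      have : 0 ≤ f n ^ 2 := sq_nonneg _
      positivity
  apply Real.abs_le_sqrt
  refine h1.trans (mul_le_mul h2 h3 (Finset.sum_nonneg fun _ _ => sq_nonneg _) (Nat.cast_nonneg _))

theorem dual (θ κ : ℝ) (hθ : 1 / 2 ≤ θ) (hκ : 0 ≤ κ) (h : 99 * θ + 100 * κ < 50) :
    ∃ C : ℝ, 0 < C ∧ ∃ x0 : ℕ, ∀ x : ℕ, x0 ≤ x → ∀ S : Finset ℤ, (∀ a ∈ S, |a| ≤ (x : ℤ)) →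
      (S.card : ℝ) ≤ (x : ℝ) ^ κ → ∀ (K : ℕ) (B : ℕ → Finset ℤ),
      (∀ q, B q ⊆ S ∧ (B q).card ≤ K) →
      ∑ q ∈ (Icc 1 ⌊(x : ℝ) ^ θ⌋₊).filter (fun q => q.Prime ∧ ⌊(x : ℝ) ^ ((1 : ℝ) / 3)⌋₊ < q),
        ∑ a ∈ (B q).filter (fun a => ¬ (q : ℤ) ∣ a), |EE x q a| ≤
      C * Real.sqrt K * x / Real.log x := by
  obtain ⟨ν, hν, x1, hnum⟩ := num θ κ hθ hκ h
  obtain ⟨x2, htot⟩ := tot
  obtain ⟨x3, hmu⟩ := mu_le
  obtain ⟨x4, hpi⟩ := pi_le
  refine ⟨1 + Real.sqrt (5 * (8000 / ν + 1)), by positivity, max (max x1 x2) (max x3 (max x4 1)),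
    fun x hx S hS hSc K B hB => ?_⟩
  have hx1 : x1 ≤ x := ((le_max_left _ _).trans (le_max_left _ _)).trans hx
  have hx2 : x2 ≤ x := ((le_max_right _ _).trans (le_max_left _ _)).trans hx
  have hx3 : x3 ≤ x := ((le_max_left _ _).trans (le_max_right _ _)).trans hx
  have hx4 : x4 ≤ x :=
    (((le_max_left _ _).trans (le_max_right _ _)).trans (le_max_right _ _)).trans hx
  have hx5 : 1 ≤ x :=
    (((le_max_right _ _).trans (le_max_right _ _)).trans (le_max_right _ _)).trans hx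
  obtain ⟨n1, n2, n3, n4, n5, n6, n7, n8, n9, n10, n11⟩ :=
    hnum x hx1 ⌊(x : ℝ) ^ ν⌋₊ ⌊(x : ℝ) ^ ((1 : ℝ) / 3)⌋₊ ⌊(x : ℝ) ^ θ⌋₊ rfl rfl rfl
  have hmux := hmu x hx3
  generalize ⌊(x : ℝ) ^ ν⌋₊ = D at *
  generalize ⌊(x : ℝ) ^ ((1 : ℝ) / 3)⌋₊ = Y at *
  generalize ⌊(x : ℝ) ^ θ⌋₊ = Z at *
  have hx0 : (0 : ℝ) < x := by exact_mod_cast hx5
  have hlog : 0 < Real.log x := by linarith
  -- the case `K = 0`
  rcases Nat.eq_zero_or_pos K with hK | hK
  · subst hK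
    have h0 : ∀ q, B q = ∅ := fun q => Finset.card_eq_zero.1 (Nat.le_zero.1 (hB q).2)
    simp only [h0, Finset.filter_empty, Finset.sum_empty, Finset.sum_const_zero]
    positivity
  have hK1 : (1 : ℝ) ≤ K := by exact_mod_cast hK
  have hsK : 1 ≤ Real.sqrt K := by
    rw [Real.one_le_sqrt]
    exact hK1
  set P := (Ioc Y Z).filter Nat.Prime with hP
  have hPS : PS Y Z P := by
    intro q hq
    rw [hP, mem_filter, Finset.mem_Ioc] at hq
    exact ⟨hq.2, hq.1⟩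
  have hPZ : P.card ≤ Z := by
    refine (Finset.card_filter_le _ _).trans ?_
    rw [Nat.card_Ioc]
    omega
  have hidx : (Icc 1 Z).filter (fun q => q.Prime ∧ Y < q) = P := by
    ext q
    simp only [hP, mem_filter, mem_Icc, mem_Ioc]
    constructor
    · rintro ⟨⟨a1, a2⟩, a3, a4⟩
      exact ⟨⟨a4, a2⟩, a3⟩
    · rintro ⟨⟨a4, a2⟩, a3⟩
      exact ⟨⟨a3.pos, a2⟩, a3, a4⟩
  have hmuP : ∑ q ∈ P, 1 / ((q : ℝ) - 1) ≤ 2 :=
    hmux P fun q hq => ⟨(hPS q hq).1, (hPS q hq).2.1, (hPS q hq).2.2.trans n6⟩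
  set c := Dual_c x B with hc
  set f : ℤ → ℝ := fun n => ∑ a ∈ S, TT P (c a) a n with hf
  -- the left side
  have hleft : ∑ q ∈ (Icc 1 Z).filter (fun q => q.Prime ∧ Y < q),
        ∑ a ∈ (B q).filter (fun a => ¬ (q : ℤ) ∣ a), |EE x q a| =
      ∑ p ∈ (Icc 1 x).filter Nat.Prime, f (p : ℤ) := by
    rw [hidx]
    simp only [hf]
    rw [Finset.sum_comm]
    simp only [tt_sum]
    rw [Finset.sum_comm]
    exact Finset.sum_congr rfl fun q _ => Dual_c_sum (hB q).1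
  rw [hleft, ← Finset.sum_filter_add_sum_filter_not ((Icc 1 x).filter Nat.Prime)
    (fun p : ℕ => p ≤ D ∨ (p : ℤ) ∈ S)]
  -- bad primes
  have hfb : ∀ n, |f n| ≤ S.card * Z := by
    intro n
    simp only [hf]
    calc _ ≤ ∑ a ∈ S, |TT P (c a) a n| := Finset.abs_sum_le_sum_abs _ _
      _ ≤ ∑ _a ∈ S, (Z : ℝ) := Finset.sum_le_sum fun a _ =>
          Dual_TT_le hPS (fun q => Dual_c_le x B a q) hPZ a n
      _ = _ := by rw [Finset.sum_const, nsmul_eq_mul]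
  obtain ⟨m1, m2⟩ := n11 S.card (Nat.cast_nonneg _) hSc
  have hb := (Dual_bad (x := x) (D := D) hfb).trans m2
  -- good primes
  obtain ⟨ρ, r1, r2, r3⟩ := sw_exists D n1
  have hJ : 2 ≤ (Z ^ 2 * D ^ 2).factorial := by
    have h1 : 4 ≤ Z ^ 2 * D ^ 2 := by
      have h2 : 4 ^ 2 ≤ Z ^ 2 := Nat.pow_le_pow_left n5 2
      have h3 : 1 ≤ D ^ 2 := Nat.one_le_pow _ _ (by omega)
      nlinarith
    exact (by omega : 2 ≤ Z ^ 2 * D ^ 2).trans (Nat.self_le_factorial _)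
  have htx := htot x (Z ^ 2 * D ^ 2).factorial D Y Z hx2 (by omega) (by omega) n2 n3 n4 n5 n7 n8
    (fun k k1 k2 => (Nat.dvd_factorial k1 k2).mul_left _) ρ r1 r2 P hPS hmuP S hS c
    (fun a q => Dual_c_le x B a q)
  have hcnt : ∑ a ∈ S, ∑ q ∈ P, |c a q| / q ≤ 2 * K := by
    rw [Finset.sum_comm]
    calc ∑ q ∈ P, ∑ a ∈ S, |c a q| / q ≤ ∑ q ∈ P, (K : ℝ) * (1 / ((q : ℝ) - 1)) := by
          refine Finset.sum_le_sum fun q hq => ?_
          rw [← Finset.sum_div]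
          have h2 : (2 : ℝ) ≤ q := by exact_mod_cast (hPS q hq).1.two_le
          have h3 := Dual_c_count (x := x) (S := S) (B := B) (q := q) (hB q).2
          rw [mul_one_div]
          exact div_le_div₀ (by linarith) h3 (by linarith) (by linarith)
      _ = K * ∑ q ∈ P, 1 / ((q : ℝ) - 1) := by rw [Finset.mul_sum]
      _ ≤ K * 2 := mul_le_mul_of_nonneg_left hmuP (by linarith)
      _ = 2 * K := by ring
  have hGG : GG D ρ ≤ 4 / (ν * Real.log x) := by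
    refine r3.trans ?_
    have h1 : 0 < ν / 2 * Real.log x := by positivity
    calc 2 / Real.log D ≤ 2 / (ν / 2 * Real.log x) :=
          div_le_div_of_nonneg_left (by norm_num) h1 n9
      _ = 4 / (ν * Real.log x) := by
          field_simp
          ring
  have hV : ∑ n ∈ (RW x (Z ^ 2 * D ^ 2).factorial).filter (fun n => n ∉ S),
      ww x (Z ^ 2 * D ^ 2).factorial n * lam D ρ n * f n ^ 2 ≤
        (8000 / ν + 1) * K * (x / Real.log x) := by
    have h1 : 1000 * x * GG D ρ * (∑ a ∈ S, ∑ q ∈ P, |c a q| / q) ≤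
        1000 * x * (4 / (ν * Real.log x)) * (2 * K) := by
      refine mul_le_mul ?_ hcnt ?_ (by positivity)
      · exact mul_le_mul_of_nonneg_left hGG (by positivity)
      · exact Finset.sum_nonneg fun a _ => Finset.sum_nonneg fun q _ => by positivity
    have h2 : 1000 * x * (4 / (ν * Real.log x)) * (2 * K) = 8000 / ν * K * (x / Real.log x) := by
      field_simp
      ring
    have h3 : x / Real.log x ≤ K * (x / Real.log x) :=
      le_mul_of_one_le_left (by positivity) hK1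
    calc _ ≤ _ := htx
      _ ≤ 8000 / ν * K * (x / Real.log x) + x / Real.log x := by linarith
      _ ≤ 8000 / ν * K * (x / Real.log x) + K * (x / Real.log x) := by linarith
      _ = _ := by ring
  have hg := Dual_good (f := f) hx5 hJ r1 hV
  have hgs : Real.sqrt (Nat.primeCounting x * ((8000 / ν + 1) * K * (x / Real.log x))) ≤
      Real.sqrt (5 * (8000 / ν + 1)) * Real.sqrt K * (x / Real.log x) := by
    have h1 : (Nat.primeCounting x : ℝ) * ((8000 / ν + 1) * K * (x / Real.log x)) ≤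
        (5 * (8000 / ν + 1)) * K * (x / Real.log x) ^ 2 := by
      have h2 := mul_le_mul_of_nonneg_right (hpi x hx4)
        (show 0 ≤ (8000 / ν + 1) * K * (x / Real.log x) by positivity)
      refine h2.trans (le_of_eq ?_)
      ring
    refine (Real.sqrt_le_sqrt h1).trans (le_of_eq ?_)
    rw [Real.sqrt_mul (by positivity), Real.sqrt_mul (by positivity), Real.sqrt_sq (by positivity)]
  have hfin : x / Real.log x ≤ Real.sqrt K * (x / Real.log x) :=
    le_mul_of_one_le_left (by positivity) hsK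
  calc _ ≤ x / Real.log x + Real.sqrt (5 * (8000 / ν + 1)) * Real.sqrt K * (x / Real.log x) :=
        add_le_add ((le_abs_self _).trans hb) ((le_abs_self _).trans (hg.trans hgs))
    _ ≤ Real.sqrt K * (x / Real.log x) +
        Real.sqrt (5 * (8000 / ν + 1)) * Real.sqrt K * (x / Real.log x) := by linarith
    _ = _ := by ring

end Pool.Agent.H80.BE
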