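import Pool.Agent.H80.BE.Sw
import Pool.Agent.H80.KF.FejB

/-!
# BE Ex1: the sieved weight in one class

`lam n = ∑_{d,e ≤ D} ρ_d ρ_e 1_{lcm(d,e) ∣ n}` (`lam_expand`).  `ex_one`: for each `d, e` the conditions
`lcm(d,e) ∣ n`, `m ∣ n - c` are one class modulo `m lcm(d,e)` (coprime; Chinese remainder), `m lcm(d,e) ≤ m D² ≤ 2x`,
and `KF.ww_class_small` gives `π² x/(2 m lcm(d,e))`.
-/

set_option autoImplicit false

namespace Pool.Agent.H80.BE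

open Finset
open Pool.Agent.H80.KF (ee kf ww RW fej)

private theorem Ex1_lcm (d e : ℕ) (n : ℤ) :
    ((Nat.lcm d e : ℕ) : ℤ) ∣ n ↔ ((d : ℤ) ∣ n ∧ (e : ℤ) ∣ n) := by
  rw [Int.natCast_dvd, Int.natCast_dvd, Int.natCast_dvd, Nat.lcm_dvd_iff]

theorem lam_expand (D : ℕ) (ρ : ℕ → ℝ) (n : ℤ) :
    lam D ρ n = ∑ d ∈ Icc 1 D, ∑ e ∈ Icc 1 D,
      ρ d * ρ e * (if ((Nat.lcm d e : ℕ) : ℤ) ∣ n then (1 : ℝ) else 0) := by
  unfold lam
  rw [Finset.sum_filter, sq, Finset.sum_mul_sum]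
  refine Finset.sum_congr rfl fun d _ => Finset.sum_congr rfl fun e _ => ?_
  by_cases h1 : (d : ℤ) ∣ n
  · by_cases h2 : (e : ℤ) ∣ n
    · rw [if_pos h1, if_pos h2, if_pos ((Ex1_lcm d e n).2 ⟨h1, h2⟩), mul_one]
    · rw [if_neg h2, if_neg (fun h => h2 ((Ex1_lcm d e n).1 h).2), mul_zero, mul_zero]
  · rw [if_neg h1, if_neg (fun h => h1 ((Ex1_lcm d e n).1 h).1), mul_zero, zero_mul]

/-- two coprime conditions are one class -/
private theorem Ex1_crt (l m : ℕ) (h : Nat.Coprime l m) (c : ℤ) :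
    ∃ c' : ℤ, ∀ n : ℤ, ((l : ℤ) ∣ n ∧ (m : ℤ) ∣ n - c) ↔ ((m * l : ℕ) : ℤ) ∣ n - c' := by
  have hc : IsCoprime (l : ℤ) (m : ℤ) := Nat.isCoprime_iff_coprime.2 h
  obtain ⟨u, v, huv⟩ := hc
  refine ⟨u * l * c, fun n => ?_⟩
  have hc' : IsCoprime (m : ℤ) (l : ℤ) := (Nat.isCoprime_iff_coprime.2 h).symm
  constructor
  · rintro ⟨⟨a, ha⟩, ⟨b, hb⟩⟩
    push_cast
    refine hc'.mul_dvd ?_ ?_
    · refine ⟨b + v * c, ?_⟩
      have : n = c + m * b := by linarith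
      rw [this]
      have h2 : u * l = 1 - v * m := by linarith
      rw [h2]
      ring
    · refine ⟨a - u * c, ?_⟩
      rw [ha]
      ring
  · rintro ⟨k, hk⟩
    push_cast at hk
    constructor
    · refine ⟨u * c + m * k, ?_⟩
      have : n = u * l * c + m * l * k := by linarith
      rw [this]
      ring
    · refine ⟨l * k - v * c, ?_⟩
      have : n = u * l * c + m * l * k := by linarith
      rw [this]
      have h2 : u * l = 1 - v * m := by linarith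
      rw [h2]
      ring

private theorem Ex1_pair (x J D m : ℕ) (hx : 1 ≤ x) (hJ : 1 ≤ J) (hm : 1 ≤ m)
    (hdiv : ∀ k : ℕ, 1 ≤ k → k ≤ m * D ^ 2 → k ∣ 2 * x * J) (h : m * D ^ 2 ≤ 2 * x)
    (hcop : ∀ d : ℕ, 1 ≤ d → d ≤ D → Nat.Coprime d m) (c : ℤ) (d e : ℕ)
    (hd : d ∈ Icc 1 D) (he : e ∈ Icc 1 D) :
    ∑ n ∈ RW x J, ww x J n * ((if ((Nat.lcm d e : ℕ) : ℤ) ∣ n then (1 : ℝ) else 0) *
      (if (m : ℤ) ∣ n - c then (1 : ℝ) else 0)) =
      Real.pi ^ 2 * x / (2 * m) * (1 / ((Nat.lcm d e : ℕ) : ℝ)) := by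
  rw [Finset.mem_Icc] at hd he
  set l := Nat.lcm d e with hl
  have hl1 : 1 ≤ l := Nat.lcm_pos hd.1 he.1
  have hlD : l ≤ D ^ 2 := by
    calc l ≤ d * e := Nat.le_of_dvd (Nat.mul_pos hd.1 he.1) (Nat.lcm_dvd_mul d e)
      _ ≤ D * D := Nat.mul_le_mul hd.2 he.2
      _ = D ^ 2 := by ring
  have hlm : Nat.Coprime l m :=
    Nat.Coprime.coprime_dvd_left (Nat.lcm_dvd_mul d e)
      (Nat.Coprime.mul_left (hcop d hd.1 hd.2) (hcop e he.1 he.2))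
  obtain ⟨c', hc'⟩ := Ex1_crt l m hlm c
  have hml : m * l ≤ m * D ^ 2 := Nat.mul_le_mul_left m hlD
  have key := KF.ww_class_small x J (m * l) hx hJ (Nat.mul_pos hm hl1)
    (hdiv (m * l) (Nat.mul_pos hm hl1) hml) (hml.trans h) c'
  rw [Finset.sum_filter] at key
  have hmR : (m : ℝ) ≠ 0 := by
    have : (0 : ℝ) < m := by exact_mod_cast hm
    exact this.ne'
  have hlR : (l : ℝ) ≠ 0 := by
    have : (0 : ℝ) < l := by exact_mod_cast hl1
    exact this.ne'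
  calc ∑ n ∈ RW x J, ww x J n * ((if ((l : ℕ) : ℤ) ∣ n then (1 : ℝ) else 0) *
      (if (m : ℤ) ∣ n - c then (1 : ℝ) else 0))
      = ∑ n ∈ RW x J, (if ((m * l : ℕ) : ℤ) ∣ n - c' then ww x J n else 0) := by
        refine Finset.sum_congr rfl fun n _ => ?_
        by_cases h1 : ((l : ℕ) : ℤ) ∣ n
        · by_cases h2 : (m : ℤ) ∣ n - c
          · rw [if_pos h1, if_pos h2, if_pos ((hc' n).1 ⟨h1, h2⟩), mul_one, mul_one]
          · rw [if_neg h2, if_neg (fun h => h2 ((hc' n).2 h).2), mul_zero, mul_zero]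
        · rw [if_neg h1, if_neg (fun h => h1 ((hc' n).2 h).1), zero_mul, mul_zero]
    _ = Real.pi ^ 2 * x / (2 * ((m * l : ℕ) : ℝ)) := key
    _ = Real.pi ^ 2 * x / (2 * m) * (1 / (l : ℝ)) := by
        push_cast
        field_simp

theorem ex_one (x J D m : ℕ) (ρ : ℕ → ℝ) (hx : 1 ≤ x) (hJ : 1 ≤ J) (hm : 1 ≤ m) (hD : 1 ≤ D)
    (hdiv : ∀ k : ℕ, 1 ≤ k → k ≤ m * D ^ 2 → k ∣ 2 * x * J) (h : m * D ^ 2 ≤ 2 * x)
    (hcop : ∀ d : ℕ, 1 ≤ d → d ≤ D → Nat.Coprime d m) (c : ℤ) :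
    ∑ n ∈ RW x J, ww x J n * lam D ρ n * (if (m : ℤ) ∣ n - c then (1 : ℝ) else 0) =
      Real.pi ^ 2 * x / (2 * m) * GG D ρ := by
  calc ∑ n ∈ RW x J, ww x J n * lam D ρ n * (if (m : ℤ) ∣ n - c then (1 : ℝ) else 0)
      = ∑ n ∈ RW x J, ∑ d ∈ Icc 1 D, ∑ e ∈ Icc 1 D, ρ d * ρ e * (ww x J n *
          ((if ((Nat.lcm d e : ℕ) : ℤ) ∣ n then (1 : ℝ) else 0) *
            (if (m : ℤ) ∣ n - c then (1 : ℝ) else 0))) := by
        refine Finset.sum_congr rfl fun n _ => ?_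
        rw [lam_expand, Finset.mul_sum, Finset.sum_mul]
        refine Finset.sum_congr rfl fun d _ => ?_
        rw [Finset.mul_sum, Finset.sum_mul]
        refine Finset.sum_congr rfl fun e _ => ?_
        ring
    _ = ∑ d ∈ Icc 1 D, ∑ e ∈ Icc 1 D, ρ d * ρ e * ∑ n ∈ RW x J, (ww x J n *
          ((if ((Nat.lcm d e : ℕ) : ℤ) ∣ n then (1 : ℝ) else 0) *
            (if (m : ℤ) ∣ n - c then (1 : ℝ) else 0))) := by
        rw [Finset.sum_comm]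
        refine Finset.sum_congr rfl fun d _ => ?_
        rw [Finset.sum_comm]
        refine Finset.sum_congr rfl fun e _ => ?_
        rw [Finset.mul_sum]
    _ = ∑ d ∈ Icc 1 D, ∑ e ∈ Icc 1 D, ρ d * ρ e *
          (Real.pi ^ 2 * x / (2 * m) * (1 / ((Nat.lcm d e : ℕ) : ℝ))) := by
        refine Finset.sum_congr rfl fun d hd => Finset.sum_congr rfl fun e he => ?_
        rw [Ex1_pair x J D m hx hJ hm hdiv h hcop c d e hd he]
    _ = Real.pi ^ 2 * x / (2 * m) * GG D ρ := by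
        unfold GG
        rw [Finset.mul_sum]
        refine Finset.sum_congr rfl fun d _ => ?_
        rw [Finset.mul_sum]
        refine Finset.sum_congr rfl fun e _ => ?_
        ring

/-- no class -/
theorem ex_zero (x J D : ℕ) (ρ : ℕ → ℝ) (hx : 1 ≤ x) (hJ : 1 ≤ J) (hD : 1 ≤ D)
    (hdiv : ∀ k : ℕ, 1 ≤ k → k ≤ D ^ 2 → k ∣ 2 * x * J) (h : D ^ 2 ≤ 2 * x) :
    ∑ n ∈ RW x J, ww x J n * lam D ρ n = Real.pi ^ 2 * x / 2 * GG D ρ := by
  have h1 := ex_one x J D 1 ρ hx hJ le_rfl hD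
    (fun k hk1 hk2 => hdiv k hk1 (by rwa [one_mul] at hk2)) (by rwa [one_mul])
    (fun d _ _ => Nat.coprime_one_right d) 0
  have h2 : ∀ n ∈ RW x J, ww x J n * lam D ρ n * (if ((1 : ℕ) : ℤ) ∣ n - 0 then (1 : ℝ) else 0) =
      ww x J n * lam D ρ n := fun n _ => by
    rw [if_pos (by rw [Nat.cast_one]; exact one_dvd _), mul_one]
  rw [Finset.sum_congr rfl h2, Nat.cast_one, mul_one] at h1
  exact h1

end Pool.Agent.H80.BE
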