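import Pool.Agent.H80.BE.Defs
import Pool.Agent.H91.EHA.GMain

/-!
# BE Small: the primes `q ≤ x^{1/3}` (Bombieri-Vinogradov)

For each prime `q` let `b q ∈ B q`, `q ∤ b q`, maximize `|EE x q a|` (if there is such an `a`); the inner sum is
`≤ K |EE x q (b q)|`, and `EE x q a = Pool.Agent.H91.EHA.err x q (a : ZMod q)` (`(q:ℤ) ∣ p - a` iff `(p : ZMod q) = a`,
`φ(q) = q - 1`).  `Pool.Agent.H91.EHA.classes_sum` with `θ = 1/3`, `ε = 1/4`, `H = 1`, `T q = {b q}` (`∅` if there is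
no such `a` or `q` is not prime); `q² ≤ x^{2/3} ≤ x^{3/4}`.
-/

set_option autoImplicit false

namespace Pool.Agent.H80.BE

open Finset

private theorem Small_err (x q : ℕ) (hq : q.Prime) (a : ℤ) :
    EE x q a = Pool.Agent.H91.EHA.err x q (a : ZMod q) := by
  unfold EE Pool.Agent.H91.EHA.err
  have h1 : ((Nat.totient q : ℕ) : ℝ) = (q : ℝ) - 1 := by
    rw [Nat.totient_prime hq, Nat.cast_pred hq.pos]
  rw [h1]
  congr 2
  refine congrArg card (filter_congr fun p _ => ?_)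
  refine and_congr_right fun _ => ?_
  rw [← ZMod.intCast_zmod_eq_zero_iff_dvd]
  push_cast
  exact sub_eq_zero

private theorem Small_unit {q : ℕ} (hq : q.Prime) {a : ℤ} (ha : ¬ (q : ℤ) ∣ a) :
    IsUnit ((a : ZMod q)) := by
  have : Fact q.Prime := ⟨hq⟩
  rw [isUnit_iff_ne_zero]
  intro h
  exact ha ((ZMod.intCast_zmod_eq_zero_iff_dvd a q).1 h)

/-- the maximal class -/
private theorem Small_max (x q K : ℕ) (B : Finset ℤ) (hB : B.card ≤ K) :
    ∃ T : Finset (ZMod q), (T.card : ℝ) ≤ 1 ∧ (∀ a ∈ T, IsUnit a) ∧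
      (q.Prime → ∑ a ∈ B.filter (fun a => ¬ (q : ℤ) ∣ a), |EE x q a| ≤
        K * ∑ a ∈ T, |Pool.Agent.H91.EHA.err x q a|) := by
  by_cases hq : q.Prime
  swap
  · exact ⟨∅, by simp, by simp, fun h => absurd h hq⟩
  rcases (B.filter (fun a => ¬ (q : ℤ) ∣ a)).eq_empty_or_nonempty with he | hne
  · refine ⟨∅, by simp, by simp, fun _ => ?_⟩
    rw [he]
    simp
  · obtain ⟨b, hb, hmax⟩ := exists_max_image _ (fun a => |EE x q a|) hne
    refine ⟨{(b : ZMod q)}, by simp, ?_, fun _ => ?_⟩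
    · intro a ha
      rw [mem_singleton] at ha
      rw [ha]
      exact Small_unit hq (mem_filter.1 hb).2
    · rw [sum_singleton, ← Small_err x q hq b]
      refine (sum_le_card_nsmul _ _ _ hmax).trans ?_
      rw [nsmul_eq_mul]
      refine mul_le_mul_of_nonneg_right ?_ (abs_nonneg _)
      exact_mod_cast (card_filter_le _ _).trans hB

theorem small (A : ℕ) : ∃ x0 : ℕ, ∀ x : ℕ, x0 ≤ x → ∀ (K : ℕ) (B : ℕ → Finset ℤ),
    (∀ q, (B q).card ≤ K) →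
    ∑ q ∈ (Icc 1 ⌊(x : ℝ) ^ ((1 : ℝ) / 3)⌋₊).filter Nat.Prime,
      ∑ a ∈ (B q).filter (fun a => ¬ (q : ℤ) ∣ a), |EE x q a| ≤ K * x / Real.log x ^ A := by
  obtain ⟨x1, hx1⟩ := Pool.Agent.H91.EHA.classes_sum (1 / 3) (1 / 4) (by norm_num) (by norm_num) A
  refine ⟨max x1 1, fun x hx K B hB => ?_⟩
  have hxx : x1 ≤ x := (le_max_left _ _).trans hx
  have hx2 : 1 ≤ x := (le_max_right _ _).trans hx
  have hxr : (1 : ℝ) ≤ x := by exact_mod_cast hx2
  have hx0 : (0 : ℝ) < x := by linarith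
  choose T hT1 hT2 hT3 using fun q => Small_max x q K (B q) (hB q)
  have h := hx1 x hxx 1 T le_rfl hT1 hT2
  have hnn : ∀ q, 0 ≤ ∑ a ∈ T q, |Pool.Agent.H91.EHA.err x q a| := fun q =>
    sum_nonneg fun _ _ => abs_nonneg _
  calc ∑ q ∈ (Icc 1 ⌊(x : ℝ) ^ ((1 : ℝ) / 3)⌋₊).filter Nat.Prime,
        ∑ a ∈ (B q).filter (fun a => ¬ (q : ℤ) ∣ a), |EE x q a| ≤
      ∑ q ∈ (Icc 1 ⌊(x : ℝ) ^ ((1 : ℝ) / 3)⌋₊).filter Nat.Prime,
        (K : ℝ) * ∑ a ∈ T q, |Pool.Agent.H91.EHA.err x q a| :=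
        sum_le_sum fun q hq => hT3 q (mem_filter.1 hq).2
    _ = (K : ℝ) * ∑ q ∈ (Icc 1 ⌊(x : ℝ) ^ ((1 : ℝ) / 3)⌋₊).filter Nat.Prime,
        ∑ a ∈ T q, |Pool.Agent.H91.EHA.err x q a| := by rw [mul_sum]
    _ ≤ (K : ℝ) * (1 * x / Real.log x ^ A) := by
        refine mul_le_mul_of_nonneg_left (le_trans ?_ h) (Nat.cast_nonneg _)
        refine sum_le_sum_of_subset_of_nonneg ?_ fun q _ _ => hnn q
        intro q hq
        rw [mem_filter] at hq ⊢
        refine ⟨hq.1, ?_⟩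
        have hq1 : (q : ℝ) ≤ (x : ℝ) ^ ((1 : ℝ) / 3) := by
          have h1 := (mem_Icc.1 hq.1).2
          exact (Nat.le_floor_iff (by positivity)).1 h1
        calc (q : ℝ) ^ 2 ≤ ((x : ℝ) ^ ((1 : ℝ) / 3)) ^ 2 :=
              pow_le_pow_left₀ (Nat.cast_nonneg _) hq1 2
          _ = (x : ℝ) ^ ((2 : ℝ) / 3) := by
              rw [← Real.rpow_natCast, ← Real.rpow_mul hx0.le]
              norm_num
          _ ≤ (x : ℝ) ^ (1 - 1 / 4 : ℝ) := Real.rpow_le_rpow_of_exponent_le hxr (by norm_num)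
          _ = 1 * (x : ℝ) ^ (1 - 1 / 4 : ℝ) := (one_mul _).symm
    _ = K * x / Real.log x ^ A := by ring

end Pool.Agent.H80.BE
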