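import Pool.Agent.H80.BE.Dual
import Pool.Agent.H80.BE.Small

/-!
# BE Fin: the three forms of the theorem

* `fin_A`: `dual` and `small`; for `x ≥ 1`, `θ ≥ 1/3` the primes `q ≤ ⌊x^θ⌋` are those `≤ ⌊x^{1/3}⌋` and the others.
* `fin_B` (bounded number of exceptional residues): `κ = (50 - 99θ)/200`.  If more than `C'/η²` integers `a ∈ [-x,x]`
  have `∑_q |EE x q a| > η π(x)`, take a set `S` of `K = ⌊C'/η²⌋ + 1` of them (`K ≤ x^κ` for large `x`), `B q = S`; by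
  `fin_A` with `A = 2` and `π(x) ≥ x/(2 log x)` (`pi_ge`): `K η x/(2 log x) ≤ C √K x/log x + K x/(log x)²`, and for
  `log x ≥ 4/η`: `K η/4 ≤ C √K`, `K ≤ 16 C²/η²`; choose `C' = 16 C²`.
* `fin_C` (maximum inside the sum): `K = ⌊C'/η²⌋`; `B q` = the `K` elements of `{a ∈ S : q ∤ a}` with the largest
  `|EE x q a|` (all of them if there are at most `K`); for `r q ∈ S \ B q`, `q ∤ r q`:
  `|EE x q (r q)| ≤ (1/K) ∑_{a ∈ B q} |EE x q a|`; `fin_A` with `A = 2`: `∑_q |EE x q (r q)| ≤ C x/(√K log x) + x/(log x)²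
  ≤ η π(x)` for large `x`, if `K ≥ 16 C²/η²`, so `C' = 16 C² + 1` (`η ≤ 1`, so `⌊C'/η²⌋ ≥ 16C²/η²`).
-/

set_option autoImplicit false

namespace Pool.Agent.H80.BE

open Finset

theorem fin_A (θ κ : ℝ) (hθ : 1 / 2 ≤ θ) (hκ : 0 ≤ κ) (h : 99 * θ + 100 * κ < 50) :
    ∃ C : ℝ, 0 < C ∧ ∀ A : ℕ, ∃ x0 : ℕ, ∀ x : ℕ, x0 ≤ x → ∀ S : Finset ℤ,
      (∀ a ∈ S, |a| ≤ (x : ℤ)) → (S.card : ℝ) ≤ (x : ℝ) ^ κ → ∀ (K : ℕ) (B : ℕ → Finset ℤ),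
      (∀ q, B q ⊆ S ∧ (B q).card ≤ K) →
      ∑ q ∈ (Icc 1 ⌊(x : ℝ) ^ θ⌋₊).filter Nat.Prime,
        ∑ a ∈ (B q).filter (fun a => ¬ (q : ℤ) ∣ a), |EE x q a| ≤
      C * Real.sqrt K * x / Real.log x + K * x / Real.log x ^ A := by
  obtain ⟨C, hC, x1, h1⟩ := dual θ κ hθ hκ h
  refine ⟨C, hC, fun A => ?_⟩
  obtain ⟨x2, h2⟩ := small A
  refine ⟨max 1 (max x1 x2), fun x hx S hS hSc K B hB => ?_⟩
  have hx0 : 1 ≤ x := (le_max_left _ _).trans hx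
  have hx1 : x1 ≤ x := ((le_max_left _ _).trans (le_max_right _ _)).trans hx
  have hx2 : x2 ≤ x := ((le_max_right _ _).trans (le_max_right _ _)).trans hx
  have e1 := h1 x hx1 S hS hSc K B hB
  have e2 := h2 x hx2 K B (fun q => (hB q).2)
  have hxr : (1 : ℝ) ≤ x := by exact_mod_cast hx0
  have hYZ : ⌊(x : ℝ) ^ ((1 : ℝ) / 3)⌋₊ ≤ ⌊(x : ℝ) ^ θ⌋₊ := by
    apply Nat.floor_le_floor
    apply Real.rpow_le_rpow_of_exponent_le hxr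
    linarith
  have hsplit : (Icc 1 ⌊(x : ℝ) ^ θ⌋₊).filter Nat.Prime =
      (Icc 1 ⌊(x : ℝ) ^ ((1 : ℝ) / 3)⌋₊).filter Nat.Prime ∪
      (Icc 1 ⌊(x : ℝ) ^ θ⌋₊).filter (fun q => q.Prime ∧ ⌊(x : ℝ) ^ ((1 : ℝ) / 3)⌋₊ < q) := by
    ext q
    rw [Finset.mem_union, Finset.mem_filter, Finset.mem_filter, Finset.mem_filter, Finset.mem_Icc,
      Finset.mem_Icc]
    constructor
    · rintro ⟨⟨a1, a2⟩, a3⟩
      rcases Nat.lt_or_ge ⌊(x : ℝ) ^ ((1 : ℝ) / 3)⌋₊ q with h3 | h3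
      · exact Or.inr ⟨⟨a1, a2⟩, a3, h3⟩
      · exact Or.inl ⟨⟨a1, h3⟩, a3⟩
    · rintro (⟨⟨a1, a2⟩, a3⟩ | ⟨⟨a1, a2⟩, a3, a4⟩)
      · exact ⟨⟨a1, a2.trans hYZ⟩, a3⟩
      · exact ⟨⟨a1, a2⟩, a3⟩
  have hdisj : Disjoint ((Icc 1 ⌊(x : ℝ) ^ ((1 : ℝ) / 3)⌋₊).filter Nat.Prime)
      ((Icc 1 ⌊(x : ℝ) ^ θ⌋₊).filter
        (fun q => q.Prime ∧ ⌊(x : ℝ) ^ ((1 : ℝ) / 3)⌋₊ < q)) := by
    rw [Finset.disjoint_left]
    intro q hq hq'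
    rw [Finset.mem_filter, Finset.mem_Icc] at hq hq'
    omega
  rw [hsplit, Finset.sum_union hdisj]
  linarith

end Pool.Agent.H80.BE
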