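import Pool.Agent.H80.BE.Fin

/-!
# BE FinB: bounded number of exceptional residues (plan in `Fin.lean`)
-/

set_option autoImplicit false

namespace Pool.Agent.H80.BE

open Finset

theorem fin_B (θ : ℝ) (hθ : 1 / 2 ≤ θ) (h : θ < 50 / 99) :
    ∃ C : ℝ, 0 < C ∧ ∀ η : ℝ, 0 < η → ∃ x0 : ℕ, ∀ x : ℕ, x0 ≤ x →
      (((Icc (-(x : ℤ)) x).filter (fun a : ℤ => η * (Nat.primeCounting x : ℝ) <
        ∑ q ∈ (Icc 1 ⌊(x : ℝ) ^ θ⌋₊).filter (fun q : ℕ => q.Prime ∧ ¬ (q : ℤ) ∣ a),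
          |EE x q a|)).card : ℝ) ≤ C / η ^ 2 := by
  have hκ0 : 0 < (50 - 99 * θ) / 200 := by
    have : 99 * θ < 50 := by linarith
    linarith
  obtain ⟨C0, hC0, hA⟩ := fin_A θ ((50 - 99 * θ) / 200) hθ hκ0.le (by linarith)
  refine ⟨16 * C0 ^ 2, by positivity, fun η hη => ?_⟩
  obtain ⟨x1, hx1⟩ := hA 2
  obtain ⟨x2, hx2⟩ := pi_ge
  set K : ℕ := ⌊16 * C0 ^ 2 / η ^ 2⌋₊ + 1 with hK
  have e1 : ∀ᶠ x : ℕ in Filter.atTop, (K : ℝ) ≤ (x : ℝ) ^ ((50 - 99 * θ) / 200) :=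
    ((tendsto_rpow_atTop hκ0).comp tendsto_natCast_atTop_atTop).eventually_ge_atTop _
  have e2 : ∀ᶠ x : ℕ in Filter.atTop, 4 / η ≤ Real.log x :=
    (Real.tendsto_log_atTop.comp tendsto_natCast_atTop_atTop).eventually_ge_atTop _
  obtain ⟨x3, hx3⟩ := Filter.eventually_atTop.1 (e1.and e2)
  refine ⟨max (max x1 x2) (max x3 2), fun x hx => ?_⟩
  have hxa : x1 ≤ x := le_trans (le_trans (le_max_left _ _) (le_max_left _ _)) hx
  have hxb : x2 ≤ x := le_trans (le_trans (le_max_right _ _) (le_max_left _ _)) hx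
  have hxc : x3 ≤ x := le_trans (le_trans (le_max_left _ _) (le_max_right _ _)) hx
  have hxd : 2 ≤ x := le_trans (le_trans (le_max_right _ _) (le_max_right _ _)) hx
  obtain ⟨hx4, hx5⟩ := hx3 x hxc
  have hx0 : (0 : ℝ) < x := by
    have : 0 < x := by omega
    exact_mod_cast this
  have hlog : 0 < Real.log x := lt_of_lt_of_le (by positivity) hx5
  by_contra hcon
  rw [not_le] at hcon
  have hcard : K ≤ ((Icc (-(x : ℤ)) x).filter (fun a : ℤ => η * (Nat.primeCounting x : ℝ) <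
        ∑ q ∈ (Icc 1 ⌊(x : ℝ) ^ θ⌋₊).filter (fun q : ℕ => q.Prime ∧ ¬ (q : ℤ) ∣ a),
          |EE x q a|)).card := by
    have h1 := (Nat.floor_le (show 0 ≤ 16 * C0 ^ 2 / η ^ 2 by positivity)).trans_lt hcon
    have h2 := Nat.cast_lt.1 h1
    omega
  obtain ⟨S, hSE, hSK⟩ := Finset.exists_subset_card_eq hcard
  have hSmem : ∀ a ∈ S, |a| ≤ (x : ℤ) ∧ η * (Nat.primeCounting x : ℝ) <
        ∑ q ∈ (Icc 1 ⌊(x : ℝ) ^ θ⌋₊).filter (fun q : ℕ => q.Prime ∧ ¬ (q : ℤ) ∣ a),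
          |EE x q a| := by
    intro a ha
    have h1 := Finset.mem_filter.1 (hSE ha)
    refine ⟨abs_le.2 ?_, h1.2⟩
    have h2 := Finset.mem_Icc.1 h1.1
    exact h2
  have hmain := hx1 x hxa S (fun a ha => (hSmem a ha).1) (by rw [hSK]; exact hx4) K (fun _ => S)
    (fun q => ⟨Finset.Subset.refl _, hSK.le⟩)
  have hswap : ∑ q ∈ (Icc 1 ⌊(x : ℝ) ^ θ⌋₊).filter Nat.Prime,
      ∑ a ∈ S.filter (fun a => ¬ (q : ℤ) ∣ a), |EE x q a| =
      ∑ a ∈ S, ∑ q ∈ (Icc 1 ⌊(x : ℝ) ^ θ⌋₊).filter (fun q : ℕ => q.Prime ∧ ¬ (q : ℤ) ∣ a),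
        |EE x q a| := by
    have h1 : ∀ q ∈ (Icc 1 ⌊(x : ℝ) ^ θ⌋₊).filter Nat.Prime,
        ∑ a ∈ S.filter (fun a => ¬ (q : ℤ) ∣ a), |EE x q a| =
        ∑ a ∈ S, if ¬ (q : ℤ) ∣ a then |EE x q a| else 0 := fun q _ => Finset.sum_filter _ _
    rw [Finset.sum_congr rfl h1, Finset.sum_comm]
    refine Finset.sum_congr rfl fun a _ => ?_
    rw [← Finset.sum_filter, Finset.filter_filter]
  have hlow : (K : ℝ) * (η * (x / (2 * Real.log x))) ≤
      ∑ a ∈ S, ∑ q ∈ (Icc 1 ⌊(x : ℝ) ^ θ⌋₊).filter (fun q : ℕ => q.Prime ∧ ¬ (q : ℤ) ∣ a),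
        |EE x q a| := by
    rw [← hSK, ← nsmul_eq_mul]
    refine Finset.card_nsmul_le_sum _ _ _ fun a ha => ?_
    exact (mul_le_mul_of_nonneg_left (hx2 x hxb) hη.le).trans (hSmem a ha).2.le
  have hfin : (K : ℝ) * (η * (x / (2 * Real.log x))) ≤
      C0 * Real.sqrt K * x / Real.log x + K * x / Real.log x ^ 2 := by
    refine hlow.trans ?_
    rw [← hswap]
    exact hmain
  -- divide by `x / log x`
  have h1 : (K : ℝ) * η / 2 ≤ C0 * Real.sqrt K + K / Real.log x := by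
    have h2 : (K : ℝ) * (η * (x / (2 * Real.log x))) = (K * η / 2) * (x / Real.log x) := by
      field_simp
    have h3 : C0 * Real.sqrt K * x / Real.log x + K * x / Real.log x ^ 2 =
        (C0 * Real.sqrt K + K / Real.log x) * (x / Real.log x) := by
      field_simp
    rw [h2, h3] at hfin
    exact le_of_mul_le_mul_right hfin (by positivity)
  have hK1 : (1 : ℝ) ≤ K := by
    rw [hK]
    push_cast
    have : (0 : ℝ) ≤ (⌊16 * C0 ^ 2 / η ^ 2⌋₊ : ℝ) := Nat.cast_nonneg _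
    linarith
  have h4 : (K : ℝ) / Real.log x ≤ K * η / 4 := by
    rw [div_le_iff₀ hlog]
    have : 4 ≤ Real.log x * η := by
      rwa [div_le_iff₀ hη] at hx5
    nlinarith
  have h5 : (K : ℝ) * η / 4 ≤ C0 * Real.sqrt K := by linarith
  have hs : 0 < Real.sqrt K := Real.sqrt_pos.2 (by linarith)
  have hss : Real.sqrt K * Real.sqrt K = K := Real.mul_self_sqrt (by linarith)
  have h6 : Real.sqrt K * η ≤ 4 * C0 := by
    have : Real.sqrt K * (Real.sqrt K * η) ≤ Real.sqrt K * (4 * C0) := by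
      calc Real.sqrt K * (Real.sqrt K * η) = (K : ℝ) * η := by rw [← mul_assoc, hss]
        _ ≤ Real.sqrt K * (4 * C0) := by linarith
    exact le_of_mul_le_mul_left this hs
  have h7 : (K : ℝ) * η ^ 2 ≤ 16 * C0 ^ 2 := by
    have h8 : (Real.sqrt K * η) ^ 2 ≤ (4 * C0) ^ 2 := pow_le_pow_left₀ (by positivity) h6 2
    calc (K : ℝ) * η ^ 2 = (Real.sqrt K * η) ^ 2 := by rw [mul_pow, Real.sq_sqrt (by linarith)]
      _ ≤ (4 * C0) ^ 2 := h8
      _ = 16 * C0 ^ 2 := by ring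
  have h9 : (K : ℝ) ≤ 16 * C0 ^ 2 / η ^ 2 := by
    rw [le_div_iff₀ (by positivity)]
    exact h7
  have h10 := Nat.lt_floor_add_one (16 * C0 ^ 2 / η ^ 2)
  rw [hK] at h9
  push_cast at h9
  linarith

end Pool.Agent.H80.BE
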