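import Pool.Agent.H80.BE.Fin

/-!
# BE FinC: the maximum inside the sum (plan in `Fin.lean`)
-/

set_option autoImplicit false

namespace Pool.Agent.H80.BE

open Finset

/-- the `K` elements with the largest values -/
private theorem FinC_top (T : Finset ℤ) (f : ℤ → ℝ) (K : ℕ) (hK : K ≤ T.card) :
    ∃ B ⊆ T, B.card = K ∧ ∀ a ∈ T, a ∉ B → ∀ b ∈ B, f a ≤ f b := by
  classical
  induction K with
  | zero => exact ⟨∅, empty_subset _, card_empty, fun _ _ _ b hb => absurd hb (notMem_empty b)⟩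
  | succ K ih =>
    obtain ⟨B, hBT, hBc, hB⟩ := ih (by omega)
    have hne : (T \ B).Nonempty := by
      rw [← card_pos, card_sdiff_of_subset hBT]
      omega
    obtain ⟨m, hm, hmax⟩ := exists_max_image (T \ B) f hne
    rw [mem_sdiff] at hm
    refine ⟨insert m B, ?_, ?_, ?_⟩
    · intro y hy
      rcases mem_insert.1 hy with rfl | h
      · exact hm.1
      · exact hBT h
    · rw [card_insert_of_notMem hm.2, hBc]
    · intro a ha haB b hb
      rw [mem_insert, not_or] at haB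
      rcases mem_insert.1 hb with rfl | h
      · exact hmax a (mem_sdiff.2 ⟨ha, haB.2⟩)
      · exact hB a ha haB.2 b h

private theorem FinC_sel (T : Finset ℤ) (f : ℤ → ℝ) (K : ℕ) :
    ∃ B ⊆ T, B.card ≤ K ∧ ∀ a ∈ T, a ∉ B → (K : ℝ) * f a ≤ ∑ b ∈ B, f b := by
  by_cases hK : K ≤ T.card
  · obtain ⟨B, h1, h2, h3⟩ := FinC_top T f K hK
    refine ⟨B, h1, h2.le, fun a ha haB => ?_⟩
    rw [← h2, ← nsmul_eq_mul]
    exact card_nsmul_le_sum B f (f a) (h3 a ha haB)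
  · exact ⟨T, Subset.refl T, by omega, fun a ha haB => absurd ha haB⟩

theorem fin_C (θ κ : ℝ) (hθ : 1 / 2 ≤ θ) (hκ : 0 ≤ κ) (h : 99 * θ + 100 * κ < 50) :
    ∃ C : ℝ, 0 < C ∧ ∀ η : ℝ, 0 < η → η ≤ 1 → ∃ x0 : ℕ, ∀ x : ℕ, x0 ≤ x → ∀ S : Finset ℤ,
      (∀ a ∈ S, |a| ≤ (x : ℤ)) → (S.card : ℝ) ≤ (x : ℝ) ^ κ →
      ∃ B : ℕ → Finset ℤ, (∀ q, ((B q).card : ℝ) ≤ C / η ^ 2) ∧ ∀ r : ℕ → ℤ,
        ∑ q ∈ (Icc 1 ⌊(x : ℝ) ^ θ⌋₊).filter
            (fun q : ℕ => q.Prime ∧ r q ∈ S ∧ r q ∉ B q ∧ ¬ (q : ℤ) ∣ r q),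
          |EE x q (r q)| ≤ η * (Nat.primeCounting x : ℝ) := by
  obtain ⟨C0, hC0, hA⟩ := fin_A θ κ hθ hκ h
  obtain ⟨x1, hx1⟩ := hA 2
  obtain ⟨x2, hx2⟩ := pi_ge
  refine ⟨16 * C0 ^ 2 + 1, by positivity, fun η hη hη1 => ?_⟩
  have hev : ∀ᶠ x : ℕ in Filter.atTop, 4 / η ≤ Real.log x :=
    (Real.tendsto_log_atTop.comp tendsto_natCast_atTop_atTop).eventually_ge_atTop _
  obtain ⟨x3, hx3⟩ := Filter.eventually_atTop.1 hev
  refine ⟨max (max x1 x2) (max x3 1), fun x hx S hS hcard => ?_⟩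
  have g1 : x1 ≤ x := (le_max_left _ _).trans ((le_max_left _ _).trans hx)
  have g2 : x2 ≤ x := (le_max_right _ _).trans ((le_max_left _ _).trans hx)
  have g3 : x3 ≤ x := (le_max_left _ _).trans ((le_max_right _ _).trans hx)
  have g4 : 1 ≤ x := (le_max_right _ _).trans ((le_max_right _ _).trans hx)
  have hx0 : (0 : ℝ) < x := by exact_mod_cast g4
  have hlog := hx3 x g3
  have hη2 : η ^ 2 ≤ 1 := pow_le_one₀ hη.le hη1
  have hη20 : 0 < η ^ 2 := by positivity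
  set L := Real.log x with hL
  have hL0 : 0 < L := lt_of_lt_of_le (by positivity) hlog
  set K : ℕ := ⌊(16 * C0 ^ 2 + 1) / η ^ 2⌋₊ with hK
  have hKle : (K : ℝ) ≤ (16 * C0 ^ 2 + 1) / η ^ 2 := Nat.floor_le (by positivity)
  have hKge : 16 * C0 ^ 2 / η ^ 2 ≤ K := by
    have h1 := Nat.lt_floor_add_one ((16 * C0 ^ 2 + 1) / η ^ 2)
    rw [← hK] at h1
    have h2 : 1 ≤ 1 / η ^ 2 := by rw [le_div_iff₀ hη20]; linarith
    have h3 : (16 * C0 ^ 2 + 1) / η ^ 2 = 16 * C0 ^ 2 / η ^ 2 + 1 / η ^ 2 := by ring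
    linarith
  have hKpos : (0 : ℝ) < K := lt_of_lt_of_le (by positivity) hKge
  choose B hBT hBc hBtop using fun q : ℕ =>
    FinC_sel (S.filter (fun a => ¬ (q : ℤ) ∣ a)) (fun a => |EE x q a|) K
  refine ⟨B, fun q => ?_, fun r => ?_⟩
  · have : ((B q).card : ℝ) ≤ K := by exact_mod_cast hBc q
    exact this.trans hKle
  · have hmain := hx1 x g1 S hS hcard K B
      (fun q => ⟨(hBT q).trans (filter_subset _ _), hBc q⟩)
    have hfil : ∀ q, (B q).filter (fun a => ¬ (q : ℤ) ∣ a) = B q := by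
      intro q
      rw [filter_eq_self]
      intro a ha
      exact (mem_filter.1 (hBT q ha)).2
    have hterm : ∑ q ∈ (Icc 1 ⌊(x : ℝ) ^ θ⌋₊).filter
            (fun q : ℕ => q.Prime ∧ r q ∈ S ∧ r q ∉ B q ∧ ¬ (q : ℤ) ∣ r q), (K : ℝ) * |EE x q (r q)| ≤
        ∑ q ∈ (Icc 1 ⌊(x : ℝ) ^ θ⌋₊).filter Nat.Prime,
          ∑ a ∈ (B q).filter (fun a => ¬ (q : ℤ) ∣ a), |EE x q a| := by
      calc ∑ q ∈ (Icc 1 ⌊(x : ℝ) ^ θ⌋₊).filter
            (fun q : ℕ => q.Prime ∧ r q ∈ S ∧ r q ∉ B q ∧ ¬ (q : ℤ) ∣ r q), (K : ℝ) * |EE x q (r q)|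
          ≤ ∑ q ∈ (Icc 1 ⌊(x : ℝ) ^ θ⌋₊).filter
            (fun q : ℕ => q.Prime ∧ r q ∈ S ∧ r q ∉ B q ∧ ¬ (q : ℤ) ∣ r q),
            ∑ a ∈ (B q).filter (fun a => ¬ (q : ℤ) ∣ a), |EE x q a| := by
            refine sum_le_sum fun q hq => ?_
            rw [mem_filter] at hq
            obtain ⟨_, _, hrS, hrB, hrq⟩ := hq
            rw [hfil q]
            exact hBtop q (r q) (mem_filter.2 ⟨hrS, hrq⟩) hrB
        _ ≤ _ := by
            refine sum_le_sum_of_subset_of_nonneg ?_ (fun q _ _ => sum_nonneg fun a _ => abs_nonneg _)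
            intro q hq
            rw [mem_filter] at hq ⊢
            exact ⟨hq.1, hq.2.1⟩
    rw [← mul_sum] at hterm
    have hπ := hx2 x g2
    have hs : Real.sqrt K ^ 2 = K := Real.sq_sqrt hKpos.le
    have hs0 : 0 < Real.sqrt K := Real.sqrt_pos.2 hKpos
    have hs1 : 4 * C0 / η ≤ Real.sqrt K := by
      apply Real.le_sqrt_of_sq_le
      have e1 : (4 * C0 / η) ^ 2 = 16 * C0 ^ 2 / η ^ 2 := by ring
      rw [e1]
      exact hKge
    have hs2 : 4 * C0 ≤ η * Real.sqrt K := by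
      rw [div_le_iff₀ hη] at hs1
      linarith
    have hl2 : 4 ≤ η * L := by
      rw [div_le_iff₀ hη] at hlog
      linarith
    have hxL : 0 < x / L := by positivity
    have b1 : C0 * Real.sqrt K * x / L ≤ K * (η / 4 * (x / L)) := by
      have e1 : C0 * Real.sqrt K * x / L = (C0 * Real.sqrt K) * (x / L) := by ring
      have e2 : K * (η / 4 * (x / L)) = (K * (η / 4)) * (x / L) := by ring
      rw [e1, e2]
      refine mul_le_mul_of_nonneg_right ?_ hxL.le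
      have : C0 * Real.sqrt K ≤ (η * Real.sqrt K / 4) * Real.sqrt K :=
        mul_le_mul_of_nonneg_right (by linarith) hs0.le
      calc C0 * Real.sqrt K ≤ (η * Real.sqrt K / 4) * Real.sqrt K := this
        _ = Real.sqrt K ^ 2 * (η / 4) := by ring
        _ = K * (η / 4) := by rw [hs]
    have b2 : K * x / L ^ 2 ≤ K * (η / 4 * (x / L)) := by
      have e1 : K * x / L ^ 2 = (K * (x / L)) * (1 / L) := by
        field_simp
      have e2 : K * (η / 4 * (x / L)) = (K * (x / L)) * (η / 4) := by ring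
      rw [e1, e2]
      refine mul_le_mul_of_nonneg_left ?_ (by positivity)
      rw [div_le_iff₀ hL0]
      linarith
    have b3 : K * (η / 4 * (x / L)) + K * (η / 4 * (x / L)) ≤
        K * (η * (Nat.primeCounting x : ℝ)) := by
      have e1 : K * (η / 4 * (x / L)) + K * (η / 4 * (x / L)) = K * (η * (x / (2 * L))) := by
        field_simp
        ring
      rw [e1]
      exact mul_le_mul_of_nonneg_left (mul_le_mul_of_nonneg_left hπ hη.le) hKpos.le
    have hfin := hterm.trans (hmain.trans ((add_le_add b1 b2).trans b3))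
    exact le_of_mul_le_mul_left hfin hKpos

end Pool.Agent.H80.BE
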