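import Pool.Agent.H80.BE.Pr
import Pool.Agent.H80.BE.Ex2

/-!
# BE Off: two different residues

`L = log x`.  Expand `TT P c a n * TT P c' a' n`, sum over `n` first.  `A₀ = (π²x/2) GG` (`ex_zero`),
`A_q = (π²x/(2q)) GG` (`ex_one`, `m = q`, `q D² ≤ Z D² ≤ x`; `(d,q) = 1` for `d ≤ D ≤ Y < q`).
* `q ≠ q'`: `ex_two` (`q q' D² ≤ Z² D²`), `fej = 1 + (fej - 1)`: the sum is
  `(π²x/2) GG (1/q - 1/(q-1)) (1/q' - 1/(q'-1)) + (π²x/2) ∑_{d,e} ρ_d ρ_e (fej - 1)/(lcm(d,e) q q')`.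
  First part: `|1/q - 1/(q-1)| = 1/(q(q-1))`, `∑_{q > Y} 1/(q(q-1)) ≤ 1/Y`, `|GG| ≤ D²` (`gg_le`): `≤ 5 x D²/Y`
  (`π²/2 ≤ 5`).  Second part: for every `d, e` with `ρ_d ρ_e ≠ 0` the number `l = lcm(d,e) ≤ D²` is odd
  and coprime to all `q ∈ P`; `pair_sum` with `d := l`, `n0 := nz l · · a a'` (`nz_spec`), `l Z ≤ D² Z ≤ x`:
  `≤ D² · (π²x/2) · 32 D⁴ L² (D² Z)^{2-1/50}/x ≤ 160 D^{10} L² Z^{2-1/50}`.
* `q = q'`: the number of `q ∈ P` with `q ∣ a - a' ≠ 0`, `|a - a'| ≤ 2x`, is at most `log₂(2x) ≤ 2L`; each gives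
  `≤ (π²x/(2q)) |GG| ≤ 5 x D²/Y`; for the others the product of the two indicators is `0`; the remaining terms
  `≤ 3 (π²x/2) |GG| /(q-1)²`, `∑_{q > Y} 1/(q-1)² ≤ 2/Y`.
-/

set_option autoImplicit false

namespace Pool.Agent.H80.BE

open Finset
open Pool.Agent.H80.KF (ee kf ww RW fej)

/-- indicator of a residue class -/
private noncomputable def Off_I (q : ℕ) (a n : ℤ) : ℝ := if (q : ℤ) ∣ n - a then (1 : ℝ) else 0

private theorem Off_exp (R : Finset ℤ) (w : ℤ → ℝ) (P : Finset ℕ) (c c' : ℕ → ℝ) (a a' : ℤ) :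
    ∑ n ∈ R, w n * (TT P c a n * TT P c' a' n) = ∑ q ∈ P, ∑ q' ∈ P, c q * c' q' *
      (∑ n ∈ R, w n * (Off_I q a n * Off_I q' a' n) -
        1 / ((q' : ℝ) - 1) * ∑ n ∈ R, w n * Off_I q a n -
        1 / ((q : ℝ) - 1) * ∑ n ∈ R, w n * Off_I q' a' n +
        1 / ((q : ℝ) - 1) * (1 / ((q' : ℝ) - 1)) * ∑ n ∈ R, w n) := by
  have h1 : ∀ n ∈ R, w n * (TT P c a n * TT P c' a' n) = ∑ q ∈ P, ∑ q' ∈ P,
      c q * c' q' * (w n * (Off_I q a n * Off_I q' a' n) -
        1 / ((q' : ℝ) - 1) * (w n * Off_I q a n) -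
        1 / ((q : ℝ) - 1) * (w n * Off_I q' a' n) +
        1 / ((q : ℝ) - 1) * (1 / ((q' : ℝ) - 1)) * w n) := by
    intro n _
    unfold TT
    rw [sum_mul_sum, mul_sum]
    apply sum_congr rfl
    intro q _
    rw [mul_sum]
    apply sum_congr rfl
    intro q' _
    unfold Off_I
    ring
  rw [sum_congr rfl h1, sum_comm]
  apply sum_congr rfl
  intro q _
  rw [sum_comm]
  apply sum_congr rfl
  intro q' _
  rw [← mul_sum, sum_add_distrib, sum_sub_distrib, sum_sub_distrib, mul_sum, mul_sum, mul_sum]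

private theorem Off_tel {Y Z : ℕ} (hY : 1 ≤ Y) {P : Finset ℕ} (hP : PS Y Z P) :
    ∑ q ∈ P, 1 / ((q : ℝ) * ((q : ℝ) - 1)) ≤ 1 / Y := by
  have hsub : P ⊆ Ioc Y (max Y Z) := by
    intro q hq
    obtain ⟨_, h1, h2⟩ := hP q hq
    exact mem_Ioc.2 ⟨h1, h2.trans (le_max_right _ _)⟩
  have htel : ∀ M, Y ≤ M → ∑ q ∈ Ioc Y M, 1 / ((q : ℝ) * ((q : ℝ) - 1)) = 1 / Y - 1 / M := by
    intro M hM
    induction M, hM using Nat.le_induction with
    | base => simp
    | succ m hm ih =>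
      rw [← insert_Ioc_right_eq_Ioc_add_one hm, sum_insert (by simp), ih]
      have h1 : (0 : ℝ) < m := by exact_mod_cast (lt_of_lt_of_le hY hm)
      have h3 : (1 : ℝ) / ((((m + 1 : ℕ) : ℝ)) * (((m + 1 : ℕ) : ℝ) - 1)) =
          1 / (m : ℝ) - 1 / ((m + 1 : ℕ) : ℝ) := by
        push_cast
        rw [add_sub_cancel_right, div_sub_div _ _ h1.ne' (by positivity)]
        congr 1 <;> ring
      rw [h3]
      ring
  calc ∑ q ∈ P, 1 / ((q : ℝ) * ((q : ℝ) - 1))
      ≤ ∑ q ∈ Ioc Y (max Y Z), 1 / ((q : ℝ) * ((q : ℝ) - 1)) := by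
        apply sum_le_sum_of_subset_of_nonneg hsub
        intro q hq _
        have : (1 : ℝ) ≤ q := by
          have := (mem_Ioc.1 hq).1
          exact_mod_cast (by omega : 1 ≤ q)
        have h2 : (0 : ℝ) ≤ (q : ℝ) - 1 := by linarith
        positivity
    _ = 1 / Y - 1 / (max Y Z : ℕ) := htel _ (le_max_left _ _)
    _ ≤ 1 / Y := by
        have : (0 : ℝ) ≤ 1 / ((max Y Z : ℕ) : ℝ) := by positivity
        linarith

private theorem Off_card {x : ℕ} (hx : 4 ≤ Real.log x) {Y Z : ℕ} {P : Finset ℕ} (hP : PS Y Z P)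
    {a a' : ℤ} (hne : a ≠ a') (ha : |a| ≤ x) (ha' : |a'| ≤ x) :
    ((P.filter (fun q : ℕ => (q : ℤ) ∣ a - a')).card : ℝ) ≤ 2 * Real.log x := by
  set S := P.filter (fun q : ℕ => (q : ℤ) ∣ a - a') with hS
  have hx0 : (0 : ℝ) < x := by
    rcases Nat.eq_zero_or_pos x with h | h
    · rw [h] at hx
      simp at hx
      linarith
    · exact_mod_cast h
  have hdvd : ∏ q ∈ S, q ∣ (a - a').natAbs := by
    apply Finset.prod_primes_dvd
    · intro q hq
      exact ((hP q (mem_filter.1 hq).1).1).prime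
    · intro q hq
      exact Int.natCast_dvd.1 (mem_filter.1 hq).2
  have hpos : 0 < (a - a').natAbs := Int.natAbs_pos.2 (sub_ne_zero.2 hne)
  have h1 : 2 ^ S.card ≤ (a - a').natAbs := by
    calc 2 ^ S.card = ∏ _q ∈ S, 2 := by rw [prod_const]
      _ ≤ ∏ q ∈ S, q := prod_le_prod' fun q hq => (hP q (mem_filter.1 hq).1).1.two_le
      _ ≤ _ := Nat.le_of_dvd hpos hdvd
  have h2 : ((a - a').natAbs : ℝ) ≤ 2 * x := by
    have h3 : ((a - a').natAbs : ℤ) ≤ 2 * x := by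
      rw [Int.natCast_natAbs]
      calc |a - a'| ≤ |a| + |a'| := abs_sub _ _
        _ ≤ 2 * x := by linarith
    exact_mod_cast h3
  have h4 : (2 : ℝ) ^ S.card ≤ 2 * x := by
    refine le_trans ?_ h2
    exact_mod_cast h1
  have h5 : (S.card : ℝ) * Real.log 2 ≤ Real.log 2 + Real.log x := by
    rw [← Real.log_pow, ← Real.log_mul (by norm_num) hx0.ne']
    exact Real.log_le_log (by positivity) h4
  have h6 : 0.69 < Real.log 2 := by
    have := Real.log_two_gt_d9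
    linarith
  have h7 : Real.log 2 < 0.7 := by
    have := Real.log_two_lt_d9
    linarith
  have h8 : (0 : ℝ) ≤ S.card := by positivity
  by_contra hcon
  push Not at hcon
  nlinarith

private theorem Off_pi : Real.pi ^ 2 / 2 ≤ 5 := by
  have h1 := Real.pi_lt_d2
  have h2 := Real.pi_pos
  nlinarith

theorem off : ∃ x0 : ℕ, ∀ x J D Y Z : ℕ, x0 ≤ x → 1 ≤ J → 1 ≤ D → D ≤ Y → 2 ≤ Y → Y ≤ Z →
    D ^ 2 * Z ≤ x → (∀ k : ℕ, 1 ≤ k → k ≤ Z ^ 2 * D ^ 2 → k ∣ 2 * x * J) →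
    ∀ ρ : ℕ → ℝ, SW D ρ → ∀ P : Finset ℕ, PS Y Z P → ∀ a a' : ℤ, a ≠ a' → |a| ≤ x → |a'| ≤ x →
    ∀ c c' : ℕ → ℝ, (∀ q, |c q| ≤ 1) → (∀ q, |c' q| ≤ 1) →
    |∑ n ∈ RW x J, ww x J n * lam D ρ n * (TT P c a n * TT P c' a' n)| ≤
      200 * (D : ℝ) ^ 10 * Real.log x ^ 2 * (Z : ℝ) ^ ((2 : ℝ) - 1 / 50) +
        60 * x * (D : ℝ) ^ 2 * Real.log x / Y := by
  obtain ⟨x1, hps⟩ := pair_sum
  refine ⟨max x1 ⌈Real.exp 4⌉₊, ?_⟩
  intro x J D Y Z hx0 hJ hD hDY hY2 hYZ hDZ hdiv ρ hρ P hP a a' hne ha ha' c c' hc hc'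
  have hx1 : x1 ≤ x := (le_max_left _ _).trans hx0
  have hxe : Real.exp 4 ≤ x := (Nat.le_ceil _).trans (by exact_mod_cast (le_max_right _ _).trans hx0)
  have hxpos : (0 : ℝ) < x := (Real.exp_pos 4).trans_le hxe
  have hx1' : 1 ≤ x := by exact_mod_cast (show 0 < x by exact_mod_cast hxpos)
  have hL : 4 ≤ Real.log x := by rwa [Real.le_log_iff_exp_le hxpos]
  set L := Real.log x with hLdef
  set w : ℤ → ℝ := fun n => ww x J n * lam D ρ n with hw
  set C0 : ℝ := Real.pi ^ 2 * x / 2 with hC0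
  have hC0pos : 0 ≤ C0 := by positivity
  have hC0le : C0 ≤ 5 * x := by
    have := mul_le_mul_of_nonneg_right Off_pi hxpos.le
    rw [hC0]
    linarith
  have hGG : |GG D ρ| ≤ (D : ℝ) ^ 2 := gg_le hρ
  have hYpos : (0 : ℝ) < Y := by exact_mod_cast (show 0 < Y by omega)
  have hDpos : (1 : ℝ) ≤ D := by exact_mod_cast hD
  have hZ1 : 1 ≤ Z := by omega
  have hq1 : ∀ q ∈ P, (1 : ℝ) < q ∧ (Y : ℝ) < q := by
    intro q hq
    obtain ⟨_, h2, _⟩ := hP q hq
    constructor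
    · exact_mod_cast (by omega : 1 < q)
    · exact_mod_cast h2
  have hcop : ∀ q ∈ P, ∀ d, 1 ≤ d → d ≤ D → Nat.Coprime d q := by
    intro q hq d h1 h2
    obtain ⟨h3, h4, _⟩ := hP q hq
    rw [Nat.coprime_comm, Nat.Prime.coprime_iff_not_dvd h3]
    intro h5
    have := Nat.le_of_dvd (by omega) h5
    omega
  -- one class
  have hA : ∀ q ∈ P, ∀ b : ℤ, ∑ n ∈ RW x J, w n * Off_I q b n = C0 / q * GG D ρ := by
    intro q hq b
    obtain ⟨h3, h4, h5⟩ := hP q hq
    have hqZ : q * D ^ 2 ≤ Z ^ 2 * D ^ 2 := by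
      apply Nat.mul_le_mul_right
      calc q ≤ Z := h5
        _ = Z ^ 1 := (pow_one Z).symm
        _ ≤ Z ^ 2 := Nat.pow_le_pow_right hZ1 (by norm_num)
    have hqx : q * D ^ 2 ≤ 2 * x := by
      calc q * D ^ 2 ≤ Z * D ^ 2 := Nat.mul_le_mul_right _ h5
        _ = D ^ 2 * Z := mul_comm _ _
        _ ≤ x := hDZ
        _ ≤ 2 * x := by omega
    have := ex_one x J D q ρ hx1' hJ (by omega) hD
      (fun k hk1 hk2 => hdiv k hk1 (hk2.trans hqZ)) hqx (hcop q hq) b
    unfold Off_I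
    rw [hw]
    rw [this, hC0]
    have : (q : ℝ) ≠ 0 := by
      have := (hq1 q hq).1
      positivity
    field_simp
  have hA0 : ∑ n ∈ RW x J, w n = C0 * GG D ρ := by
    have hDx : D ^ 2 ≤ 2 * x := by
      calc D ^ 2 = D ^ 2 * 1 := (mul_one _).symm
        _ ≤ D ^ 2 * Z := Nat.mul_le_mul_left _ hZ1
        _ ≤ x := hDZ
        _ ≤ 2 * x := by omega
    have hDZ' : D ^ 2 ≤ Z ^ 2 * D ^ 2 := by
      calc D ^ 2 = 1 * D ^ 2 := (one_mul _).symm
        _ ≤ Z ^ 2 * D ^ 2 := Nat.mul_le_mul_right _ (Nat.one_le_pow _ _ (by omega))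
    have := ex_zero x J D ρ hx1' hJ hD (fun k hk1 hk2 => hdiv k hk1 (hk2.trans hDZ')) hDx
    rw [hw, this]
  -- the error terms
  set T : ℕ → ℕ → ℂ := fun q q' => ∑ d ∈ Icc 1 D, ∑ e ∈ Icc 1 D,
    ((ρ d * ρ e * (Real.pi ^ 2 * x / (2 * (((Nat.lcm d e : ℕ) : ℝ) * q * q'))) : ℝ) : ℂ) *
      (fej x (Nat.lcm d e * q * q') (nz (Nat.lcm d e) q q' a a') - 1) with hT
  set u : ℕ → ℝ := fun q => 1 / (q : ℝ) - 1 / ((q : ℝ) - 1) with hu
  set S : ℕ → ℕ → ℝ := fun q q' => ∑ n ∈ RW x J, w n * (Off_I q a n * Off_I q' a' n) -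
        1 / ((q' : ℝ) - 1) * ∑ n ∈ RW x J, w n * Off_I q a n -
        1 / ((q : ℝ) - 1) * ∑ n ∈ RW x J, w n * Off_I q' a' n +
        1 / ((q : ℝ) - 1) * (1 / ((q' : ℝ) - 1)) * ∑ n ∈ RW x J, w n with hS
  have hSoff : ∀ q ∈ P, ∀ q' ∈ P, q' ≠ q →
      ((S q q' : ℝ) : ℂ) = ((C0 * GG D ρ * u q * u q' : ℝ) : ℂ) + T q q' := by
    intro q hq q' hq' hqq
    obtain ⟨h3, h4, h5⟩ := hP q hq
    obtain ⟨h3', h4', h5'⟩ := hP q' hq'
    have hqZ : q * q' * D ^ 2 ≤ Z ^ 2 * D ^ 2 := by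
      apply Nat.mul_le_mul_right
      calc q * q' ≤ Z * Z := Nat.mul_le_mul h5 h5'
        _ = Z ^ 2 := (sq Z).symm
    have h11 := ex_two x J D q q' ρ hx1' hJ hD h3 h3' (Ne.symm hqq) (by omega) (by omega)
      (fun k hk1 hk2 => hdiv k hk1 (hk2.trans hqZ)) a a'
    have hq0 : (q : ℝ) ≠ 0 := by have := (hq1 q hq).1; positivity
    have hq0' : (q' : ℝ) ≠ 0 := by have := (hq1 q' hq').1; positivity
    have h12 : ((∑ n ∈ RW x J, w n * (Off_I q a n * Off_I q' a' n) : ℝ) : ℂ) =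
        ((C0 / (q * q') * GG D ρ : ℝ) : ℂ) + T q q' := by
      rw [hT]
      unfold Off_I
      rw [hw]
      rw [h11]
      have h13 : ((C0 / (q * q') * GG D ρ : ℝ) : ℂ) = ∑ d ∈ Icc 1 D, ∑ e ∈ Icc 1 D,
          ((ρ d * ρ e * (Real.pi ^ 2 * x / (2 * (((Nat.lcm d e : ℕ) : ℝ) * q * q'))) : ℝ) : ℂ) := by
        unfold GG
        rw [mul_sum]
        push_cast
        apply sum_congr rfl
        intro d hd
        rw [mul_sum]
        apply sum_congr rfl
        intro e he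
        have hd1 := (mem_Icc.1 hd).1
        have he1 := (mem_Icc.1 he).1
        have hl0 : ((Nat.lcm d e : ℕ) : ℂ) ≠ 0 := by
          have := Nat.lcm_pos (show 0 < d by omega) (show 0 < e by omega)
          exact_mod_cast this.ne'
        have hq0c : (q : ℂ) ≠ 0 := by exact_mod_cast hq0
        have hq0c' : (q' : ℂ) ≠ 0 := by exact_mod_cast hq0'
        rw [hC0]
        push_cast
        field_simp
      rw [h13, ← sum_add_distrib]
      apply sum_congr rfl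
      intro d _
      rw [← sum_add_distrib]
      apply sum_congr rfl
      intro e _
      ring
    rw [hS]
    simp only
    rw [hA q hq a, hA q' hq' a', hA0]
    have h14 : ((∑ n ∈ RW x J, w n * (Off_I q a n * Off_I q' a' n) -
        1 / ((q' : ℝ) - 1) * (C0 / q * GG D ρ) - 1 / ((q : ℝ) - 1) * (C0 / q' * GG D ρ) +
        1 / ((q : ℝ) - 1) * (1 / ((q' : ℝ) - 1)) * (C0 * GG D ρ) : ℝ) : ℂ) =
      ((∑ n ∈ RW x J, w n * (Off_I q a n * Off_I q' a' n) : ℝ) : ℂ) +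
        ((- (1 / ((q' : ℝ) - 1) * (C0 / q * GG D ρ)) - 1 / ((q : ℝ) - 1) * (C0 / q' * GG D ρ) +
        1 / ((q : ℝ) - 1) * (1 / ((q' : ℝ) - 1)) * (C0 * GG D ρ) : ℝ) : ℂ) := by
      push_cast
      ring
    rw [h14, h12, add_right_comm, ← Complex.ofReal_add]
    congr 2
    rw [hu]
    simp only
    have e1 : C0 / ((q : ℝ) * q') = C0 * (1 / q) * (1 / q') := by
      field_simp
    have e2 : C0 / (q : ℝ) = C0 * (1 / q) := by ring
    have e3 : C0 / (q' : ℝ) = C0 * (1 / q') := by ring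
    rw [e1, e2, e3]
    ring
  -- split the sum
  have hexp := Off_exp (RW x J) w P c c' a a'
  have hsplit : ∑ q ∈ P, ∑ q' ∈ P, c q * c' q' * S q q' =
      ∑ q ∈ P, ∑ q' ∈ P.filter (fun q' => q' ≠ q), c q * c' q' * S q q' +
        ∑ q ∈ P, c q * c' q * S q q := by
    rw [← sum_add_distrib]
    apply sum_congr rfl
    intro q hq
    rw [filter_ne', ← add_comm]
    exact (add_sum_erase P (fun q' => c q * c' q' * S q q') hq).symm
  have hmain : ∑ n ∈ RW x J, ww x J n * lam D ρ n * (TT P c a n * TT P c' a' n) =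
      ∑ q ∈ P, ∑ q' ∈ P.filter (fun q' => q' ≠ q), c q * c' q' * S q q' +
        ∑ q ∈ P, c q * c' q * S q q := by
    rw [← hsplit]
    exact hexp
  rw [hmain]
  -- off-diagonal part
  have hupos : ∀ q ∈ P, |u q| = 1 / ((q : ℝ) * ((q : ℝ) - 1)) := by
    intro q hq
    have h1 := (hq1 q hq).1
    have h2 : (0 : ℝ) < (q : ℝ) - 1 := by linarith
    have h3 : (0 : ℝ) < q := by linarith
    rw [hu]
    simp only
    have : 1 / (q : ℝ) - 1 / ((q : ℝ) - 1) = - (1 / ((q : ℝ) * ((q : ℝ) - 1))) := by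
      field_simp
      ring
    rw [this, abs_neg, abs_of_pos (by positivity)]
  have htel := Off_tel (by omega : 1 ≤ Y) hP
  have hsumu : ∑ q ∈ P, |u q| ≤ 1 / Y := by
    rw [sum_congr rfl hupos]
    exact htel
  have hone : (1 : ℝ) ≤ Y := by exact_mod_cast (show 1 ≤ Y by omega)
  -- part one
  have hP1 : ‖∑ q ∈ P, ∑ q' ∈ P.filter (fun q' => q' ≠ q),
      ((c q * c' q' * (C0 * GG D ρ * u q * u q') : ℝ) : ℂ)‖ ≤ 5 * x * (D : ℝ) ^ 2 / Y := by
    calc _ ≤ ∑ q ∈ P, ∑ q' ∈ P.filter (fun q' => q' ≠ q),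
        ‖((c q * c' q' * (C0 * GG D ρ * u q * u q') : ℝ) : ℂ)‖ :=
          (norm_sum_le _ _).trans (sum_le_sum fun q _ => norm_sum_le _ _)
      _ ≤ ∑ q ∈ P, ∑ q' ∈ P, (C0 * (D : ℝ) ^ 2) * (|u q| * |u q'|) := by
          apply sum_le_sum
          intro q _
          refine (sum_le_sum fun q' _ => ?_).trans (sum_le_sum_of_subset_of_nonneg
            (filter_subset _ P) fun q' _ _ => by positivity)
          rw [Complex.norm_real, Real.norm_eq_abs]
          simp only [abs_mul]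
          rw [abs_of_nonneg hC0pos]
          have h1 : |c q| * |c' q'| ≤ 1 := mul_le_one₀ (hc q) (abs_nonneg _) (hc' q')
          calc |c q| * |c' q'| * (C0 * |GG D ρ| * |u q| * |u q'|)
              ≤ 1 * (C0 * (D : ℝ) ^ 2 * |u q| * |u q'|) := by
                apply mul_le_mul h1 _ (by positivity) (by norm_num)
                apply mul_le_mul_of_nonneg_right _ (abs_nonneg _)
                apply mul_le_mul_of_nonneg_right _ (abs_nonneg _)
                exact mul_le_mul_of_nonneg_left hGG hC0pos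
            _ = _ := by ring
      _ = (C0 * (D : ℝ) ^ 2) * ((∑ q ∈ P, |u q|) * (∑ q ∈ P, |u q|)) := by
          rw [sum_mul_sum, mul_sum]
          apply sum_congr rfl
          intro q _
          rw [mul_sum]
      _ ≤ (5 * x * (D : ℝ) ^ 2) * (1 / Y * 1) := by
          have h0 : 0 ≤ ∑ q ∈ P, |u q| := sum_nonneg fun q _ => abs_nonneg _
          have h2 : ∑ q ∈ P, |u q| ≤ 1 := hsumu.trans (by rw [div_le_one hYpos]; exact hone)
          apply mul_le_mul _ (mul_le_mul hsumu h2 h0 (by positivity)) (by positivity)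
            (by positivity)
          exact mul_le_mul_of_nonneg_right hC0le (by positivity)
      _ = _ := by ring
  -- part two
  have hP2 : ‖∑ q ∈ P, ∑ q' ∈ P.filter (fun q' => q' ≠ q), ((c q * c' q' : ℝ) : ℂ) * T q q'‖ ≤
      160 * (D : ℝ) ^ 10 * L ^ 2 * (Z : ℝ) ^ ((2 : ℝ) - 1 / 50) := by
    have hre : ∑ q ∈ P, ∑ q' ∈ P.filter (fun q' => q' ≠ q), ((c q * c' q' : ℝ) : ℂ) * T q q' =
        ∑ d ∈ Icc 1 D, ∑ e ∈ Icc 1 D, ((ρ d * ρ e * C0 : ℝ) : ℂ) *
          ∑ q ∈ P, ∑ q' ∈ P.filter (fun q' => q' ≠ q),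
            ((c q * c' q' / (((Nat.lcm d e : ℕ) : ℝ) * q * q') : ℝ) : ℂ) *
              (fej x (Nat.lcm d e * q * q') (nz (Nat.lcm d e) q q' a a') - 1) := by
      rw [hT]
      simp only [mul_sum]
      have hL1 : ∀ q ∈ P, ∑ q' ∈ P.filter (fun q' => q' ≠ q), ∑ d ∈ Icc 1 D, ∑ e ∈ Icc 1 D,
          ((c q * c' q' : ℝ) : ℂ) * (((ρ d * ρ e * (Real.pi ^ 2 * x /
            (2 * (((Nat.lcm d e : ℕ) : ℝ) * q * q'))) : ℝ) : ℂ) *
            (fej x (Nat.lcm d e * q * q') (nz (Nat.lcm d e) q q' a a') - 1)) =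
          ∑ d ∈ Icc 1 D, ∑ e ∈ Icc 1 D, ∑ q' ∈ P.filter (fun q' => q' ≠ q),
          ((ρ d * ρ e * C0 : ℝ) : ℂ) *
            (((c q * c' q' / (((Nat.lcm d e : ℕ) : ℝ) * q * q') : ℝ) : ℂ) *
              (fej x (Nat.lcm d e * q * q') (nz (Nat.lcm d e) q q' a a') - 1)) := by
        intro q _
        rw [sum_comm]
        apply sum_congr rfl
        intro d _
        rw [sum_comm]
        apply sum_congr rfl
        intro e _
        apply sum_congr rfl
        intro q' _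
        have hr : (c q * c' q') * (ρ d * ρ e * (Real.pi ^ 2 * x /
            (2 * (((Nat.lcm d e : ℕ) : ℝ) * q * q')))) =
            (ρ d * ρ e * C0) * (c q * c' q' / (((Nat.lcm d e : ℕ) : ℝ) * q * q')) := by
          rw [hC0, ← div_div (Real.pi ^ 2 * (x : ℝ))]
          ring
        rw [← mul_assoc ((c q * c' q' : ℝ) : ℂ), ← Complex.ofReal_mul, hr, Complex.ofReal_mul,
          mul_assoc]
      rw [sum_congr rfl hL1, sum_comm]
      apply sum_congr rfl
      intro d _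
      rw [sum_comm]
    rw [hre]
    have hone' : ∀ d ∈ Icc 1 D, ∀ e ∈ Icc 1 D, ‖((ρ d * ρ e * C0 : ℝ) : ℂ) *
          ∑ q ∈ P, ∑ q' ∈ P.filter (fun q' => q' ≠ q),
            ((c q * c' q' / (((Nat.lcm d e : ℕ) : ℝ) * q * q') : ℝ) : ℂ) *
              (fej x (Nat.lcm d e * q * q') (nz (Nat.lcm d e) q q' a a') - 1)‖ ≤
        160 * (D : ℝ) ^ 8 * L ^ 2 * (Z : ℝ) ^ ((2 : ℝ) - 1 / 50) := by
      intro d hd e he
      by_cases hz : ρ d * ρ e = 0
      · rw [hz]
        simp only [zero_mul, Complex.ofReal_zero, norm_zero]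
        positivity
      · have hd0 : ρ d ≠ 0 := left_ne_zero_of_mul hz
        have he0 : ρ e ≠ 0 := right_ne_zero_of_mul hz
        obtain ⟨hd1, hd2, hd3⟩ := hρ.2.2 d hd0
        obtain ⟨he1, he2, he3⟩ := hρ.2.2 e he0
        set l := Nat.lcm d e with hl
        have hl1 : 1 ≤ l := Nat.lcm_pos (by omega) (by omega)
        have hlD : l ≤ D ^ 2 := by
          calc l ≤ d * e := Nat.le_of_dvd (by positivity) (Nat.lcm_dvd_mul d e)
            _ ≤ D * D := Nat.mul_le_mul hd2 he2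
            _ = D ^ 2 := (sq D).symm
        have hlodd : Odd l := by
          have h1 : l ∣ d * e := Nat.lcm_dvd_mul d e
          exact Odd.of_dvd_nat (hd3.mul he3) h1
        have hlcop : ∀ q ∈ P, Nat.Coprime l q := by
          intro q hq
          exact Nat.Coprime.of_dvd_left (Nat.lcm_dvd_mul d e)
            (Nat.Coprime.mul_left (hcop q hq d hd1 hd2) (hcop q hq e he1 he2))
        have hlZ : l * Z ≤ x := (Nat.mul_le_mul_right Z hlD).trans hDZ
        have hpair := hps x l Z hx1 hl1 hlodd hlZ P (fun q hq => by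
          obtain ⟨h3, h4, h5⟩ := hP q hq
          exact ⟨h3, hlcop q hq, by omega, h5⟩) a a' hne ha ha' c c' hc hc'
          (fun q q' => nz l q q' a a') (by
            intro q q' hq hq' hqq h1 h2
            exact nz_spec l q q' h1 h2 ((Nat.coprime_primes hq hq').2 hqq) a a')
        rw [norm_mul]
        have h1 : ‖((ρ d * ρ e * C0 : ℝ) : ℂ)‖ ≤ 5 * x := by
          rw [Complex.norm_real, Real.norm_eq_abs, abs_mul, abs_mul, abs_of_nonneg hC0pos]
          have : |ρ d| * |ρ e| ≤ 1 := mul_le_one₀ (hρ.2.1 d) (abs_nonneg _) (hρ.2.1 e)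
          calc |ρ d| * |ρ e| * C0 ≤ 1 * (5 * x) :=
                mul_le_mul this hC0le hC0pos (by norm_num)
            _ = _ := by ring
        have hlr : (1 : ℝ) ≤ l := by exact_mod_cast hl1
        have hlDr : (l : ℝ) ≤ (D : ℝ) ^ 2 := by exact_mod_cast hlD
        have hZr : (1 : ℝ) ≤ Z := by exact_mod_cast hZ1
        have h2 : 32 * (l : ℝ) ^ 2 * L ^ 2 * ((l : ℝ) * Z) ^ ((2 : ℝ) - 1 / 50) / x ≤
            32 * (D : ℝ) ^ 8 * L ^ 2 * (Z : ℝ) ^ ((2 : ℝ) - 1 / 50) / x := by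
          apply div_le_div_of_nonneg_right _ hxpos.le
          rw [Real.mul_rpow (by positivity) (by positivity)]
          have h3 : (l : ℝ) ^ ((2 : ℝ) - 1 / 50) ≤ (D : ℝ) ^ 4 := by
            calc (l : ℝ) ^ ((2 : ℝ) - 1 / 50) ≤ (l : ℝ) ^ (2 : ℝ) :=
                  Real.rpow_le_rpow_of_exponent_le hlr (by norm_num)
              _ = (l : ℝ) ^ (2 : ℕ) := by rw [← Real.rpow_natCast]; norm_num
              _ ≤ ((D : ℝ) ^ 2) ^ 2 := pow_le_pow_left₀ (by positivity) hlDr 2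
              _ = (D : ℝ) ^ 4 := by ring
          have h4 : (l : ℝ) ^ 2 ≤ (D : ℝ) ^ 4 := by
            calc (l : ℝ) ^ 2 ≤ ((D : ℝ) ^ 2) ^ 2 := pow_le_pow_left₀ (by positivity) hlDr 2
              _ = (D : ℝ) ^ 4 := by ring
          calc 32 * (l : ℝ) ^ 2 * L ^ 2 * ((l : ℝ) ^ ((2 : ℝ) - 1 / 50) * (Z : ℝ) ^ ((2 : ℝ) - 1 / 50))
              = ((l : ℝ) ^ 2 * (l : ℝ) ^ ((2 : ℝ) - 1 / 50)) *
                (32 * L ^ 2 * (Z : ℝ) ^ ((2 : ℝ) - 1 / 50)) := by ring
            _ ≤ ((D : ℝ) ^ 4 * (D : ℝ) ^ 4) * (32 * L ^ 2 * (Z : ℝ) ^ ((2 : ℝ) - 1 / 50)) := by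
                apply mul_le_mul_of_nonneg_right _ (by positivity)
                exact mul_le_mul h4 h3 (by positivity) (by positivity)
            _ = _ := by ring
        calc ‖((ρ d * ρ e * C0 : ℝ) : ℂ)‖ * _ ≤ (5 * x) *
              (32 * (D : ℝ) ^ 8 * L ^ 2 * (Z : ℝ) ^ ((2 : ℝ) - 1 / 50) / x) :=
              mul_le_mul h1 (hpair.trans h2) (norm_nonneg _) (by positivity)
          _ = _ := by
              field_simp
              ring
    calc _ ≤ ∑ d ∈ Icc 1 D, ∑ e ∈ Icc 1 D,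
          160 * (D : ℝ) ^ 8 * L ^ 2 * (Z : ℝ) ^ ((2 : ℝ) - 1 / 50) :=
          (norm_sum_le _ _).trans (sum_le_sum fun d hd =>
            (norm_sum_le _ _).trans (sum_le_sum fun e he => hone' d hd e he))
      _ = _ := by
          simp only [sum_const, Nat.card_Icc, Nat.add_sub_cancel, nsmul_eq_mul]
          ring
  -- diagonal part
  have hP3 : |∑ q ∈ P, c q * c' q * S q q| ≤
      10 * x * (D : ℝ) ^ 2 * L / Y + 30 * x * (D : ℝ) ^ 2 / Y := by
    have hterm : ∀ q ∈ P, |c q * c' q * S q q| ≤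
        (if (q : ℤ) ∣ a - a' then 5 * x * (D : ℝ) ^ 2 / Y else 0) +
          15 * x * (D : ℝ) ^ 2 * (2 * (1 / ((q : ℝ) * ((q : ℝ) - 1)))) := by
      intro q hq
      have h1 := (hq1 q hq).1
      have hYq := (hq1 q hq).2
      have hqm : (0 : ℝ) < (q : ℝ) - 1 := by linarith
      have hq0 : (0 : ℝ) < q := by linarith
      have hq2 : (2 : ℝ) ≤ q := by
        have := (hP q hq).1.two_le
        exact_mod_cast this
      have hcc : |c q * c' q| ≤ 1 := by
        rw [abs_mul]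
        exact mul_le_one₀ (hc q) (abs_nonneg _) (hc' q)
      rw [abs_mul]
      have hSq : |S q q| ≤ (if (q : ℤ) ∣ a - a' then 5 * x * (D : ℝ) ^ 2 / Y else 0) +
          15 * x * (D : ℝ) ^ 2 * (2 * (1 / ((q : ℝ) * ((q : ℝ) - 1)))) := by
        rw [hS]
        simp only
        rw [hA q hq a, hA q hq a', hA0]
        have hprod : |∑ n ∈ RW x J, w n * (Off_I q a n * Off_I q a' n)| ≤
            (if (q : ℤ) ∣ a - a' then 5 * x * (D : ℝ) ^ 2 / Y else 0) := by
          split_ifs with hdv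
          · have : ∑ n ∈ RW x J, w n * (Off_I q a n * Off_I q a' n) =
                ∑ n ∈ RW x J, w n * Off_I q a n := by
              apply sum_congr rfl
              intro n _
              congr 1
              unfold Off_I
              by_cases hn : (q : ℤ) ∣ n - a
              · have hn' : (q : ℤ) ∣ n - a' := by
                  have : n - a' = (n - a) + (a - a') := by ring
                  rw [this]
                  exact dvd_add hn hdv
                simp [hn, hn']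
              · simp [hn]
            rw [this, hA q hq a, abs_mul, abs_div, abs_of_nonneg hC0pos, abs_of_pos hq0]
            calc C0 / q * |GG D ρ| ≤ (5 * x) / Y * (D : ℝ) ^ 2 := by
                  apply mul_le_mul _ hGG (abs_nonneg _) (by positivity)
                  exact div_le_div₀ (by positivity) hC0le hYpos hYq.le
              _ = _ := by ring
          · have : ∑ n ∈ RW x J, w n * (Off_I q a n * Off_I q a' n) = 0 := by
              apply sum_eq_zero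
              intro n _
              unfold Off_I
              by_cases hn : (q : ℤ) ∣ n - a
              · by_cases hn' : (q : ℤ) ∣ n - a'
                · exfalso
                  apply hdv
                  have : a - a' = (n - a') - (n - a) := by ring
                  rw [this]
                  exact dvd_sub hn' hn
                · simp [hn']
              · simp [hn]
            rw [this, abs_zero]
        have hr : |1 / ((q : ℝ) - 1) * (C0 / q * GG D ρ)| ≤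
            5 * x * (D : ℝ) ^ 2 * (1 / ((q : ℝ) * ((q : ℝ) - 1))) := by
          rw [abs_mul, abs_mul, abs_of_pos (by positivity), abs_div, abs_of_nonneg hC0pos,
            abs_of_pos hq0]
          calc 1 / ((q : ℝ) - 1) * (C0 / q * |GG D ρ|) =
                (C0 * |GG D ρ|) * (1 / ((q : ℝ) * ((q : ℝ) - 1))) := by
                field_simp
            _ ≤ (5 * x * (D : ℝ) ^ 2) * (1 / ((q : ℝ) * ((q : ℝ) - 1))) := by
                apply mul_le_mul_of_nonneg_right _ (by positivity)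
                exact mul_le_mul hC0le hGG (abs_nonneg _) (by positivity)
        have hr2 : |1 / ((q : ℝ) - 1) * (1 / ((q : ℝ) - 1)) * (C0 * GG D ρ)| ≤
            5 * x * (D : ℝ) ^ 2 * (2 * (1 / ((q : ℝ) * ((q : ℝ) - 1)))) := by
          rw [abs_mul, abs_mul C0, abs_of_pos (by positivity), abs_of_nonneg hC0pos]
          have h5 : 1 / ((q : ℝ) - 1) * (1 / ((q : ℝ) - 1)) ≤
              2 * (1 / ((q : ℝ) * ((q : ℝ) - 1))) := by
            rw [← sub_nonneg]
            have : 2 * (1 / ((q : ℝ) * ((q : ℝ) - 1))) - 1 / ((q : ℝ) - 1) * (1 / ((q : ℝ) - 1)) =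
                ((q : ℝ) - 2) / ((q : ℝ) * ((q : ℝ) - 1) ^ 2) := by
              field_simp
              ring
            rw [this]
            apply div_nonneg (by linarith) (by positivity)
          calc 1 / ((q : ℝ) - 1) * (1 / ((q : ℝ) - 1)) * (C0 * |GG D ρ|) ≤
                (2 * (1 / ((q : ℝ) * ((q : ℝ) - 1)))) * (5 * x * (D : ℝ) ^ 2) := by
                apply mul_le_mul h5 _ (by positivity) (by positivity)
                exact mul_le_mul hC0le hGG (abs_nonneg _) (by positivity)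
            _ = _ := by ring
        have hpos1 : 0 ≤ 5 * x * (D : ℝ) ^ 2 * (1 / ((q : ℝ) * ((q : ℝ) - 1))) := by positivity
        calc |∑ n ∈ RW x J, w n * (Off_I q a n * Off_I q a' n) -
              1 / ((q : ℝ) - 1) * (C0 / q * GG D ρ) - 1 / ((q : ℝ) - 1) * (C0 / q * GG D ρ) +
              1 / ((q : ℝ) - 1) * (1 / ((q : ℝ) - 1)) * (C0 * GG D ρ)|
            ≤ |∑ n ∈ RW x J, w n * (Off_I q a n * Off_I q a' n)| +
              |1 / ((q : ℝ) - 1) * (C0 / q * GG D ρ)| + |1 / ((q : ℝ) - 1) * (C0 / q * GG D ρ)| +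
              |1 / ((q : ℝ) - 1) * (1 / ((q : ℝ) - 1)) * (C0 * GG D ρ)| := by
              refine (abs_add_le _ _).trans ?_
              refine add_le_add_left ?_ _
              refine (abs_sub _ _).trans ?_
              refine add_le_add_left ?_ _
              exact abs_sub _ _
          _ ≤ _ := by linarith
      calc |c q * c' q| * |S q q| ≤ 1 * |S q q| :=
            mul_le_mul_of_nonneg_right hcc (abs_nonneg _)
        _ ≤ _ := by rw [one_mul]; exact hSq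
    calc |∑ q ∈ P, c q * c' q * S q q| ≤ ∑ q ∈ P, |c q * c' q * S q q| := abs_sum_le_sum_abs _ _
      _ ≤ ∑ q ∈ P, ((if (q : ℤ) ∣ a - a' then 5 * x * (D : ℝ) ^ 2 / Y else 0) +
          15 * x * (D : ℝ) ^ 2 * (2 * (1 / ((q : ℝ) * ((q : ℝ) - 1))))) := sum_le_sum hterm
      _ = ((P.filter (fun q : ℕ => (q : ℤ) ∣ a - a')).card : ℝ) * (5 * x * (D : ℝ) ^ 2 / Y) +
          30 * x * (D : ℝ) ^ 2 * ∑ q ∈ P, 1 / ((q : ℝ) * ((q : ℝ) - 1)) := by
          rw [sum_add_distrib, ← sum_filter, sum_const, nsmul_eq_mul, mul_sum]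
          congr 1
          apply sum_congr rfl
          intro q _
          ring
      _ ≤ (2 * L) * (5 * x * (D : ℝ) ^ 2 / Y) + 30 * x * (D : ℝ) ^ 2 * (1 / Y) := by
          apply add_le_add
          · exact mul_le_mul_of_nonneg_right (Off_card hL hP hne ha ha') (by positivity)
          · exact mul_le_mul_of_nonneg_left htel (by positivity)
      _ = _ := by ring
  -- assembly
  have hoffc : ((∑ q ∈ P, ∑ q' ∈ P.filter (fun q' => q' ≠ q), c q * c' q' * S q q' : ℝ) : ℂ) =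
      ∑ q ∈ P, ∑ q' ∈ P.filter (fun q' => q' ≠ q),
        ((c q * c' q' * (C0 * GG D ρ * u q * u q') : ℝ) : ℂ) +
      ∑ q ∈ P, ∑ q' ∈ P.filter (fun q' => q' ≠ q), ((c q * c' q' : ℝ) : ℂ) * T q q' := by
    rw [← sum_add_distrib]
    rw [Complex.ofReal_sum]
    apply sum_congr rfl
    intro q hq
    rw [← sum_add_distrib, Complex.ofReal_sum]
    apply sum_congr rfl
    intro q' hq'
    obtain ⟨h1, h2⟩ := mem_filter.1 hq'
    rw [Complex.ofReal_mul, hSoff q hq q' h1 h2]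
    push_cast
    ring
  have hoff : |∑ q ∈ P, ∑ q' ∈ P.filter (fun q' => q' ≠ q), c q * c' q' * S q q'| ≤
      5 * x * (D : ℝ) ^ 2 / Y + 160 * (D : ℝ) ^ 10 * L ^ 2 * (Z : ℝ) ^ ((2 : ℝ) - 1 / 50) := by
    rw [← Real.norm_eq_abs, ← Complex.norm_real, hoffc]
    exact (norm_add_le _ _).trans (add_le_add hP1 hP2)
  have hfin1 : 0 ≤ x * (D : ℝ) ^ 2 / Y := by positivity
  have hfin2 : 0 ≤ (D : ℝ) ^ 10 * L ^ 2 * (Z : ℝ) ^ ((2 : ℝ) - 1 / 50) := by positivity
  refine (abs_add_le _ _).trans ((add_le_add hoff hP3).trans ?_)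
  have e1 : 5 * x * (D : ℝ) ^ 2 / Y = 5 * (x * (D : ℝ) ^ 2 / Y) := by ring
  have e2 : 10 * x * (D : ℝ) ^ 2 * L / Y = 10 * L * (x * (D : ℝ) ^ 2 / Y) := by ring
  have e3 : 30 * x * (D : ℝ) ^ 2 / Y = 30 * (x * (D : ℝ) ^ 2 / Y) := by ring
  have e4 : 60 * x * (D : ℝ) ^ 2 * L / Y = 60 * L * (x * (D : ℝ) ^ 2 / Y) := by ring
  have e5 : 160 * (D : ℝ) ^ 10 * L ^ 2 * (Z : ℝ) ^ ((2 : ℝ) - 1 / 50) =
    160 * ((D : ℝ) ^ 10 * L ^ 2 * (Z : ℝ) ^ ((2 : ℝ) - 1 / 50)) := by ring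
  have e6 : 200 * (D : ℝ) ^ 10 * L ^ 2 * (Z : ℝ) ^ ((2 : ℝ) - 1 / 50) =
    200 * ((D : ℝ) ^ 10 * L ^ 2 * (Z : ℝ) ^ ((2 : ℝ) - 1 / 50)) := by ring
  rw [e1, e2, e3, e4, e5, e6]
  nlinarith

end Pool.Agent.H80.BE
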