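import Pool.Agent.H80.BE.Defs
import Pool.Agent.H80.KF.Bas

/-!
# BE Ph: the phase

`phase`: multiply the exponents by `d q q'`; both sides are `e` of a rational number with denominator `d q q'`, and the
numerators `l n₀` and `l a' - l(a'-a) q' iv(dq,q') - l a q q' iv(d,qq')` agree modulo `q'` (`n₀ ≡ a'`), modulo `q`
(`q' iv(dq,q') ≡ 1`, `l n₀ ≡ l a`) and modulo `d` (`q' iv(dq,q') ≡ 1`, `q q' iv(d,qq') ≡ 1`, `l n₀ ≡ 0`).
Use `KF.iv_spec`, `KF.ee_eq_of_int` (compare `KF.crt_phase`, `KF.kf_crt`).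
`kf_scale`: `KF.kf_mul_left`.
-/

set_option autoImplicit false

namespace Pool.Agent.H80.BE

open Finset
open Pool.Agent.H80.KF (ee kf ww RW fej)

theorem phase (d q q' : ℕ) (hd : 1 ≤ d) (hq : 1 ≤ q) (hq' : 1 ≤ q') (h1 : Nat.Coprime d q)
    (h2 : Nat.Coprime d q') (h3 : Nat.Coprime q q') (a a' n0 l : ℤ) (h0 : (d : ℤ) ∣ n0)
    (ha : (q : ℤ) ∣ n0 - a) (ha' : (q' : ℤ) ∣ n0 - a') :
    ee ((l : ℝ) * n0 / ((d : ℝ) * q * q')) =
      ee ((l : ℝ) * a' / ((d : ℝ) * q * q')) * kf (d * q) (-(l * (a' - a))) q' *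
        kf d (-(l * a)) (q * q') := by
  have hd0 : (d : ℝ) ≠ 0 := by positivity
  have hq0 : (q : ℝ) ≠ 0 := by positivity
  have hq0' : (q' : ℝ) ≠ 0 := by positivity
  set v1 := Pool.Agent.H80.KF.iv (d * q) q' with hv1
  set v2 := Pool.Agent.H80.KF.iv d (q * q') with hv2
  have i1 : ((d * q : ℕ) : ℤ) ∣ (q' : ℤ) * (v1 : ℤ) - 1 :=
    Pool.Agent.H80.KF.iv_spec (Nat.mul_pos hd hq) (Nat.Coprime.mul_right h2.symm h3.symm)
  have i2 : ((d : ℕ) : ℤ) ∣ ((q * q' : ℕ) : ℤ) * (v2 : ℤ) - 1 :=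
    Pool.Agent.H80.KF.iv_spec hd (Nat.Coprime.mul_left h1.symm h2.symm)
  push_cast at i1 i2
  have i1d : (d : ℤ) ∣ (q' : ℤ) * (v1 : ℤ) - 1 := (Dvd.intro _ rfl).trans i1
  have i1q : (q : ℤ) ∣ (q' : ℤ) * (v1 : ℤ) - 1 := (Dvd.intro_left _ rfl).trans i1
  have key : (d : ℤ) * q * q' ∣ l * n0 - l * a' + l * (a' - a) * (q' * v1) +
      l * a * (q * q' * v2) := by
    have c1 : IsCoprime (d : ℤ) (q : ℤ) := Nat.isCoprime_iff_coprime.2 h1
    have c2 : IsCoprime (d : ℤ) (q' : ℤ) := Nat.isCoprime_iff_coprime.2 h2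
    have c3 : IsCoprime (q : ℤ) (q' : ℤ) := Nat.isCoprime_iff_coprime.2 h3
    refine IsCoprime.mul_dvd (IsCoprime.mul_left c2 c3) (IsCoprime.mul_dvd c1 ?_ ?_) ?_
    · have e : l * n0 - l * a' + l * (a' - a) * (q' * v1) + l * a * (q * q' * v2) =
          l * n0 + l * (a' - a) * (q' * v1 - 1) + l * a * (q * q' * v2 - 1) := by ring
      rw [e]
      exact dvd_add (dvd_add (h0.mul_left _) (i1d.mul_left _)) (i2.mul_left _)
    · have e : l * n0 - l * a' + l * (a' - a) * (q' * v1) + l * a * (q * q' * v2) =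
          l * (n0 - a) + l * (a' - a) * (q' * v1 - 1) + q * (l * a * (q' * v2)) := by ring
      rw [e]
      exact dvd_add (dvd_add (ha.mul_left _) (i1q.mul_left _)) (Dvd.intro _ rfl)
    · have e : l * n0 - l * a' + l * (a' - a) * (q' * v1) + l * a * (q * q' * v2) =
          l * (n0 - a') + q' * (l * (a' - a) * v1 + l * a * (q * v2)) := by ring
      rw [e]
      exact dvd_add (ha'.mul_left _) (Dvd.intro _ rfl)
  obtain ⟨k, hk⟩ := key
  have hk' : (l : ℝ) * n0 - l * a' + l * (a' - a) * (q' * v1) + l * a * (q * q' * v2) =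
      (d : ℝ) * q * q' * k := by exact_mod_cast hk
  unfold kf
  rw [← hv1, ← hv2, ← Pool.Agent.H80.KF.ee_add, ← Pool.Agent.H80.KF.ee_add]
  apply Pool.Agent.H80.KF.ee_eq_of_int k
  push_cast
  field_simp
  linear_combination hk'

theorem kf_scale (n k m : ℕ) (hn : 1 ≤ n) (hodd : Odd n) (hm : Nat.Coprime m n) (ξ : ℤ) :
    kf n (ξ * ((2 ^ k : ℕ) : ℤ)) (2 ^ k * m) = kf n ξ m := by
  exact Pool.Agent.H80.KF.kf_mul_left hn ξ (Nat.Coprime.pow_left k
    ((Nat.coprime_two_left (n := n)).2 hodd)) hm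

end Pool.Agent.H80.BE
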