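import Pool.Agent.H80.BE.Blk2

/-!
# BE Pr: all pairs of primes

Every `q ∈ P` lies in exactly one block `(2^i, 2^{i+1}]`, `2^i < q ≤ Z`, so `i ≤ log₂ Z ≤ log₂ x`: at most `2 log x` values
(`x` large).  The pairs `(q,q')` with `q` in block `i` and `q' ≤ 2^{i+1}`: `blk_sum`, `N = d 2^i ≤ d Z ≤ x`.
The other pairs: `q'` in block `j` and `q ≤ 2^j` (`q'` in block `j > i` means `2^{i+1} ≤ 2^j`): `blk_sum` with
the roles exchanged, `α = c'` on block `j`, `β q = c q` for `q ≤ 2^j`, `a'` and `a` exchanged, `n0 q' q`; the pairs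
with `2^j < q ≤ 2^{j+1}`, `q'` in block `j`, are not included because `β` is supported on `q ≤ 2^j`
(`d * q * q' = d * q' * q`).  Total `2 · 2 log x · 8 d² log x (dZ)^{2-1/50}/x`.
-/

set_option autoImplicit false

namespace Pool.Agent.H80.BE

open Finset
open Pool.Agent.H80.KF (ee kf ww RW fej)

/-- the index of the dyadic block of `q` -/
private def bl (q : ℕ) : ℕ := Nat.log 2 (q - 1)

private theorem bl_lt {q : ℕ} (hq : 2 < q) : 2 ^ bl q < q := by
  have h : 2 ^ bl q ≤ q - 1 := Nat.pow_log_le_self 2 (by omega)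
  omega

private theorem bl_le {q : ℕ} (_hq : 2 < q) : q ≤ 2 ^ (bl q + 1) := by
  have h : q - 1 < 2 ^ (bl q + 1) := Nat.lt_pow_succ_log_self (by norm_num) (q - 1)
  omega

private theorem bl_eq {q i : ℕ} (hq : 2 < q) (h1 : 2 ^ i < q) (h2 : q ≤ 2 ^ (i + 1)) : bl q = i := by
  unfold bl
  refine Nat.log_eq_of_pow_le_of_lt_pow (by omega) (by omega)

private theorem bl_split {q q' : ℕ} (hq : 2 < q) (hq' : 2 < q') :
    q ≤ 2 ^ bl q' ↔ ¬ q' ≤ 2 ^ (bl q + 1) := by
  constructor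
  · intro h h'
    have h1 := bl_lt hq
    have h2 := bl_lt hq'
    have h3 : bl q < bl q' := (Nat.pow_lt_pow_iff_right (by norm_num : 1 < 2)).mp (h1.trans_le h)
    have h4 : 2 ^ (bl q + 1) ≤ 2 ^ bl q' := Nat.pow_le_pow_right (by norm_num) h3
    omega
  · intro h
    have h1 := bl_le hq
    have h2 := bl_le hq'
    have h3 : bl q + 1 < bl q' + 1 :=
      (Nat.pow_lt_pow_iff_right (by norm_num : 1 < 2)).mp ((not_le.mp h).trans_le h2)
    have h4 : 2 ^ (bl q + 1) ≤ 2 ^ bl q' := Nat.pow_le_pow_right (by norm_num) (by omega)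
    omega

/-- regrouping one block -/
private theorem Pr_block (P : Finset ℕ) (hP : ∀ q ∈ P, 2 < q) (i : ℕ) (T : ℕ → ℕ → ℂ)
    (g : ℕ → ℕ → ℂ) (R : ℕ → Prop) [DecidablePred R]
    (hg : ∀ q q', g q q' = if q ∈ P ∧ q' ∈ P ∧ R q' then T q q' else 0) :
    ∑ q ∈ Ioc (2 ^ i) (2 ^ (i + 1)), ∑ q' ∈ (Icc 1 (2 ^ (i + 1))).filter (fun q' => q' ≠ q),
        g q q' =
      ∑ q ∈ P.filter (fun q => bl q = i), ∑ q' ∈ P,
        (if q' ≠ q ∧ q' ≤ 2 ^ (i + 1) ∧ R q' then T q q' else 0) := by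
  have e1 : P.filter (fun q => bl q = i) = (Ioc (2 ^ i) (2 ^ (i + 1))).filter (fun q => q ∈ P) := by
    ext q
    simp only [mem_filter, mem_Ioc]
    constructor
    · rintro ⟨h1, h2⟩
      have h3 := bl_lt (hP q h1)
      have h4 := bl_le (hP q h1)
      rw [h2] at h3 h4
      exact ⟨⟨h3, h4⟩, h1⟩
    · rintro ⟨⟨h1, h2⟩, h3⟩
      exact ⟨h3, bl_eq (hP q h3) h1 h2⟩
  rw [e1, sum_filter]
  refine sum_congr rfl fun q _ => ?_
  by_cases hq : q ∈ P
  · rw [if_pos hq, ← sum_filter, ← sum_filter_add_sum_filter_not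
      ((Icc 1 (2 ^ (i + 1))).filter (fun q' => q' ≠ q)) (fun q' => q' ∈ P ∧ R q')]
    have z : ∑ q' ∈ ((Icc 1 (2 ^ (i + 1))).filter (fun q' => q' ≠ q)).filter
        (fun q' => ¬ (q' ∈ P ∧ R q')), g q q' = 0 := by
      refine sum_eq_zero fun q' hq' => ?_
      rw [mem_filter] at hq'
      rw [hg, if_neg]
      rintro ⟨_, h2⟩
      exact hq'.2 h2
    rw [z, add_zero]
    have e2 : ((Icc 1 (2 ^ (i + 1))).filter (fun q' => q' ≠ q)).filter (fun q' => q' ∈ P ∧ R q') =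
        P.filter (fun q' => q' ≠ q ∧ q' ≤ 2 ^ (i + 1) ∧ R q') := by
      ext q'
      simp only [mem_filter, mem_Icc]
      constructor
      · rintro ⟨⟨⟨_, h2⟩, h3⟩, h4, h5⟩
        exact ⟨h4, h3, h2, h5⟩
      · rintro ⟨h1, h2, h3, h4⟩
        have := hP q' h1
        exact ⟨⟨⟨by omega, h3⟩, h2⟩, h1, h4⟩
    rw [e2]
    refine sum_congr rfl fun q' hq' => ?_
    rw [mem_filter] at hq'
    rw [hg, if_pos ⟨hq, hq'.1, hq'.2.2.2⟩]
  · rw [if_neg hq]
    refine sum_eq_zero fun q' _ => ?_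
    rw [hg, if_neg]
    rintro ⟨h, _⟩
    exact hq h

theorem pair_sum : ∃ x0 : ℕ, ∀ x d Z : ℕ, x0 ≤ x → 1 ≤ d → Odd d → d * Z ≤ x →
    ∀ P : Finset ℕ, (∀ q ∈ P, q.Prime ∧ Nat.Coprime d q ∧ 2 < q ∧ q ≤ Z) →
    ∀ a a' : ℤ, a ≠ a' → |a| ≤ x → |a'| ≤ x → ∀ c c' : ℕ → ℝ, (∀ q, |c q| ≤ 1) →
    (∀ q, |c' q| ≤ 1) → ∀ n0 : ℕ → ℕ → ℤ,
    (∀ q q' : ℕ, q.Prime → q'.Prime → q ≠ q' → Nat.Coprime d q → Nat.Coprime d q' →
      (d : ℤ) ∣ n0 q q' ∧ (q : ℤ) ∣ n0 q q' - a ∧ (q' : ℤ) ∣ n0 q q' - a') →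
    ‖∑ q ∈ P, ∑ q' ∈ P.filter (fun q' => q' ≠ q),
        ((c q * c' q' / ((d : ℝ) * q * q') : ℝ) : ℂ) * (fej x (d * q * q') (n0 q q') - 1)‖ ≤
      32 * (d : ℝ) ^ 2 * Real.log x ^ 2 * ((d : ℝ) * Z) ^ ((2 : ℝ) - 1 / 50) / x := by
  classical
  obtain ⟨x1, hx1⟩ := blk_sum
  refine ⟨max x1 8, ?_⟩
  intro x d Z hx hd hodd hdZ P hP a a' haa ha ha' c c' hc hc' n0 hn0
  have hxx1 : x1 ≤ x := le_trans (le_max_left _ _) hx
  have hx8 : 8 ≤ x := le_trans (le_max_right _ _) hx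
  have hx8R : (8 : ℝ) ≤ x := by exact_mod_cast hx8
  have hxpos : (0 : ℝ) < x := by linarith
  have hlog2 : (2 : ℝ) ≤ Real.log x := by
    have h1 : Real.log 8 ≤ Real.log x := Real.log_le_log (by norm_num) hx8R
    have h2 : Real.log 8 = 3 * Real.log 2 := by
      rw [show (8 : ℝ) = 2 ^ 3 by norm_num, Real.log_pow]; norm_num
    have h3 := Real.log_two_gt_d9
    linarith
  -- the terms
  set T : ℕ → ℕ → ℂ := fun q q' =>
    ((c q * c' q' / ((d : ℝ) * q * q') : ℝ) : ℂ) * (fej x (d * q * q') (n0 q q') - 1) with hT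
  set W : ℝ := 8 * (d : ℝ) ^ 2 * Real.log x * ((d : ℝ) * Z) ^ ((2 : ℝ) - 1 / 50) / x with hW
  have hWnn : 0 ≤ W := by
    rw [hW]
    have : 0 ≤ ((d : ℝ) * Z) ^ ((2 : ℝ) - 1 / 50) := Real.rpow_nonneg (by positivity) _
    have h2 : 0 ≤ Real.log x := by linarith
    positivity
  have hP2 : ∀ q ∈ P, 2 < q := fun q hq => (hP q hq).2.2.1
  set L : ℕ := Nat.log 2 Z + 1 with hL
  have hblL : ∀ q ∈ P, bl q ∈ range L := by
    intro q hq
    rw [mem_range, hL]
    have h1 : bl q ≤ Nat.log 2 Z := by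
      unfold bl
      refine Nat.log_mono_right ?_
      have := (hP q hq).2.2.2
      omega
    omega
  -- first family
  have hS1 : ‖∑ q ∈ P, ∑ q' ∈ P, (if q' ≠ q ∧ q' ≤ 2 ^ (bl q + 1) ∧ True then T q q' else 0)‖ ≤
      L * W := by
    rw [← sum_fiberwise_of_maps_to hblL]
    refine (norm_sum_le _ _).trans ?_
    have hb : ∀ i ∈ range L, ‖∑ q ∈ P.filter (fun q => bl q = i), ∑ q' ∈ P,
        (if q' ≠ q ∧ q' ≤ 2 ^ (bl q + 1) ∧ True then T q q' else 0)‖ ≤ W := by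
      intro i hi
      have hZ0 : Z = 0 ∨ 1 ≤ Z := by omega
      rcases hZ0 with hZ0 | hZ1
      · have hPe : P = ∅ := by
          rw [eq_empty_iff_forall_notMem]
          intro q hq
          have := hP q hq
          omega
        rw [hPe]
        simpa using hWnn
      have hiZ : 2 ^ i ≤ Z := by
        rw [mem_range, hL] at hi
        exact (Nat.pow_le_pow_right (by norm_num) (by omega : i ≤ Nat.log 2 Z)).trans
          (Nat.pow_log_le_self 2 (by omega))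
      have hNx : d * 2 ^ i ≤ x := (Nat.mul_le_mul_left d hiZ).trans hdZ
      have h := hx1 x d i (d * 2 ^ i) hxx1 hd hodd rfl hNx a a' haa ha ha'
        (fun q => if q ∈ P then c q else 0) (fun q => if q ∈ P then c' q else 0)
        (fun q => by split_ifs <;> simp [hc]) (fun q => by split_ifs <;> simp [hc'])
        (fun q hq => by
          have : q ∈ P := by
            by_contra hc; simp [hc] at hq
          exact ⟨(hP q this).1, (hP q this).2.1, (hP q this).2.2.1⟩)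
        (fun q hq => by
          have : q ∈ P := by
            by_contra hc; simp [hc] at hq
          exact ⟨(hP q this).1, (hP q this).2.1, (hP q this).2.2.1⟩) n0 hn0
      rw [Pr_block P hP2 i T _ (fun _ => True) (fun q q' => by
        by_cases h1 : q ∈ P <;> by_cases h2 : q' ∈ P <;> simp [h1, h2, hT])] at h
      have e : ∑ q ∈ P.filter (fun q => bl q = i), ∑ q' ∈ P,
          (if q' ≠ q ∧ q' ≤ 2 ^ (bl q + 1) ∧ True then T q q' else 0) =
          ∑ q ∈ P.filter (fun q => bl q = i), ∑ q' ∈ P,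
          (if q' ≠ q ∧ q' ≤ 2 ^ (i + 1) ∧ True then T q q' else 0) := by
        refine sum_congr rfl fun q hq => ?_
        rw [mem_filter] at hq
        rw [hq.2]
      rw [e]
      refine h.trans ?_
      rw [hW]
      have hm : (((d * 2 ^ i : ℕ) : ℝ)) ^ ((2 : ℝ) - 1 / 50) ≤
          ((d : ℝ) * Z) ^ ((2 : ℝ) - 1 / 50) := by
        refine Real.rpow_le_rpow (by positivity) ?_ (by norm_num)
        have : d * 2 ^ i ≤ d * Z := Nat.mul_le_mul_left d hiZ
        exact_mod_cast this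
      gcongr
    refine (sum_le_sum hb).trans ?_
    rw [sum_const, card_range, nsmul_eq_mul]
  -- second family
  have hS2 : ‖∑ q' ∈ P, ∑ q ∈ P, (if q ≤ 2 ^ bl q' then T q q' else 0)‖ ≤ L * W := by
    rw [← sum_fiberwise_of_maps_to hblL]
    refine (norm_sum_le _ _).trans ?_
    have hb : ∀ i ∈ range L, ‖∑ q' ∈ P.filter (fun q' => bl q' = i), ∑ q ∈ P,
        (if q ≤ 2 ^ bl q' then T q q' else 0)‖ ≤ W := by
      intro i hi
      have hZ0 : Z = 0 ∨ 1 ≤ Z := by omega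
      rcases hZ0 with hZ0 | hZ1
      · have hPe : P = ∅ := by
          rw [eq_empty_iff_forall_notMem]
          intro q hq
          have := hP q hq
          omega
        rw [hPe]
        simpa using hWnn
      have hiZ : 2 ^ i ≤ Z := by
        rw [mem_range, hL] at hi
        exact (Nat.pow_le_pow_right (by norm_num) (by omega : i ≤ Nat.log 2 Z)).trans
          (Nat.pow_log_le_self 2 (by omega))
      have hNx : d * 2 ^ i ≤ x := (Nat.mul_le_mul_left d hiZ).trans hdZ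
      have h := hx1 x d i (d * 2 ^ i) hxx1 hd hodd rfl hNx a' a haa.symm ha' ha
        (fun q => if q ∈ P then c' q else 0) (fun q => if q ∈ P ∧ q ≤ 2 ^ i then c q else 0)
        (fun q => by split_ifs <;> simp [hc']) (fun q => by split_ifs <;> simp [hc])
        (fun q hq => by
          have : q ∈ P := by
            by_contra hc; simp [hc] at hq
          exact ⟨(hP q this).1, (hP q this).2.1, (hP q this).2.2.1⟩)
        (fun q hq => by
          have : q ∈ P := by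
            by_contra hc; simp [hc] at hq
          exact ⟨(hP q this).1, (hP q this).2.1, (hP q this).2.2.1⟩) (fun q q' => n0 q' q)
        (fun q q' h1 h2 h3 h4 h5 => by
          obtain ⟨g1, g2, g3⟩ := hn0 q' q h2 h1 h3.symm h5 h4
          exact ⟨g1, g3, g2⟩)
      rw [Pr_block P hP2 i (fun q q' => T q' q) _ (fun q => q ≤ 2 ^ i) (fun q q' => by
        have em : d * q * q' = d * q' * q := by ring
        have er : (d : ℝ) * q * q' = (d : ℝ) * q' * q := by ring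
        have ec : c' q * c q' = c q' * c' q := by ring
        by_cases h1 : q ∈ P <;> by_cases h2 : q' ∈ P <;> by_cases h3 : q' ≤ 2 ^ i <;>
          simp [h1, h2, h3, hT, em, er, ec])] at h
      have e : ∑ q' ∈ P.filter (fun q' => bl q' = i), ∑ q ∈ P,
          (if q ≤ 2 ^ bl q' then T q q' else 0) =
          ∑ q' ∈ P.filter (fun q' => bl q' = i), ∑ q ∈ P,
          (if q ≠ q' ∧ q ≤ 2 ^ (i + 1) ∧ q ≤ 2 ^ i then T q q' else 0) := by
        refine sum_congr rfl fun q' hq' => ?_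
        rw [mem_filter] at hq'
        rw [hq'.2]
        refine sum_congr rfl fun q _ => ?_
        have h1 := bl_lt (hP2 q' hq'.1)
        rw [hq'.2] at h1
        have h2 : 2 ^ (i + 1) = 2 * 2 ^ i := by ring
        by_cases h3 : q ≤ 2 ^ i
        · rw [if_pos h3, if_pos ⟨by omega, by omega, h3⟩]
        · rw [if_neg h3, if_neg (fun h => h3 h.2.2)]
      rw [e]
      refine h.trans ?_
      rw [hW]
      have hm : (((d * 2 ^ i : ℕ) : ℝ)) ^ ((2 : ℝ) - 1 / 50) ≤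
          ((d : ℝ) * Z) ^ ((2 : ℝ) - 1 / 50) := by
        refine Real.rpow_le_rpow (by positivity) ?_ (by norm_num)
        have : d * 2 ^ i ≤ d * Z := Nat.mul_le_mul_left d hiZ
        exact_mod_cast this
      gcongr
    refine (sum_le_sum hb).trans ?_
    rw [sum_const, card_range, nsmul_eq_mul]
  have hsplit : ∑ q ∈ P, ∑ q' ∈ P.filter (fun q' => q' ≠ q), T q q' =
      ∑ q ∈ P, ∑ q' ∈ P, (if q' ≠ q ∧ q' ≤ 2 ^ (bl q + 1) ∧ True then T q q' else 0) +
      ∑ q' ∈ P, ∑ q ∈ P, (if q ≤ 2 ^ bl q' then T q q' else 0) := by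
    rw [sum_comm (s := P) (t := P) (f := fun q' q => if q ≤ 2 ^ bl q' then T q q' else 0),
      ← sum_add_distrib]
    refine sum_congr rfl fun q hq => ?_
    rw [← sum_add_distrib, sum_filter]
    refine sum_congr rfl fun q' hq' => ?_
    have key := bl_split (hP2 q hq) (hP2 q' hq')
    by_cases h1 : q' = q
    · subst h1
      have : ¬ q' ≤ 2 ^ bl q' := not_le.mpr (bl_lt (hP2 q' hq'))
      simp [this]
    · by_cases h2 : q' ≤ 2 ^ (bl q + 1)
      · have h3 : ¬ q ≤ 2 ^ bl q' := fun h => (key.mp h) h2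
        rw [if_pos h1, if_pos ⟨h1, h2, trivial⟩, if_neg h3, add_zero]
      · have h3 : q ≤ 2 ^ bl q' := key.mpr h2
        rw [if_pos h1, if_neg (fun h => h2 h.2.1), if_pos h3, zero_add]
  show ‖∑ q ∈ P, ∑ q' ∈ P.filter (fun q' => q' ≠ q), T q q'‖ ≤ _
  rw [hsplit]
  refine (norm_add_le _ _).trans ?_
  refine (add_le_add hS1 hS2).trans ?_
  -- number of blocks
  rcases Nat.eq_zero_or_pos Z with hZ0 | hZ1
  · have hL1 : L = 1 := by rw [hL, hZ0]; simp
    rw [hL1, hW]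
    have hr : 0 ≤ ((d : ℝ) * Z) ^ ((2 : ℝ) - 1 / 50) := Real.rpow_nonneg (by positivity) _
    have h0 : 0 ≤ (d : ℝ) ^ 2 * ((d : ℝ) * Z) ^ ((2 : ℝ) - 1 / 50) / x := by positivity
    have e1 : ((1 : ℕ) : ℝ) * (8 * (d : ℝ) ^ 2 * Real.log x * ((d : ℝ) * Z) ^ ((2 : ℝ) - 1 / 50) / x) +
        ((1 : ℕ) : ℝ) * (8 * (d : ℝ) ^ 2 * Real.log x * ((d : ℝ) * Z) ^ ((2 : ℝ) - 1 / 50) / x) =
        (16 * Real.log x) * ((d : ℝ) ^ 2 * ((d : ℝ) * Z) ^ ((2 : ℝ) - 1 / 50) / x) := by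
      push_cast; ring
    have e2 : 32 * (d : ℝ) ^ 2 * Real.log x ^ 2 * ((d : ℝ) * Z) ^ ((2 : ℝ) - 1 / 50) / x =
        (32 * Real.log x ^ 2) * ((d : ℝ) ^ 2 * ((d : ℝ) * Z) ^ ((2 : ℝ) - 1 / 50) / x) := by ring
    rw [e1, e2]
    refine mul_le_mul_of_nonneg_right ?_ h0
    nlinarith
  · have hLle : (L : ℝ) ≤ 2 * Real.log x := by
      have hZx : Z ≤ x := (Nat.le_mul_of_pos_left Z hd).trans hdZ
      have hZR : (1 : ℝ) ≤ Z := by exact_mod_cast hZ1
      have h1 : ((Nat.log 2 Z : ℕ) : ℝ) * Real.log 2 ≤ Real.log x := by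
        have h2 : (2 : ℝ) ^ Nat.log 2 Z ≤ Z := by
          exact_mod_cast Nat.pow_log_le_self 2 (by omega : Z ≠ 0)
        have h3 : (Z : ℝ) ≤ x := by exact_mod_cast hZx
        have h4 := Real.log_le_log (by positivity) (h2.trans h3)
        rwa [Real.log_pow] at h4
      have h5 := Real.log_two_gt_d9
      have h6 : (0 : ℝ) ≤ ((Nat.log 2 Z : ℕ) : ℝ) := by positivity
      rw [hL]
      push_cast
      nlinarith
    have hr : 0 ≤ ((d : ℝ) * Z) ^ ((2 : ℝ) - 1 / 50) := Real.rpow_nonneg (by positivity) _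
    calc (L : ℝ) * W + L * W = (2 * L) * W := by ring
      _ ≤ (2 * (2 * Real.log x)) * W := by gcongr
      _ = 32 * (d : ℝ) ^ 2 * Real.log x ^ 2 * ((d : ℝ) * Z) ^ ((2 : ℝ) - 1 / 50) / x := by
          rw [hW]; ring

end Pool.Agent.H80.BE
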