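import Pool.Agent.H80.BE.Defs
import Pool.Agent.H91.PT.Sel

/-!
# BE Sw: the sieve weights

* `sw_exists`: `Pool.Agent.H91.PT.selberg_weights` with `M = 2`, `z = D` (`⌊(D:ℝ)⌋₊ = D`, `2/φ(2) = 2`,
  coprime to `2` means odd).
* `lam_nonneg`: a square.  `lam_le`: at most `D` terms of absolute value `≤ 1`.
* `lam_prime`: if `1 ≤ d ≤ D < p` and `d ∣ p`, `p` prime, then `d = 1`; `ρ 1 = 1` (and `1 ≤ D` by `SW`).
* `gg_le`: `|GG| ≤ ∑_{d,e ≤ D} 1` because `lcm(d,e) ≥ 1`.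
-/

set_option autoImplicit false

namespace Pool.Agent.H80.BE

open Finset

theorem sw_exists (D : ℕ) (hD : 2 ≤ D) :
    ∃ ρ : ℕ → ℝ, SW D ρ ∧ 0 ≤ GG D ρ ∧ GG D ρ ≤ 2 / Real.log D := by
  have hD1 : (1 : ℝ) < (D : ℝ) := by
    have : 1 < D := by omega
    exact_mod_cast this
  obtain ⟨ρ, h1, h2, h3, h4, h5⟩ := Pool.Agent.H91.PT.selberg_weights 2 (by norm_num) hD1
  rw [Nat.floor_natCast] at h4 h5
  refine ⟨ρ, ⟨h1, h2, ?_⟩, h4, ?_⟩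
  · intro d hd
    obtain ⟨a1, a2, a3, a4⟩ := h3 d hd
    exact ⟨a1, by exact_mod_cast a2, Nat.coprime_two_right.1 a3⟩
  · refine h5.trans (le_of_eq ?_)
    rw [Nat.totient_two]
    norm_num

theorem sw_one_le {D : ℕ} {ρ : ℕ → ℝ} (h : SW D ρ) : 1 ≤ D := by
  exact (h.2.2 1 (by rw [h.1]; exact one_ne_zero)).2.1

theorem lam_nonneg (D : ℕ) (ρ : ℕ → ℝ) (n : ℤ) : 0 ≤ lam D ρ n := by
  exact sq_nonneg _

theorem lam_le {D : ℕ} {ρ : ℕ → ℝ} (h : SW D ρ) (n : ℤ) : lam D ρ n ≤ (D : ℝ) ^ 2 := by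
  have h1 : |∑ d ∈ (Icc 1 D).filter (fun d : ℕ => (d : ℤ) ∣ n), ρ d| ≤ (D : ℝ) := by
    refine (Finset.abs_sum_le_sum_abs _ _).trans ?_
    refine (Finset.sum_le_sum (fun d _ => h.2.1 d)).trans ?_
    rw [Finset.sum_const, nsmul_eq_mul, mul_one]
    have h2 := Finset.card_filter_le (Icc 1 D) (fun d : ℕ => (d : ℤ) ∣ n)
    rw [Nat.card_Icc, Nat.add_sub_cancel] at h2
    exact_mod_cast h2
  unfold lam
  rw [← sq_abs]
  exact pow_le_pow_left₀ (abs_nonneg _) h1 2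

theorem lam_prime {D : ℕ} {ρ : ℕ → ℝ} (h : SW D ρ) {p : ℕ} (hp : p.Prime) (hpD : D < p) :
    lam D ρ (p : ℤ) = 1 := by
  have h1 : (Icc 1 D).filter (fun d : ℕ => (d : ℤ) ∣ (p : ℤ)) = {1} := by
    ext d
    rw [Finset.mem_filter, Finset.mem_Icc, Finset.mem_singleton]
    constructor
    · rintro ⟨⟨_, h2⟩, h3⟩
      have h4 : d ∣ p := Int.natCast_dvd_natCast.1 h3
      rcases (Nat.dvd_prime hp).1 h4 with h5 | h5
      · exact h5
      · omega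
    · rintro rfl
      refine ⟨⟨le_rfl, sw_one_le h⟩, ?_⟩
      exact Int.natCast_dvd_natCast.2 (one_dvd p)
  unfold lam
  rw [h1, Finset.sum_singleton, h.1, one_pow]

theorem gg_le {D : ℕ} {ρ : ℕ → ℝ} (h : SW D ρ) : |GG D ρ| ≤ (D : ℝ) ^ 2 := by
  unfold GG
  refine (Finset.abs_sum_le_sum_abs _ _).trans ?_
  have h1 : ∀ d ∈ Icc 1 D, |∑ e ∈ Icc 1 D, ρ d * ρ e / ((Nat.lcm d e : ℕ) : ℝ)| ≤ (D : ℝ) := by
    intro d hd
    rw [Finset.mem_Icc] at hd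
    refine (Finset.abs_sum_le_sum_abs _ _).trans ?_
    have h2 : ∀ e ∈ Icc 1 D, |ρ d * ρ e / ((Nat.lcm d e : ℕ) : ℝ)| ≤ 1 := by
      intro e he
      rw [Finset.mem_Icc] at he
      have h3 : 1 ≤ Nat.lcm d e := Nat.lcm_pos (by omega) (by omega)
      have h4 : (1 : ℝ) ≤ ((Nat.lcm d e : ℕ) : ℝ) := by exact_mod_cast h3
      rw [abs_div, abs_mul, abs_of_pos (by linarith : (0 : ℝ) < ((Nat.lcm d e : ℕ) : ℝ))]
      rw [div_le_one (by linarith)]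
      have h5 := mul_le_mul (h.2.1 d) (h.2.1 e) (abs_nonneg _) zero_le_one
      linarith
    refine (Finset.sum_le_sum h2).trans ?_
    rw [Finset.sum_const, Nat.card_Icc, Nat.add_sub_cancel, nsmul_eq_mul, mul_one]
  refine (Finset.sum_le_sum h1).trans ?_
  rw [Finset.sum_const, Nat.card_Icc, Nat.add_sub_cancel, nsmul_eq_mul, sq]

end Pool.Agent.H80.BE
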