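import Pool.Agent.H80.BE.Off
import Pool.Agent.H80.BE.Dg

/-!
# BE Tot: the quadratic form

`(∑_{a ∈ S} TT_a)² = ∑_{a,a' ∈ S} TT_a TT_a'`.
* `a = a'`: `∑_{n ∉ S} ≤ ∑_{n ≠ a}` (nonnegative terms), `diag` (`Z D² ≤ Z² D²`, `Z D² ≤ x`).
* `a ≠ a'`: `∑_{n ∉ S} = ∑_{n ∈ RW} - ∑_{n ∈ RW, n ∈ S}`; the first sum is `off`; in the second `|n| ≤ x`, so
  for `n ≠ b ∈ S`: `|TT P c b n| ≤ #{q ∈ P : q ∣ n - b} + ∑ 1/(q-1) ≤ 5 + 2` (`omega_le`, `j = 0`), and
  `|TT P c n n| ≤ |P| + 2 ≤ Z + 2`; at most one of `a, a'` equals `n`; `ww ≤ 3`, `lam ≤ D²`: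
  `≤ 3 D² · 7 (Z + 2) ≤ 42 D² Z` for each `n ∈ S` (also `49 ≤ 14 Z` if `Z ≥ 4`).
-/

set_option autoImplicit false

namespace Pool.Agent.H80.BE

open Finset
open Pool.Agent.H80.KF (ee kf ww RW fej)

private theorem Tot_abs (Y Z : ℕ) (hY : 2 ≤ Y) (P : Finset ℕ) (hP : PS Y Z P)
    (hμ : ∑ q ∈ P, 1 / ((q : ℝ) - 1) ≤ 2) (c : ℕ → ℝ) (hc : ∀ q, |c q| ≤ 1) (a n : ℤ) :
    |TT P c a n| ≤ ((P.filter (fun q : ℕ => (q : ℤ) ∣ n - a)).card : ℝ) + 2 := by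
  have h1 : ∀ q ∈ P, (0 : ℝ) < (q : ℝ) - 1 := by
    intro q hq
    have h2 : 2 < q := lt_of_le_of_lt hY (hP q hq).2.1
    have h3 : (2 : ℝ) < q := by exact_mod_cast h2
    linarith
  calc |TT P c a n| ≤ ∑ q ∈ P,
        |c q * ((if (q : ℤ) ∣ n - a then (1 : ℝ) else 0) - 1 / ((q : ℝ) - 1))| := by
        unfold TT
        exact Finset.abs_sum_le_sum_abs _ _
    _ ≤ ∑ q ∈ P, ((if (q : ℤ) ∣ n - a then (1 : ℝ) else 0) + 1 / ((q : ℝ) - 1)) := by
        refine Finset.sum_le_sum fun q hq => ?_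
        rw [abs_mul]
        have h4 : |(if (q : ℤ) ∣ n - a then (1 : ℝ) else 0) - 1 / ((q : ℝ) - 1)| ≤
            (if (q : ℤ) ∣ n - a then (1 : ℝ) else 0) + 1 / ((q : ℝ) - 1) := by
          have h5 : 0 ≤ 1 / ((q : ℝ) - 1) := (one_div_pos.mpr (h1 q hq)).le
          have h6 : (0 : ℝ) ≤ (if (q : ℤ) ∣ n - a then (1 : ℝ) else 0) := by
            split_ifs <;> norm_num
          rw [abs_le]
          constructor <;> linarith
        calc _ ≤ 1 * |(if (q : ℤ) ∣ n - a then (1 : ℝ) else 0) - 1 / ((q : ℝ) - 1)| :=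
              mul_le_mul_of_nonneg_right (hc q) (abs_nonneg _)
          _ ≤ _ := by rw [one_mul]; exact h4
    _ = ((P.filter (fun q : ℕ => (q : ℤ) ∣ n - a)).card : ℝ) +
          ∑ q ∈ P, 1 / ((q : ℝ) - 1) := by
        rw [Finset.sum_add_distrib, Finset.sum_boole]
    _ ≤ _ := by linarith

private theorem Tot_prod (x Y Z : ℕ) (hY : 2 ≤ Y) (hxY : x ≤ (Y + 1) ^ 3) (hZ : 4 ≤ Z)
    (P : Finset ℕ) (hP : PS Y Z P) (hμ : ∑ q ∈ P, 1 / ((q : ℝ) - 1) ≤ 2)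
    (c : ℤ → ℕ → ℝ) (hc : ∀ a q, |c a q| ≤ 1) (a b n : ℤ) (hab : a ≠ b) (ha : |a| ≤ x)
    (hb : |b| ≤ x) (hn : |n| ≤ x) :
    |TT P (c a) a n| * |TT P (c b) b n| ≤ 14 * Z := by
  have hZr : (4 : ℝ) ≤ Z := by exact_mod_cast hZ
  have hsmall : ∀ b : ℤ, |b| ≤ x → n ≠ b → |TT P (c b) b n| ≤ 7 := by
    intro b hb hnb
    have h1 := Tot_abs Y Z hY P hP hμ (c b) (hc b) b n
    have h2 : (P.filter (fun q : ℕ => (q : ℤ) ∣ n - b)).card ≤ 0 + 5 := by
      refine omega_le x Y Z 0 hY hxY P hP (n - b) (sub_ne_zero.mpr hnb) ?_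
      have h3 := abs_sub n b
      have h4 : (0 : ℤ) ≤ x := Int.natCast_nonneg _
      norm_num
      linarith
    have h3 : ((P.filter (fun q : ℕ => (q : ℤ) ∣ n - b)).card : ℝ) ≤ 5 := by
      exact_mod_cast h2
    linarith
  have hbig : ∀ b : ℤ, |TT P (c b) b n| ≤ Z + 2 := by
    intro b
    have h1 := Tot_abs Y Z hY P hP hμ (c b) (hc b) b n
    have h2 : (P.filter (fun q : ℕ => (q : ℤ) ∣ n - b)).card ≤ Z := by
      calc _ ≤ P.card := Finset.card_filter_le _ _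
        _ ≤ (Icc 1 Z).card := by
            refine Finset.card_le_card fun q hq => ?_
            have h3 := hP q hq
            rw [mem_Icc]
            exact ⟨h3.1.one_lt.le, h3.2.2⟩
        _ = Z := by rw [Nat.card_Icc, Nat.add_sub_cancel]
    have h3 : ((P.filter (fun q : ℕ => (q : ℤ) ∣ n - b)).card : ℝ) ≤ Z := by
      exact_mod_cast h2
    linarith
  by_cases hna : n = a
  · have h1 := hbig a
    have h2 := hsmall b hb (by rw [hna]; exact hab)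
    calc |TT P (c a) a n| * |TT P (c b) b n| ≤ (Z + 2) * 7 :=
          mul_le_mul h1 h2 (abs_nonneg _) (by linarith)
      _ ≤ 14 * Z := by linarith
  · have h1 := hsmall a ha hna
    by_cases hnb : n = b
    · have h2 := hbig b
      calc |TT P (c a) a n| * |TT P (c b) b n| ≤ 7 * (Z + 2) :=
            mul_le_mul h1 h2 (abs_nonneg _) (by norm_num)
        _ ≤ 14 * Z := by linarith
    · have h2 := hsmall b hb hnb
      calc |TT P (c a) a n| * |TT P (c b) b n| ≤ 7 * 7 :=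
            mul_le_mul h1 h2 (abs_nonneg _) (by norm_num)
        _ ≤ 14 * Z := by linarith

theorem tot : ∃ x0 : ℕ, ∀ x J D Y Z : ℕ, x0 ≤ x → 1 ≤ J → 1 ≤ D → D ≤ Y → 2 ≤ Y → Y ≤ Z →
    4 ≤ Z → x ≤ (Y + 1) ^ 3 → D ^ 2 * Z ≤ x →
    (∀ k : ℕ, 1 ≤ k → k ≤ Z ^ 2 * D ^ 2 → k ∣ 2 * x * J) →
    ∀ ρ : ℕ → ℝ, SW D ρ → 0 ≤ GG D ρ → ∀ P : Finset ℕ, PS Y Z P →
    ∑ q ∈ P, 1 / ((q : ℝ) - 1) ≤ 2 → ∀ S : Finset ℤ, (∀ a ∈ S, |a| ≤ x) →
    ∀ c : ℤ → ℕ → ℝ, (∀ a q, |c a q| ≤ 1) →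
    ∑ n ∈ (RW x J).filter (fun n => n ∉ S),
        ww x J n * lam D ρ n * (∑ a ∈ S, TT P (c a) a n) ^ 2 ≤
      1000 * x * GG D ρ * (∑ a ∈ S, ∑ q ∈ P, |c a q| / q) +
        (S.card : ℝ) ^ 2 * (200 * (D : ℝ) ^ 10 * Real.log x ^ 2 * (Z : ℝ) ^ ((2 : ℝ) - 1 / 50) +
          60 * x * (D : ℝ) ^ 2 * Real.log x / Y) +
        100 * (S.card : ℝ) ^ 3 * (D : ℝ) ^ 2 * Z := by
  obtain ⟨x1, hoff⟩ := off
  refine ⟨max x1 2, fun x J D Y Z hx hJ hD hDY hY hYZ hZ hxY hDZ hdiv ρ hρ hG P hP hμ S hS c hc =>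
    ?_⟩
  have hx1 : x1 ≤ x := le_trans (le_max_left _ _) hx
  have hx2 : 2 ≤ x := le_trans (le_max_right _ _) hx
  have hw0 : ∀ n, 0 ≤ ww x J n * lam D ρ n := fun n =>
    mul_nonneg (Pool.Agent.H80.KF.ww_nonneg x J n) (lam_nonneg D ρ n)
  have hw1 : ∀ n, ww x J n * lam D ρ n ≤ 3 * (D : ℝ) ^ 2 := fun n =>
    mul_le_mul (Pool.Agent.H80.KF.ww_le x J (by omega) hJ n) (lam_le hρ n) (lam_nonneg D ρ n)
      (by norm_num)
  set OFF : ℝ := 200 * (D : ℝ) ^ 10 * Real.log x ^ 2 * (Z : ℝ) ^ ((2 : ℝ) - 1 / 50) +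
    60 * x * (D : ℝ) ^ 2 * Real.log x / Y with hOFF
  have hlog : 0 ≤ Real.log x := Real.log_nonneg (by exact_mod_cast (by omega : 1 ≤ x))
  have hOFF0 : 0 ≤ OFF := by
    have : 0 ≤ (Z : ℝ) ^ ((2 : ℝ) - 1 / 50) := Real.rpow_nonneg (Nat.cast_nonneg _) _
    positivity
  set R : Finset ℤ := RW x J with hR
  set N : Finset ℤ := R.filter (fun n => n ∉ S) with hN
  set w : ℤ → ℝ := fun n => ww x J n * lam D ρ n with hw
  -- one diagonal term
  have hdiagt : ∀ a ∈ S, ∑ n ∈ N, w n * (TT P (c a) a n * TT P (c a) a n) ≤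
      1000 * x * GG D ρ * ∑ q ∈ P, |c a q| / q := by
    intro a ha
    refine le_trans ?_ (diag x J D Y Z ρ hx2 hJ hD hDY hY hxY hYZ ?_ ?_ hρ hG P hP hμ a (hS a ha)
      (c a) (hc a))
    · have h1 : N ⊆ (RW x J).filter (fun n => n ≠ a) := by
        intro n hn
        rw [hN, mem_filter] at hn
        rw [mem_filter]
        exact ⟨hn.1, fun h => hn.2 (h ▸ ha)⟩
      calc ∑ n ∈ N, w n * (TT P (c a) a n * TT P (c a) a n)
          = ∑ n ∈ N, ww x J n * lam D ρ n * TT P (c a) a n ^ 2 := by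
            refine Finset.sum_congr rfl fun n _ => ?_
            rw [hw, sq]
        _ ≤ _ := Finset.sum_le_sum_of_subset_of_nonneg h1 fun n _ _ =>
            mul_nonneg (hw0 n) (sq_nonneg _)
    · calc Z * D ^ 2 = D ^ 2 * Z := mul_comm _ _
        _ ≤ x := hDZ
        _ ≤ 2 * x := by omega
    · intro k hk1 hk2
      refine hdiv k hk1 (hk2.trans ?_)
      exact Nat.mul_le_mul_right _ (by nlinarith)
  -- one off-diagonal term
  have hofft : ∀ a ∈ S, ∀ b ∈ S, a ≠ b → ∑ n ∈ N, w n * (TT P (c a) a n * TT P (c b) b n) ≤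
      OFF + 42 * (S.card : ℝ) * (D : ℝ) ^ 2 * Z := by
    intro a ha b hb hab
    have h1 : ∑ n ∈ N, w n * (TT P (c a) a n * TT P (c b) b n) =
        ∑ n ∈ R, w n * (TT P (c a) a n * TT P (c b) b n) -
        ∑ n ∈ R.filter (fun n => n ∈ S), w n * (TT P (c a) a n * TT P (c b) b n) := by
      rw [hN, ← Finset.sum_filter_add_sum_filter_not R (fun n => n ∈ S)]
      ring
    have h2 := hoff x J D Y Z hx1 hJ hD hDY hY hYZ hDZ hdiv ρ hρ P hP a b hab (hS a ha) (hS b hb)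
      (c a) (c b) (hc a) (hc b)
    have h3 : ∑ n ∈ R, w n * (TT P (c a) a n * TT P (c b) b n) ≤ OFF := (le_abs_self _).trans h2
    have h4 : |∑ n ∈ R.filter (fun n => n ∈ S), w n * (TT P (c a) a n * TT P (c b) b n)| ≤
        42 * (S.card : ℝ) * (D : ℝ) ^ 2 * Z := by
      refine (Finset.abs_sum_le_sum_abs _ _).trans ?_
      have h5 : ∀ n ∈ R.filter (fun n => n ∈ S),
          |w n * (TT P (c a) a n * TT P (c b) b n)| ≤ 42 * (D : ℝ) ^ 2 * Z := by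
        intro n hn
        rw [mem_filter] at hn
        rw [abs_mul, abs_mul (TT P (c a) a n),
          abs_of_nonneg (show 0 ≤ w n from hw0 n)]
        have h6 := Tot_prod x Y Z hY hxY hZ P hP hμ c hc a b n hab (hS a ha) (hS b hb) (hS n hn.2)
        calc _ ≤ 3 * (D : ℝ) ^ 2 * (14 * Z) :=
              mul_le_mul (hw1 n) h6 (by positivity) (by positivity)
          _ = _ := by ring
      refine (Finset.sum_le_card_nsmul _ _ _ h5).trans ?_
      rw [nsmul_eq_mul]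
      have h7 : (R.filter (fun n => n ∈ S)).card ≤ S.card :=
        Finset.card_le_card fun n hn => (mem_filter.mp hn).2
      have h8 : ((R.filter (fun n => n ∈ S)).card : ℝ) ≤ S.card := by exact_mod_cast h7
      calc _ ≤ (S.card : ℝ) * (42 * (D : ℝ) ^ 2 * Z) := by gcongr
        _ = _ := by ring
    rw [h1]
    have h9 := neg_abs_le (∑ n ∈ R.filter (fun n => n ∈ S),
      w n * (TT P (c a) a n * TT P (c b) b n))
    linarith
  -- expand the square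
  have hexp : ∑ n ∈ N, ww x J n * lam D ρ n * (∑ a ∈ S, TT P (c a) a n) ^ 2 =
      ∑ a ∈ S, ∑ b ∈ S, ∑ n ∈ N, w n * (TT P (c a) a n * TT P (c b) b n) := by
    calc ∑ n ∈ N, ww x J n * lam D ρ n * (∑ a ∈ S, TT P (c a) a n) ^ 2
        = ∑ n ∈ N, ∑ a ∈ S, ∑ b ∈ S, w n * (TT P (c a) a n * TT P (c b) b n) := by
          refine Finset.sum_congr rfl fun n _ => ?_
          rw [sq, Finset.sum_mul_sum, Finset.mul_sum]
          refine Finset.sum_congr rfl fun a _ => ?_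
          rw [Finset.mul_sum]
      _ = ∑ a ∈ S, ∑ n ∈ N, ∑ b ∈ S, w n * (TT P (c a) a n * TT P (c b) b n) :=
          Finset.sum_comm
      _ = _ := Finset.sum_congr rfl fun a _ => Finset.sum_comm
  rw [hexp]
  have hrow : ∀ a ∈ S, ∑ b ∈ S, ∑ n ∈ N, w n * (TT P (c a) a n * TT P (c b) b n) ≤
      1000 * x * GG D ρ * ∑ q ∈ P, |c a q| / q +
        (S.card : ℝ) * (OFF + 42 * (S.card : ℝ) * (D : ℝ) ^ 2 * Z) := by
    intro a ha
    rw [← Finset.add_sum_erase S _ ha]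
    refine add_le_add (hdiagt a ha) ?_
    refine (Finset.sum_le_card_nsmul _ _ (OFF + 42 * (S.card : ℝ) * (D : ℝ) ^ 2 * Z)
      fun b hb => ?_).trans ?_
    · rw [mem_erase] at hb
      exact hofft a ha b hb.2 (Ne.symm hb.1)
    · rw [nsmul_eq_mul]
      have h7 : ((S.erase a).card : ℝ) ≤ S.card := by
        exact_mod_cast Finset.card_le_card (Finset.erase_subset a S)
      gcongr
  refine (Finset.sum_le_sum hrow).trans ?_
  rw [Finset.sum_add_distrib, ← Finset.mul_sum, Finset.sum_const, nsmul_eq_mul]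
  have hlast : (0 : ℝ) ≤ (S.card : ℝ) ^ 3 * (D : ℝ) ^ 2 * Z := by positivity
  nlinarith [hlast]

end Pool.Agent.H80.BE
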